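import Pool.Agent.Lib.P62a0c3.Preper
import Pool.Agent.Lib.P62g.RedB
import Pool.Agent.Lib.P62g.GonSup
import Pool.Agent.Lib.P62g.Crit

/-!
# Uniform boundedness (N = 1, all D) for bicritical maps of large degree
-/

namespace Pool.Agent.Lib.P62c.BicD

open Polynomial IntermediateField

universe u

/-- The self-map `x ↦ P(x) / Q(x)` of `ℙ¹(L) = L ∪ {∞}`. For coprime `P, Q` with
`max (deg P) (deg Q) = d` this is the endomorphism of degree `d` given by `P` and `Q`; its value at
`∞` is the quotient of the coefficients of `X ^ d`. -/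
noncomputable def ratMap {L : Type*} [Field L] (P Q : L[X]) (d : ℕ) : OnePoint L → OnePoint L
  | OnePoint.infty => open Classical in
      if Q.coeff d = 0 then OnePoint.infty else ((P.coeff d / Q.coeff d : L) : OnePoint L)
  | OnePoint.some z => open Classical in
      if Q.eval z = 0 then OnePoint.infty else ((P.eval z / Q.eval z : L) : OnePoint L)

/-- The Möbius map `x ↦ (a x + b) / (c x + e)`. -/
noncomputable def mob {L : Type*} [Field L] (a b c e : L) : OnePoint L → OnePoint L :=
  ratMap (C a * X + C b) (C c * X + C e) 1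

/-- The power map `x ↦ x ^ d`. -/
noncomputable def powMap (L : Type*) [Field L] (d : ℕ) : OnePoint L → OnePoint L :=
  ratMap (X ^ d) 1 d

/-- An endomorphism `f` of degree `d` of `ℙ¹` over `k` is isotrivial if it is conjugate, by a Möbius
map over the algebraic closure, to one with complex coefficients. -/
def Isotrivial (k : Type u) [Field k] [Algebra ℂ k] (d : ℕ)
    (f : OnePoint (AlgebraicClosure k) → OnePoint (AlgebraicClosure k)) : Prop :=
  ∃ a b c e : AlgebraicClosure k, a * e - b * c ≠ 0 ∧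
    ∃ P Q : ℂ[X], IsCoprime P Q ∧ max P.natDegree Q.natDegree = d ∧
      ∀ x, f (mob a b c e x) =
        mob a b c e (ratMap (P.map (algebraMap ℂ (AlgebraicClosure k)))
          (Q.map (algebraMap ℂ (AlgebraicClosure k))) d x)

/-- The field `k(x)` of a point `x` of `ℙ¹` over the algebraic closure. -/
noncomputable def fieldOf (k : Type u) [Field k] :
    OnePoint (AlgebraicClosure k) → IntermediateField k (AlgebraicClosure k)
  | OnePoint.infty => ⊥
  | OnePoint.some z => k⟮z⟯

/-- The gonality of the function field `K` is at most `D`: there is a transcendental `y` with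
`[K : ℂ(y)] ≤ D`. -/
def GonalityLE (K : Type u) [Field K] [Algebra ℂ K] (D : ℕ) : Prop :=
  ∃ y : K, Transcendental ℂ y ∧ 0 < Module.finrank ℂ⟮y⟯ K ∧ Module.finrank ℂ⟮y⟯ K ≤ D

/-- The endomorphism of `ℙ¹` over `k` given by `P, Q ∈ k[X]`, acting on the points over the
algebraic closure. -/
noncomputable def endo (k : Type u) [Field k] (P Q : k[X]) (d : ℕ) :
    OnePoint (AlgebraicClosure k) → OnePoint (AlgebraicClosure k) :=
  ratMap (P.map (algebraMap k (AlgebraicClosure k))) (Q.map (algebraMap k (AlgebraicClosure k))) d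

/-- `f = A ∘ (x ↦ x ^ d) ∘ B` for Möbius maps `A(x) = (α x + β) / (γ x + δ)` and
`B(x) = (a x + b) / (c x + e)` over `K`. -/
def Bicritical {K : Type u} [Field K] (d : ℕ) (f : OnePoint K → OnePoint K) : Prop :=
  ∃ α β γ δ a b c e : K, α * δ - β * γ ≠ 0 ∧ a * e - b * c ≠ 0 ∧
    ∀ x, f x = mob α β γ δ (powMap K d (mob a b c e x))

/-- The set `Preper(f, D)`. -/
def Preper (k : Type u) [Field k] [Algebra ℂ k]
    (f : OnePoint (AlgebraicClosure k) → OnePoint (AlgebraicClosure k)) (D : ℕ) :
    Set (OnePoint (AlgebraicClosure k)) :=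
  {x | (Set.range fun n : ℕ => f^[n] x).Finite ∧ GonalityLE (fieldOf k x) D}

section aux

open Pool.Agent.Lib.P62a0c3

variable {L : Type*} [Field L]

theorem exists_toP1 (x : OnePoint L) : ∃ u v : L, (u ≠ 0 ∨ v ≠ 0) ∧ x = toP1 u v := by
  induction x using OnePoint.rec with
  | infty => exact ⟨1, 0, Or.inl one_ne_zero, by rw [toP1, if_pos rfl]⟩
  | coe z => exact ⟨z, 1, Or.inr one_ne_zero, by rw [toP1, if_neg one_ne_zero, div_one]⟩

theorem ratMap_some (P Q : L[X]) (d : ℕ) (z : L) :
    ratMap P Q d (z : OnePoint L) = toP1 (P.eval z) (Q.eval z) := rfl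

theorem ratMap_infty (P Q : L[X]) (d : ℕ) :
    ratMap P Q d OnePoint.infty = toP1 (P.coeff d) (Q.coeff d) := rfl

theorem mob_toP1 (a b c e : L) {u v : L} (h : u ≠ 0 ∨ v ≠ 0) :
    mob a b c e (toP1 u v) = toP1 (a * u + b * v) (c * u + e * v) := by
  by_cases hv : v = 0
  · have hu : u ≠ 0 := by
      rcases h with h | h
      · exact h
      · exact absurd hv h
    have : toP1 u v = OnePoint.infty := by rw [toP1, if_pos hv]
    rw [this, mob, ratMap_infty, hv, mul_zero, mul_zero, add_zero, add_zero, mul_comm a, mul_comm c,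
      toP1_mul u a c hu]
    simp
  · have : toP1 u v = ((u / v : L) : OnePoint L) := by rw [toP1, if_neg hv]
    rw [this, mob, ratMap_some, ← toP1_mul v _ _ hv]
    congr 1
    · simp; field_simp
    · simp; field_simp

theorem powMap_toP1 (d : ℕ) (hd : d ≠ 0) {u v : L} (h : u ≠ 0 ∨ v ≠ 0) :
    powMap L d (toP1 u v) = toP1 (u ^ d) (v ^ d) := by
  by_cases hv : v = 0
  · have hu : u ≠ 0 := by
      rcases h with h | h
      · exact h
      · exact absurd hv h
    have : toP1 u v = OnePoint.infty := by rw [toP1, if_pos hv]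
    rw [this, powMap, ratMap_infty, hv, zero_pow hd, coeff_X_pow_self, coeff_one, if_neg hd]
    rw [toP1, if_pos rfl, toP1, if_pos rfl]
  · have : toP1 u v = ((u / v : L) : OnePoint L) := by rw [toP1, if_neg hv]
    rw [this, powMap, ratMap_some, ← toP1_mul (v ^ d) _ _ (pow_ne_zero d hv)]
    congr 1
    · simp [div_pow]; field_simp
    · simp

theorem vec_mob {a b c e : L} (hdet : a * e - b * c ≠ 0) {u v : L} (h : u ≠ 0 ∨ v ≠ 0) :
    a * u + b * v ≠ 0 ∨ c * u + e * v ≠ 0 := by
  by_contra hcon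
  push Not at hcon
  obtain ⟨h1, h2⟩ := hcon
  have f1 : (a * e - b * c) * u = 0 := by linear_combination e * h1 - b * h2
  have f2 : (a * e - b * c) * v = 0 := by linear_combination a * h2 - c * h1
  rcases h with h | h
  · exact h ((mul_eq_zero.1 f1).resolve_left hdet)
  · exact h ((mul_eq_zero.1 f2).resolve_left hdet)

theorem vec_pow {d : ℕ} {u v : L} (h : u ≠ 0 ∨ v ≠ 0) : u ^ d ≠ 0 ∨ v ^ d ≠ 0 := by
  rcases h with h | h
  · exact Or.inl (pow_ne_zero d h)
  · exact Or.inr (pow_ne_zero d h)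

theorem mob_inv {a b c e : L} (hdet : a * e - b * c ≠ 0) (x : OnePoint L) :
    mob e (-b) (-c) a (mob a b c e x) = x := by
  obtain ⟨u, v, h, rfl⟩ := exists_toP1 x
  rw [mob_toP1 a b c e h, mob_toP1 _ _ _ _ (vec_mob hdet h), ← toP1_mul _ u v hdet]
  congr 1 <;> ring

theorem mob_inv' {a b c e : L} (hdet : a * e - b * c ≠ 0) (x : OnePoint L) :
    mob a b c e (mob e (-b) (-c) a x) = x := by
  have hdet' : e * a - (-b) * (-c) ≠ 0 := by
    intro h; apply hdet; linear_combination h
  have := mob_inv hdet' x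
  rwa [neg_neg, neg_neg] at this

/-- The composition `B ∘ A ∘ pow` is a bicritical map in normal form. -/
theorem conj_eq {α β γ δ a b c e : L} (hA : α * δ - β * γ ≠ 0) {d : ℕ} (hd : d ≠ 0)
    (y : OnePoint L) :
    mob a b c e (mob α β γ δ (powMap L d y)) =
      bic (a * α + b * γ) (a * β + b * δ) (c * α + e * γ) (c * β + e * δ) d y := by
  obtain ⟨u, v, h, rfl⟩ := exists_toP1 y
  rw [powMap_toP1 d hd h, mob_toP1 _ _ _ _ (vec_pow h), mob_toP1 _ _ _ _ (vec_mob hA (vec_pow h)),
    bic_toP1 _ _ _ _ hd h]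
  congr 1 <;> ring

end aux

section field

variable {k : Type u} [Field k]

theorem fieldOf_infty : fieldOf k OnePoint.infty = ⊥ := rfl
theorem fieldOf_some (z : AlgebraicClosure k) :
    fieldOf k (z : OnePoint (AlgebraicClosure k)) = k⟮z⟯ := rfl

end field

section main

open Pool.Agent.Lib.P62a0c3

variable {k : Type u} [Field k] [Algebra ℂ k]

/-- From the conclusion of `finite_invariant'` to isotriviality. -/
theorem isotrivial_of_scaling {f : OnePoint (AlgebraicClosure k) → OnePoint (AlgebraicClosure k)}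
    {a b c e A B C' D' : AlgebraicClosure k} {d : ℕ} (hd : d ≠ 0)
    (hB : a * e - b * c ≠ 0)
    (hconj : ∀ x, mob a b c e (f x) = bic A B C' D' d (mob a b c e x))
    (hdet : A * D' - B * C' ≠ 0)
    {s l : AlgebraicClosure k} {α0 β0 γ0 δ0 : ℂ} (hs : s ≠ 0) (hl : l ≠ 0)
    (f1 : A * s ^ d = l * algebraMap ℂ _ α0) (f2 : B = l * algebraMap ℂ _ β0)
    (f3 : C' * s ^ (d + 1) = l * algebraMap ℂ _ γ0) (f4 : D' * s = l * algebraMap ℂ _ δ0) :
    Isotrivial k d f := by
  set φ := algebraMap ℂ (AlgebraicClosure k) with hφ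
  have hdet0 : α0 * δ0 - β0 * γ0 ≠ 0 := by
    intro h0
    have h1 : φ α0 * φ δ0 - φ β0 * φ γ0 = 0 := by
      rw [← map_mul, ← map_mul, ← map_sub, h0, map_zero]
    have h2 : (A * D' - B * C') * s ^ (d + 1) = 0 := by
      have : (A * D' - B * C') * s ^ (d + 1) = (A * s ^ d) * (D' * s) - B * (C' * s ^ (d + 1)) := by
        ring
      rw [this, f1, f3, f4, f2]
      linear_combination l ^ 2 * h1
    exact (mul_ne_zero hdet (pow_ne_zero _ hs)) h2
  -- the Möbius map `B⁻¹ ∘ (s ·)`
  refine ⟨e * s, -b, -c * s, a, ?_, C α0 * X ^ d + C β0, C γ0 * X ^ d + C δ0, ?_, ?_, ?_⟩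
  · have : e * s * a - -b * (-c * s) = s * (a * e - b * c) := by ring
    rw [this]
    exact mul_ne_zero hs hB
  · refine ⟨C (-(γ0 / (α0 * δ0 - β0 * γ0))), C (α0 / (α0 * δ0 - β0 * γ0)), ?_⟩
    have e1 : -(γ0 / (α0 * δ0 - β0 * γ0)) * α0 + α0 / (α0 * δ0 - β0 * γ0) * γ0 = 0 := by
      ring
    have e2 : -(γ0 / (α0 * δ0 - β0 * γ0)) * β0 + α0 / (α0 * δ0 - β0 * γ0) * δ0 = 1 := by
      have : -(γ0 / (α0 * δ0 - β0 * γ0)) * β0 + α0 / (α0 * δ0 - β0 * γ0) * δ0 =
          (α0 * δ0 - β0 * γ0) / (α0 * δ0 - β0 * γ0) := by ring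
      rw [this, div_self hdet0]
    calc _ = C (-(γ0 / (α0 * δ0 - β0 * γ0)) * α0 + α0 / (α0 * δ0 - β0 * γ0) * γ0) * X ^ d +
          C (-(γ0 / (α0 * δ0 - β0 * γ0)) * β0 + α0 / (α0 * δ0 - β0 * γ0) * δ0) := by
            simp only [C_add, C_mul]; ring
      _ = 1 := by rw [e1, e2, C_0, C_1]; ring
  · have n1 : ∀ x y : ℂ, x ≠ 0 → (C x * X ^ d + C y : ℂ[X]).natDegree = d := by
      intro x y hx
      rw [natDegree_add_C, natDegree_C_mul_X_pow d x hx]
    have n2 : ∀ x y : ℂ, (C x * X ^ d + C y : ℂ[X]).natDegree ≤ d := by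
      intro x y
      rw [natDegree_add_C]
      exact natDegree_C_mul_X_pow_le x d
    by_cases hα0 : α0 = 0
    · have hγ0 : γ0 ≠ 0 := by
        intro h; apply hdet0; rw [hα0, h]; ring
      rw [n1 γ0 δ0 hγ0]
      exact max_eq_right (n2 _ _)
    · rw [n1 α0 β0 hα0]
      exact max_eq_left (n2 _ _)
  · intro x
    have hmob : ∀ y, mob (e * s) (-b) (-c * s) a y = mob e (-b) (-c) a (mob s 0 0 1 y) := by
      intro y
      obtain ⟨u, v, h, rfl⟩ := exists_toP1 y
      have hs1 : s * 1 - 0 * 0 ≠ 0 := by simpa using hs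
      rw [mob_toP1 _ _ _ _ h, mob_toP1 _ _ _ _ h, mob_toP1 _ _ _ _ (vec_mob hs1 h)]
      congr 1 <;> ring
    have hinj : Function.Injective (mob a b c e) := by
      intro y z h
      rw [← mob_inv hB y, h, mob_inv hB z]
    apply hinj
    rw [hconj, hmob, hmob, mob_inv' hB, mob_inv' hB]
    obtain ⟨u, v, h, rfl⟩ := exists_toP1 x
    have hs1 : s * 1 - 0 * 0 ≠ 0 := by simpa using hs
    have hrm : ratMap ((C α0 * X ^ d + C β0 : ℂ[X]).map φ) ((C γ0 * X ^ d + C δ0 : ℂ[X]).map φ) d
        (toP1 u v) = bic (φ α0) (φ β0) (φ γ0) (φ δ0) d (toP1 u v) := by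
      generalize toP1 u v = w
      induction w using OnePoint.rec with
      | infty =>
        rw [ratMap_infty, bic_infty]
        congr 1 <;> simp [coeff_C, hd]
      | coe z =>
        rw [ratMap_some, bic_some]
        congr 1 <;> simp
    have hdetφ : φ α0 * φ δ0 - φ β0 * φ γ0 ≠ 0 := by
      rw [← map_mul, ← map_mul, ← map_sub, Ne, map_eq_zero]
      exact hdet0
    rw [hrm, mob_toP1 _ _ _ _ h, bic_toP1 _ _ _ _ hd (vec_mob hs1 h), bic_toP1 _ _ _ _ hd h,
      mob_toP1 _ _ _ _ (vec_mob hdetφ (vec_pow h))]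
    rw [← toP1_mul s _ _ hs, ← toP1_mul l (s * _ + _) _ hl]
    congr 1
    · rw [f2] at *
      linear_combination (s * u ^ d) * f1
    · linear_combination (u ^ d) * f3 + v ^ d * f4

omit [Algebra ℂ k] in
/-- Points of `ℙ¹` over the algebraic closure come from their field. -/
theorem exists_lift (x : OnePoint (AlgebraicClosure k)) :
    ∃ y : OnePoint (fieldOf k x), OnePoint.map (algebraMap (fieldOf k x) (AlgebraicClosure k)) y = x := by
  induction x using OnePoint.rec with
  | infty => exact ⟨OnePoint.infty, OnePoint.map_infty _⟩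
  | coe z =>
    refine ⟨((⟨z, mem_adjoin_simple_self k z⟩ : k⟮z⟯) : OnePoint k⟮z⟯), ?_⟩
    rfl

end main

section general

open Pool.Agent.Lib.P62a0c3 Pool.Agent.Lib.P62g

theorem map_ratMap {K₁ K₂ : Type*} [Field K₁] [Field K₂] (φ : K₁ →+* K₂) (P Q : K₁[X]) (d : ℕ)
    (x : OnePoint K₁) :
    OnePoint.map φ (ratMap P Q d x) = ratMap (P.map φ) (Q.map φ) d (OnePoint.map φ x) := by
  induction x using OnePoint.rec with
  | infty =>
    rw [ratMap_infty, OnePoint.map_infty, ratMap_infty, Pool.Agent.Lib.P62a0c3.map_toP1, coeff_map,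
      coeff_map]
  | coe z =>
    rw [ratMap_some, OnePoint.map_some, ratMap_some, Pool.Agent.Lib.P62a0c3.map_toP1, eval_map,
      eval_map, eval₂_at_apply, eval₂_at_apply]

theorem map_mob {K₁ K₂ : Type*} [Field K₁] [Field K₂] (φ : K₁ →+* K₂) (a b c e : K₁)
    (x : OnePoint K₁) :
    OnePoint.map φ (mob a b c e x) = mob (φ a) (φ b) (φ c) (φ e) (OnePoint.map φ x) := by
  rw [mob, map_ratMap, mob]
  simp

variable {k : Type u} [Field k] [Algebra ℂ k]

/-- The orbit of a point with coordinates in `L`, a field of gonality at most `n`, closes up within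
`2000 d` steps. -/
theorem orbit_closes_general {n d : ℕ} (hd : 8200 + 32 * n ^ 4 ≤ d)
    {L : IntermediateField k (AlgebraicClosure k)} {α β γ δ : L} (hdet : α * δ - β * γ ≠ 0)
    (hniso : ∀ (s l : AlgebraicClosure k) (α0 β0 γ0 δ0 : ℂ), s ≠ 0 → l ≠ 0 →
      (α : AlgebraicClosure k) * s ^ d = l * algebraMap ℂ _ α0 →
      (β : AlgebraicClosure k) = l * algebraMap ℂ _ β0 →
      (γ : AlgebraicClosure k) * s ^ (d + 1) = l * algebraMap ℂ _ γ0 →
      (δ : AlgebraicClosure k) * s = l * algebraMap ℂ _ δ0 → False)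
    (hgon : GonalityLE L n) (y : OnePoint L)
    (hfin : (Set.range fun m : ℕ => (bic α β γ δ d)^[m] y).Finite) :
    ∃ i j, i < j ∧ j < 2000 * d ∧ (bic α β γ δ d)^[i] y = (bic α β γ δ d)^[j] y := by
  classical
  obtain ⟨u, hu, hpos, hn⟩ := hgon
  set ι : L →+* AlgebraicClosure k := algebraMap L (AlgebraicClosure k) with hι
  have hιC : ∀ t : ℂ, ι (algebraMap ℂ L t) = algebraMap ℂ (AlgebraicClosure k) t := fun t => rfl
  have hιL : ∀ t : L, ι t = (t : AlgebraicClosure k) := fun t => rfl
  set g : OnePoint L → OnePoint L := bic α β γ δ d with hg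
  set P := hfin.toFinset with hP
  have hmemP : ∀ m, g^[m] y ∈ P := by
    intro m
    rw [hP, Set.Finite.mem_toFinset]
    exact ⟨m, rfl⟩
  have hinv : ∀ p ∈ P, g p ∈ P := by
    intro p hp
    rw [hP, Set.Finite.mem_toFinset] at hp
    obtain ⟨m, rfl⟩ := hp
    have := hmemP (m + 1)
    rwa [Function.iterate_succ_apply'] at this
  have hcard : P.card < 2000 * d := by
    by_contra hcon
    push Not at hcon
    obtain ⟨s, l, α0, β0, γ0, δ0, hs, hl, f1, f2, f3, f4⟩ :=
      invariant_general (F := ℂ) u hu hpos hn hd hdet P hinv hcon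
    refine hniso (ι s) (ι l) α0 β0 γ0 δ0 ?_ ?_ ?_ ?_ ?_ ?_
    · rw [Ne, map_eq_zero]; exact hs
    · rw [Ne, map_eq_zero]; exact hl
    · rw [← hιL, ← hιC, ← map_pow, ← map_mul, ← map_mul, f1]
    · rw [← hιL, ← hιC, ← map_mul, f2]
    · rw [← hιL, ← hιC, ← map_pow, ← map_mul, ← map_mul, f3]
    · rw [← hιL, ← hιC, ← map_mul, ← map_mul, f4]
  obtain ⟨i, hi, j, hj, hij, heq⟩ := Finset.exists_ne_map_eq_of_card_lt_of_maps_to
    (s := Finset.range (2000 * d)) (t := P) (by rwa [Finset.card_range])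
    (f := fun m => g^[m] y) (fun m _ => hmemP m)
  rcases lt_or_gt_of_ne hij with h | h
  · exact ⟨i, j, h, Finset.mem_range.1 hj, heq⟩
  · exact ⟨j, i, h, Finset.mem_range.1 hi, heq.symm⟩

/-- Uniform boundedness for `N = 1`, every `D`, and bicritical maps of large degree: for all
`d ≥ 8200 + 512 D ^ 4` there is `C = C(d, D)` such that for every field `k ⊇ ℂ` and every endomorphism
`f` of degree `d` of `ℙ¹` over `k` which is bicritical (equal to `A ∘ (x ↦ x ^ d) ∘ B` with Möbius
maps over the algebraic closure), either `f` is isotrivial or `Preper(f, D)` is finite with at most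
`C` elements. -/
theorem bic_uniform (D d : ℕ) (hd : 8200 + 512 * D ^ 4 ≤ d) : ∃ C : ℕ, ∀ (k : Type u) [Field k]
    [Algebra ℂ k] (P Q : k[X]), IsCoprime P Q → max P.natDegree Q.natDegree = d →
    Bicritical d (endo k P Q d) → ¬ Isotrivial k d (endo k P Q d) →
    (Preper k (endo k P Q d) D).Finite ∧ (Preper k (endo k P Q d) D).ncard ≤ C := by
  refine ⟨2000 * d * (2000 * d * ((d ^ (2000 * d) + 2) * (d + 1) ^ (2000 * d))), ?_⟩
  rintro k _ _ P Q hcop hdeg ⟨α, β, γ, δ, a, b, c, e, hA, hB, hf⟩ hniso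
  classical
  have hd0 : d ≠ 0 := by omega
  have : CharZero k := charZero_of_injective_algebraMap (algebraMap ℂ k).injective
  set f := endo k P Q d with hfdef
  -- the critical points are defined over a quadratic extension
  have hB' : e * a - (-b) * (-c) ≠ 0 := by
    intro h; apply hB; linear_combination h
  obtain ⟨E, a', b', c', e', α', β', γ', δ', hE0, hE2, hM, hA', hcon⟩ :=
    crit_field (k := k) (K := AlgebraicClosure k) (show 2 ≤ d by omega) f (by
      intro σ x
      rw [hfdef, endo]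
      have h1 := map_ratMap (σ : (AlgebraicClosure k) →+* (AlgebraicClosure k)) (P.map (algebraMap k (AlgebraicClosure k))) (Q.map (algebraMap k (AlgebraicClosure k))) d x
      rw [Polynomial.map_map, Polynomial.map_map] at h1
      have h2 : (σ : (AlgebraicClosure k) →+* (AlgebraicClosure k)).comp
          (algebraMap k (AlgebraicClosure k)) = algebraMap k (AlgebraicClosure k) :=
        RingHom.ext fun t => σ.commutes t
      rw [h2] at h1
      exact h1.symm) (by
      intro E x
      refine ⟨ratMap (P.map (algebraMap k E)) (Q.map (algebraMap k E)) d x, ?_⟩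
      rw [map_ratMap, Polynomial.map_map, Polynomial.map_map,
        ← IsScalarTower.algebraMap_eq k E (AlgebraicClosure k)]
      rfl) hB' hA (by
      intro u v h
      rw [hf]
      have h1 : toP1 (e * u + -b * v) (-c * u + a * v) = mob e (-b) (-c) a (toP1 u v) := by
        rw [mob_toP1 _ _ _ _ h]
      rw [h1, mob_inv' hB, powMap_toP1 d hd0 h, mob_toP1 _ _ _ _ (vec_pow h)])
  have hMK : (a' : (AlgebraicClosure k)) * e' - b' * c' ≠ 0 := by
    intro h
    apply hM
    apply Subtype.coe_injective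
    push_cast
    exact h
  have hAK : (α' : (AlgebraicClosure k)) * δ' - β' * γ' ≠ 0 := by
    intro h
    apply hA'
    apply Subtype.coe_injective
    push_cast
    exact h
  set m := mob (a' : (AlgebraicClosure k)) b' c' e' with hm
  set g := bic (α' : (AlgebraicClosure k)) β' γ' δ' d with hg
  have hconj : ∀ x, m (f x) = g (m x) := by
    intro x
    obtain ⟨u, v, h, rfl⟩ := exists_toP1 x
    obtain ⟨u', v', h', hx'⟩ := exists_toP1 (f (toP1 u v))
    rw [hx', hm, mob_toP1 _ _ _ _ h', mob_toP1 _ _ _ _ h, hg]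
    exact hcon u v h u' v' h' hx'
  have hminj : Function.Injective m := by
    intro y z h
    rw [← mob_inv hMK y, ← hm, h, hm, mob_inv hMK z]
  have hiter : ∀ n x, m (f^[n] x) = g^[n] (m x) := by
    intro n x
    induction n with
    | zero => rfl
    | succ n ih => rw [Function.iterate_succ_apply', Function.iterate_succ_apply', hconj, ih]
  obtain ⟨T, hT1, hT2⟩ := closing_card hAK (show 2 ≤ d by omega) (2000 * d)
  have hsub : ∀ x ∈ Preper k f D, m x ∈ T := by
    rintro x ⟨hfin, hgon⟩
    apply hT1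
    set L : IntermediateField k (AlgebraicClosure k) := fieldOf k x ⊔ E with hL
    have hgonL : GonalityLE L (2 * D) := gonality_sup (fieldOf k x) E hE0 hE2 hgon
    have hEL : E ≤ L := le_sup_right
    have hxL : fieldOf k x ≤ L := le_sup_left
    set j := IntermediateField.inclusion hEL with hj
    have hjK : ∀ t : E, ((j t : L) : (AlgebraicClosure k)) = t := fun t => rfl
    obtain ⟨y0, hy0⟩ := exists_lift x
    set y1 : OnePoint L := OnePoint.map (IntermediateField.inclusion hxL) y0 with hy1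
    have hy1x : OnePoint.map (algebraMap L (AlgebraicClosure k)) y1 = x := by
      rw [← hy0, hy1]
      induction y0 using OnePoint.rec with
      | infty => rfl
      | coe z => rfl
    set y : OnePoint L := mob (j a') (j b') (j c') (j e') y1 with hy
    have hyx : OnePoint.map (algebraMap L (AlgebraicClosure k)) y = m x := by
      rw [hy, map_mob, hy1x]
      rfl
    set gL : OnePoint L → OnePoint L := bic (j α') (j β') (j γ') (j δ') d with hgL
    have hiterL : ∀ n, OnePoint.map (algebraMap L (AlgebraicClosure k)) (gL^[n] y) = g^[n] (m x) := by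
      intro n
      induction n with
      | zero => exact hyx
      | succ n ih =>
        rw [Function.iterate_succ_apply', Function.iterate_succ_apply', ← ih, hgL, map_bic]
        rfl
    have hfinL : (Set.range fun n : ℕ => gL^[n] y).Finite := by
      have h1 : (OnePoint.map (algebraMap L (AlgebraicClosure k))) '' (Set.range fun n : ℕ => gL^[n] y) =
          m '' (Set.range fun n : ℕ => f^[n] x) := by
        rw [← Set.range_comp, ← Set.range_comp]
        congr 1
        funext n
        exact (hiterL n).trans (hiter n x).symm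
      exact (h1 ▸ hfin.image m :
        ((OnePoint.map (algebraMap L (AlgebraicClosure k))) '' (Set.range fun n : ℕ => gL^[n] y)).Finite).of_finite_image
        (Pool.Agent.Lib.P62a0c3.map_injective (algebraMap L (AlgebraicClosure k))).injOn
    have hdetL : j α' * j δ' - j β' * j γ' ≠ 0 := by
      rw [← map_mul, ← map_mul, ← map_sub, Ne, map_eq_zero]
      exact hA'
    obtain ⟨i, i', hii, hi', heq⟩ := orbit_closes_general (n := 2 * D) (d := d) (by
        have : 32 * (2 * D) ^ 4 = 512 * D ^ 4 := by ring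
        omega) hdetL (by
        intro s l α0 β0 γ0 δ0 hs hl f1 f2 f3 f4
        exact hniso (isotrivial_of_scaling hd0 hMK hconj hAK hs hl f1 f2 f3 f4)) hgonL y hfinL
    refine ⟨i, i', hii, hi', ?_⟩
    rw [← hg, ← hiterL, ← hiterL, hgL, heq]
  have hfinite : (Preper k f D).Finite := by
    refine Set.Finite.of_finite_image (f := m) ?_ hminj.injOn
    refine T.finite_toSet.subset ?_
    rintro _ ⟨x, hx, rfl⟩
    exact hsub x hx
  refine ⟨hfinite, ?_⟩
  have h1 : (Preper k f D).ncard = (m '' (Preper k f D)).ncard :=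
    (Set.ncard_image_of_injective _ hminj).symm
  rw [h1]
  have h2 : m '' (Preper k f D) ⊆ (T : Set (OnePoint (AlgebraicClosure k))) := by
    rintro _ ⟨x, hx, rfl⟩
    exact hsub x hx
  calc (m '' (Preper k f D)).ncard ≤ (T : Set (OnePoint (AlgebraicClosure k))).ncard :=
        Set.ncard_le_ncard h2 T.finite_toSet
    _ = T.card := Set.ncard_coe_finset T
    _ ≤ _ := hT2

end general

end Pool.Agent.Lib.P62c.BicD
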