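import Mathlib

/-!
# Rational maps of degree one are Möbius maps
-/

namespace Pool.Agent.Lib.P62c

open Polynomial

theorem exists_mob {L : Type*} [Field L] {P Q : L[X]} (h : IsCoprime P Q)
    (hd : max P.natDegree Q.natDegree = 1) :
    ∃ α β γ δ : L, α * δ - β * γ ≠ 0 ∧ P = C α * X + C β ∧ Q = C γ * X + C δ := by
  have hP1 : P.natDegree ≤ 1 := hd ▸ le_max_left _ _
  have hQ1 : Q.natDegree ≤ 1 := hd ▸ le_max_right _ _
  have hP := eq_X_add_C_of_natDegree_le_one hP1
  have hQ := eq_X_add_C_of_natDegree_le_one hQ1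
  refine ⟨P.coeff 1, P.coeff 0, Q.coeff 1, Q.coeff 0, fun h0 => ?_, hP, hQ⟩
  obtain ⟨u, v, huv⟩ := h
  have key : ∀ z : L, P.eval z = 0 → Q.eval z = 0 → False := by
    intro z h1 h2
    have := congrArg (Polynomial.eval z) huv
    rw [eval_add, eval_mul, eval_mul, h1, h2, mul_zero, mul_zero, add_zero, eval_one] at this
    exact zero_ne_one this
  have eP : ∀ z : L, P.eval z = P.coeff 1 * z + P.coeff 0 := by
    intro z
    conv_lhs => rw [hP]
    simp
  have eQ : ∀ z : L, Q.eval z = Q.coeff 1 * z + Q.coeff 0 := by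
    intro z
    conv_lhs => rw [hQ]
    simp
  by_cases hα : P.coeff 1 = 0
  · by_cases hγ : Q.coeff 1 = 0
    · have e1 : P.natDegree = 0 := by
        rw [hP, hα, C_0, zero_mul, zero_add, natDegree_C]
      have e2 : Q.natDegree = 0 := by
        rw [hQ, hγ, C_0, zero_mul, zero_add, natDegree_C]
      rw [e1, e2] at hd
      simp at hd
    · refine key (-(Q.coeff 0) / Q.coeff 1) ?_ ?_
      · have hb : P.coeff 0 = 0 := by
          rw [hα, zero_mul, zero_sub, neg_eq_zero, mul_eq_zero] at h0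
          exact h0.resolve_right hγ
        rw [eP, hα, hb, zero_mul, zero_add]
      · rw [eQ, mul_div_cancel₀ _ hγ, neg_add_cancel]
  · refine key (-(P.coeff 0) / P.coeff 1) ?_ ?_
    · rw [eP, mul_div_cancel₀ _ hα, neg_add_cancel]
    · rw [eQ]
      field_simp
      linear_combination h0

end Pool.Agent.Lib.P62c
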