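import Pool.Agent.Lib.P62c.GT
import Pool.Agent.Lib.P62h.GCon

/-!
# Module P62c.ConT: maps `U(T_m(x)) / V(T_m(x))` with many constant values

The same proof as `P62h.gconst`: `T_m` takes each value at most `m` times, and `grat` is applied
to the set of values `T_m(c)`.
-/

namespace Pool.Agent.Lib.P62c

open Polynomial Pool.Agent.Lib.P62a0c3 Pool.Agent.Lib.P62h

theorem conT_dickson (F : Type*) [Field F] (n : ℕ) :
    (dickson 1 (1 : F) (n + 1)).Monic ∧ (dickson 1 (1 : F) (n + 1)).natDegree = n + 1 := by
  induction n using Nat.strong_induction_on with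
  | _ n ih =>
    rcases n with _ | _ | n
    · rw [zero_add, dickson_one]
      exact ⟨monic_X, natDegree_X⟩
    · have h : dickson 1 (1 : F) (0 + 1 + 1) = X ^ 2 - C (2 : F) := by
        rw [show (0 + 1 + 1 : ℕ) = 2 from rfl, dickson_two]
        have : (C (2 : F)) = (2 : F[X]) := map_ofNat C 2
        rw [this]
        norm_num
      rw [h]
      exact ⟨monic_X_pow_sub_C _ (by norm_num), natDegree_X_pow_sub_C⟩
    · have h0 : dickson 1 (1 : F) (n + 1 + 1 + 1) =
          X * dickson 1 (1 : F) (n + 1 + 1) - dickson 1 (1 : F) (n + 1) := by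
        have := dickson_add_two 1 (1 : F) (n + 1)
        rw [C_1, one_mul] at this
        exact this
      obtain ⟨h1, h2⟩ := ih (n + 1) (by omega)
      obtain ⟨h3, h4⟩ := ih n (by omega)
      have hm : (X * dickson 1 (1 : F) (n + 1 + 1)).Monic := monic_X.mul h1
      have hd : (X * dickson 1 (1 : F) (n + 1 + 1)).natDegree = n + 1 + 1 + 1 := by
        rw [monic_X.natDegree_mul h1, natDegree_X, h2]; omega
      have hlt : (dickson 1 (1 : F) (n + 1)).natDegree <
          (X * dickson 1 (1 : F) (n + 1 + 1)).natDegree := by rw [hd, h4]; omega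
      rw [h0]
      refine ⟨hm.sub_of_left ?_, ?_⟩
      · exact degree_lt_degree hlt
      · rw [natDegree_sub_eq_left_of_natDegree_lt hlt, hd]

open Classical in
theorem conT_card {F : Type*} [Field F] {m : ℕ} (hm : 1 ≤ m) (S : Finset F) (a : F) :
    (S.filter fun c => (dickson 1 (1 : F) m).eval c = a).card ≤ m := by
  obtain ⟨n, rfl⟩ : ∃ n, m = n + 1 := ⟨m - 1, by omega⟩
  obtain ⟨h1, h2⟩ := conT_dickson F n
  have hd : (dickson 1 (1 : F) (n + 1) - C a).natDegree = n + 1 := by rw [natDegree_sub_C, h2]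
  have hne : dickson 1 (1 : F) (n + 1) - C a ≠ 0 := by
    intro h0
    rw [h0, natDegree_zero] at hd
    omega
  have hsub : (S.filter fun c => (dickson 1 (1 : F) (n + 1)).eval c = a) ⊆
      (dickson 1 (1 : F) (n + 1) - C a).roots.toFinset := by
    intro z hz
    rw [Finset.mem_filter] at hz
    rw [Multiset.mem_toFinset, mem_roots hne, IsRoot.def, eval_sub, eval_C, hz.2, sub_self]
  calc _ ≤ (dickson 1 (1 : F) (n + 1) - C a).roots.toFinset.card := Finset.card_le_card hsub
    _ ≤ Multiset.card (dickson 1 (1 : F) (n + 1) - C a).roots := Multiset.toFinset_card_le _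
    _ ≤ (dickson 1 (1 : F) (n + 1) - C a).natDegree := card_roots' _
    _ = n + 1 := hd

theorem tconst {F K : Type*} [Field F] [CharZero F] [Field K] [Algebra F K] {e m : ℕ}
    (he : 1 ≤ e) (hm : 1 ≤ m) {U V : K[X]} (hcop : IsCoprime U V)
    (hdeg : max U.natDegree V.natDegree = e)
    (P : Finset (OnePoint K)) (hP : ∀ p ∈ P, gT U V e m p ∈ P)
    (hconst : ∀ z : K, (z : OnePoint K) ∈ P → ∃ c : F, z = algebraMap F K c)
    (hcard : m * (2 * e + 1) + 2 ≤ P.card) :
    ∃ (l : K) (U0 V0 : F[X]), l ≠ 0 ∧ U = C l * U0.map (algebraMap F K) ∧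
      V = C l * V0.map (algebraMap F K) := by
  classical
  set φ := algebraMap F K with hφ
  have hinj : Function.Injective φ := FaithfulSMul.algebraMap_injective _ _
  have hinj2 : Function.Injective (fun c : F => ((φ c : K) : OnePoint K)) :=
    OnePoint.coe_injective.comp hinj
  set C0 : Finset F := (P.preimage (fun c : F => ((φ c : K) : OnePoint K)) hinj2.injOn) with hC0
  have hC0mem : ∀ c, c ∈ C0 ↔ ((φ c : K) : OnePoint K) ∈ P := by
    intro c; rw [hC0, Finset.mem_preimage]
  have hC0card : P.card ≤ C0.card + 1 := by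
    have h1 : P ⊆ (C0.image fun c : F => ((φ c : K) : OnePoint K)) ∪ {OnePoint.infty} := by
      intro p hp
      rw [Finset.mem_union]
      induction p using OnePoint.rec with
      | infty => right; simp
      | coe z =>
        left
        obtain ⟨c, hc⟩ := hconst z hp
        exact Finset.mem_image.2 ⟨c, (hC0mem c).2 (by rw [← hc]; exact hp), by rw [hc]⟩
    refine (Finset.card_le_card h1).trans ((Finset.card_union_le _ _).trans ?_)
    exact Nat.add_le_add Finset.card_image_le (by simp)
  set A := C0.image fun c : F => (dickson 1 (1 : F) m).eval c with hA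
  have hAcard : C0.card ≤ m * A.card := by
    apply Finset.card_le_mul_card_image
    intro a _
    exact conT_card hm C0 a
  have hbig : 2 * e + 1 ≤ A.card := by
    by_contra hcon
    have h1 : A.card ≤ 2 * e + 1 := by omega
    have h2 : m * A.card ≤ m * (2 * e + 1) := Nat.mul_le_mul_left m h1
    omega
  apply grat hcop hdeg A hbig
  intro a ha
  obtain ⟨c, hc, rfl⟩ := Finset.mem_image.1 ha
  have h1 := hP _ ((hC0mem c).1 hc)
  have hval : (dickson 1 (1 : K) m).eval (φ c) = φ ((dickson 1 (1 : F) m).eval c) := by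
    have h2 : dickson 1 (1 : K) m = (dickson 1 (1 : F) m).map φ := by
      rw [map_dickson, map_one]
    rw [h2, eval_map, eval₂_at_apply]
  rw [gT_some, hval] at h1
  by_cases hne : V.eval (φ ((dickson 1 (1 : F) m).eval c)) = 0
  · refine ⟨1, 0, Or.inl one_ne_zero, ?_⟩
    rw [hne, map_zero, mul_zero, zero_mul]
  · unfold toP1 at h1
    rw [if_neg hne] at h1
    obtain ⟨v, hv⟩ := hconst _ h1
    refine ⟨v, 1, Or.inr one_ne_zero, ?_⟩
    rw [map_one, mul_one, ← hv]
    exact (mul_div_cancel₀ _ hne).symm

end Pool.Agent.Lib.P62c
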