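import Pool.Agent.Lib.P62g.SubFin
import Pool.Agent.Lib.P62g.GonSup

/-!
# Adjoining square roots: degrees and generators
-/

namespace Pool.Agent.Lib.P62c

open IntermediateField

theorem fr_adjoin {L K : Type*} [Field L] [Field K] [Algebra L K] (T : Finset K)
    (h : ∀ x ∈ T, ∃ b : L, x ^ 2 - algebraMap L K b * x + 1 = 0) :
    FiniteDimensional L (IntermediateField.adjoin L (T : Set K)) ∧
      Module.finrank L (IntermediateField.adjoin L (T : Set K)) ≤ 2 ^ T.card := by
  classical
  induction T using Finset.induction_on with
  | empty =>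
    rw [Finset.coe_empty, IntermediateField.adjoin_empty]
    refine ⟨inferInstance, ?_⟩
    rw [IntermediateField.finrank_bot]
    simp
  | insert x T hx ih =>
    obtain ⟨h1, h2⟩ := ih (fun y hy => h y (Finset.mem_insert_of_mem hy))
    obtain ⟨b, hb⟩ := h x (Finset.mem_insert_self _ _)
    set p : Polynomial L := Polynomial.X ^ 2 - Polynomial.C b * Polynomial.X + 1 with hp
    have hpx : Polynomial.aeval x p = 0 := by
      rw [hp]
      simp only [map_add, map_sub, map_mul, map_pow, Polynomial.aeval_X, Polynomial.aeval_C,
        map_one]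
      exact hb
    have hpm : p.Monic := by
      rw [hp]
      monicity!
    have hpd : p.natDegree ≤ 2 := by
      rw [hp]
      compute_degree
    have hint : IsIntegral L x := ⟨p, hpm, by rw [← Polynomial.aeval_def]; exact hpx⟩
    have hfx : Module.finrank L L⟮x⟯ ≤ 2 := by
      rw [IntermediateField.adjoin.finrank hint]
      exact (Polynomial.natDegree_le_of_dvd (minpoly.dvd L x hpx) hpm.ne_zero).trans hpd
    have hfdx : FiniteDimensional L L⟮x⟯ := IntermediateField.adjoin.finiteDimensional hint
    have hu : IntermediateField.adjoin L ((insert x T : Finset K) : Set K) =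
        L⟮x⟯ ⊔ IntermediateField.adjoin L (T : Set K) := by
      rw [Finset.coe_insert, Set.insert_eq, IntermediateField.adjoin_union]
    rw [hu]
    refine ⟨inferInstance, ?_⟩
    refine (IntermediateField.finrank_sup_le _ _).trans ?_
    rw [Finset.card_insert_of_notMem hx, pow_succ, mul_comm]
    exact Nat.mul_le_mul h2 hfx

/-- Generators of an extension of `L = F(S)`. -/
theorem gen_adjoin {F L K : Type*} [Field F] [Field L] [Field K] [Algebra F L] [Algebra L K]
    [Algebra F K] [IsScalarTower F L K] (S : Set L) (hS : IntermediateField.adjoin F S = ⊤)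
    (T : Set K) (Z : Set (IntermediateField.adjoin L T))
    (hZS : ∀ x ∈ S, algebraMap L (IntermediateField.adjoin L T) x ∈ Z)
    (hZT : ∀ x : IntermediateField.adjoin L T, (x : K) ∈ T → x ∈ Z) :
    IntermediateField.adjoin F Z = ⊤ := by
  let M := IntermediateField.adjoin L T
  set A : IntermediateField F M := IntermediateField.adjoin F Z with hA
  have hLA : ∀ x : L, algebraMap L M x ∈ A := by
    intro x
    have h1 : x ∈ IntermediateField.adjoin F S := by rw [hS]; exact IntermediateField.mem_top
    have h2 : (IntermediateField.adjoin F S).map (IsScalarTower.toAlgHom F L M) ≤ A := by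
      rw [IntermediateField.adjoin_map, IntermediateField.adjoin_le_iff]
      rintro _ ⟨y, hy, rfl⟩
      exact IntermediateField.subset_adjoin F Z (hZS y hy)
    exact h2 ⟨x, h1, rfl⟩
  let A' : IntermediateField L M := A.toSubfield.toIntermediateField hLA
  have hA' : ∀ x : M, x ∈ A' → x ∈ A := fun x hx => hx
  have h3 : IntermediateField.adjoin L {x : M | (x : K) ∈ T} ≤ A' := by
    rw [IntermediateField.adjoin_le_iff]
    intro x hx
    exact IntermediateField.subset_adjoin F Z (hZT x hx)
  rw [P62g.adjoin_lift, top_le_iff] at h3
  ext x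
  simp only [IntermediateField.mem_top, iff_true]
  apply hA'
  rw [h3]
  exact IntermediateField.mem_top

end Pool.Agent.Lib.P62c
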