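import Pool.Agent.Lib.P62c.HtA

/-!
# Number of poles in a finite extension of function fields
-/

namespace Pool.Agent.Lib.P62c

open Polynomial IsDedekindDomain WithZero Pool.Agent.Lib.P62g

/-- The number of finite poles of `x`, with multiplicity. -/
noncomputable def pol (F : Type*) {L : Type*} [Field F] [CharZero F] [Field L] [Algebra F[X] L]
    [Algebra (RatFunc F) L] [IsScalarTower F[X] (RatFunc F) L] [FiniteDimensional (RatFunc F) L]
    (x : L) : ℤ :=
  ∑ᶠ p : HeightOneSpectrum (integralClosure F[X] L), max 0 (log (p.valuation L x))

theorem pol_ext {F L M : Type*} [Field F] [IsAlgClosed F] [CharZero F] [Field L] [Field M]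
    [Algebra L M] [Algebra F[X] L] [Algebra (RatFunc F) L] [IsScalarTower F[X] (RatFunc F) L]
    [FiniteDimensional (RatFunc F) L] [Algebra F[X] M] [Algebra (RatFunc F) M]
    [IsScalarTower F[X] (RatFunc F) M] [FiniteDimensional (RatFunc F) M]
    [IsScalarTower F[X] L M] (x : L) :
    pol F (algebraMap L M x) = (Module.finrank L M : ℤ) * pol F x := by
  rcases eq_or_ne x 0 with rfl | hx
  · simp [pol]
  have hxM : algebraMap L M x ≠ 0 := (map_ne_zero_iff _ (algebraMap L M).injective).2 hx
  let f : integralClosure F[X] L →+* integralClosure F[X] M :=
    ((algebraMap L M).comp (algebraMap (integralClosure F[X] L) L)).codRestrict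
      (integralClosure F[X] M).toSubring (fun a => by
        have h := a.2
        rw [mem_integralClosure_iff] at h
        exact h.map (IsScalarTower.toAlgHom F[X] L M))
  let : Algebra (integralClosure F[X] L) (integralClosure F[X] M) := f.toAlgebra
  have hfm : ∀ a : integralClosure F[X] L,
      ((algebraMap (integralClosure F[X] L) (integralClosure F[X] M) a :
        integralClosure F[X] M) : M) = algebraMap L M (a : L) := fun a => rfl
  have : IsScalarTower (integralClosure F[X] L) (integralClosure F[X] M) M :=
    IsScalarTower.of_algebraMap_eq fun a => by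
      rw [IsScalarTower.algebraMap_apply (integralClosure F[X] L) L M]
      rfl
  have : IsScalarTower F[X] (integralClosure F[X] L) (integralClosure F[X] M) :=
    IsScalarTower.of_algebraMap_eq fun a => Subtype.ext (by
      rw [hfm]
      exact IsScalarTower.algebraMap_apply F[X] L M a)
  have hfinB : Module.Finite F[X] (integralClosure F[X] M) :=
    IsIntegralClosure.finite F[X] (RatFunc F) M (integralClosure F[X] M)
  have hfinA : Module.Finite F[X] (integralClosure F[X] L) :=
    IsIntegralClosure.finite F[X] (RatFunc F) L (integralClosure F[X] L)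
  have : Module.Finite (integralClosure F[X] L) (integralClosure F[X] M) :=
    Module.Finite.of_restrictScalars_finite F[X] _ _
  have : FaithfulSMul (integralClosure F[X] L) (integralClosure F[X] M) := by
    rw [faithfulSMul_iff_algebraMap_injective]
    intro a b hab
    have h1 := congrArg (fun z : integralClosure F[X] M => (z : M)) hab
    simp only [hfm] at h1
    exact Subtype.ext ((algebraMap L M).injective h1)
  have : Module.IsTorsionFree (integralClosure F[X] L) (integralClosure F[X] M) := inferInstance
  refine HtAux.pol_ext_aux ?_ x hx (val_finite x hx) (val_finite _ hxM)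
  intro p q _ _ _
  rw [Ideal.inertiaDeg'_eq_inertiaDeg p q]
  have hp1 : (q.under F[X]).IsMaximal := Ideal.IsMaximal.under F[X] q
  have hl : q.LiesOver (q.under F[X]) := Ideal.over_under q
  have h1 := ProdAux.inertia_one q (q.under F[X])
  rw [Ideal.inertiaDeg_tower (R := F[X]) (q := p) (r := q)] at h1
  exact Nat.eq_one_of_mul_eq_one_left h1

end Pool.Agent.Lib.P62c
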