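import Pool.Agent.Lib.P62c.InfC
import Pool.Agent.Lib.P62c.HtB

/-!
# Compatible geometries on a finite family of extensions
-/

namespace Pool.Agent.Lib.P62c

open Polynomial IntermediateField Pool.Agent.Lib.P62a0c3 Pool.Agent.Lib.P62g

universe u w

theorem geo_family {F : Type w} {L : Type u} [Field F] [IsAlgClosed F] [CharZero F] [Field L]
    [Algebra F L] (u : L) (hu : Transcendental F u) (hpos : 0 < Module.finrank F⟮u⟯ L)
    (Z0 : Set L) (hgen0 : IntermediateField.adjoin F (insert u Z0) = ⊤)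
    {ι : Type*} [Finite ι] (M : ι → Type u) [∀ i, Field (M i)] [∀ i, Algebra F (M i)]
    [∀ i, Algebra L (M i)] [∀ i, IsScalarTower F L (M i)] (n : ι → ℕ)
    (hposM : ∀ i, 0 < Module.finrank F⟮algebraMap L (M i) u⟯ (M i))
    (hn : ∀ i, Module.finrank F⟮algebraMap L (M i) u⟯ (M i) ≤ n i)
    (Z W : ∀ i, Finset (M i)) (h0 : ∀ i, (0 : M i) ∉ Z i)
    (hgen : ∀ i, IntermediateField.adjoin F
      (insert (algebraMap L (M i) u) (Z i : Set (M i))) = ⊤) :
    ∃ h : L → ℤ, ∀ i, ∃ G : Geo F (M i), (∀ w ∈ W i, w ∈ G.Inf) ∧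
      (∀ x : L, G.h (algebraMap L (M i) x) = (Module.finrank L (M i) : ℤ) * h x) ∧
      ∀ R : ℤ, 0 ≤ R → (∀ z ∈ Z i, G.h z ≤ R) → (G.κ : ℤ) ≤ ((2 * n i ^ 4 : ℕ) : ℤ) * R := by
  classical
  have := Fintype.ofFinite ι
  obtain ⟨T, c, hTZ, hTn, hprim⟩ :=
    exists_primitive_combination (F := F) u hpos le_rfl Z0 hgen0
  obtain ⟨S0, hS0⟩ := infty_c u hu hpos _ hprim ∅
  have huM : ∀ i, Transcendental F (algebraMap L (M i) u) := fun i =>
    (transcendental_algebraMap_iff (algebraMap L (M i)).injective).2 hu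
  have hall := fun i => geo_c (algebraMap L (M i) u) (huM i) (hposM i) (hn i) (Z i) (h0 i)
    (hgen i) (W i)
  choose S hS using hall
  obtain ⟨c', hc'⟩ := Infinite.exists_notMem_finset (S0 ∪ Finset.univ.biUnion S)
  have hc0 : c' ∉ S0 := fun h => hc' (Finset.mem_union_left _ h)
  have hci : ∀ i, c' ∉ S i := fun i h =>
    hc' (Finset.mem_union_right _ (Finset.mem_biUnion.2 ⟨i, Finset.mem_univ i, h⟩))
  obtain ⟨φ, hC, hX, hr⟩ := exists_phi u hu c'
  let alg : Algebra (RatFunc F) L := φ.toAlgebra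
  let algX : Algebra F[X] L :=
    ((algebraMap (RatFunc F) L).comp (algebraMap F[X] (RatFunc F))).toAlgebra
  have hst : IsScalarTower F[X] (RatFunc F) L := IsScalarTower.of_algebraMap_eq fun _ => rfl
  obtain ⟨hfd, -, -⟩ := (hS0 c' hc0 φ hC hX hr).2.2 alg rfl
  refine ⟨pol F, fun i => ?_⟩
  let φi : RatFunc F →+* M i := (algebraMap L (M i)).comp φ
  let algi : Algebra (RatFunc F) (M i) := φi.toAlgebra
  let algXi : Algebra F[X] (M i) :=
    ((algebraMap (RatFunc F) (M i)).comp (algebraMap F[X] (RatFunc F))).toAlgebra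
  have hsti : IsScalarTower F[X] (RatFunc F) (M i) :=
    IsScalarTower.of_algebraMap_eq fun _ => rfl
  have hstL : IsScalarTower F[X] L (M i) := IsScalarTower.of_algebraMap_eq fun _ => rfl
  have hCi : ∀ a : F, φi (RatFunc.C a) = algebraMap F (M i) a := by
    intro a
    change algebraMap L (M i) (φ (RatFunc.C a)) = _
    rw [hC, ← IsScalarTower.algebraMap_apply]
  have hXi : φi RatFunc.X = (algebraMap L (M i) u - algebraMap F (M i) c')⁻¹ := by
    change algebraMap L (M i) (φ RatFunc.X) = _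
    rw [hX, map_inv₀, map_sub, ← IsScalarTower.algebraMap_apply]
  have hri : φi.fieldRange = F⟮algebraMap L (M i) u⟯.toSubfield := by
    have h1 : F⟮algebraMap L (M i) u⟯ = F⟮u⟯.map (IsScalarTower.toAlgHom F L (M i)) := by
      rw [IntermediateField.adjoin_map]
      congr 1
      simp
    rw [h1]
    ext x
    rw [RingHom.mem_fieldRange]
    constructor
    · rintro ⟨y, rfl⟩
      refine ⟨φ y, ?_, rfl⟩
      have : φ y ∈ φ.fieldRange := ⟨y, rfl⟩
      rw [hr] at this
      exact this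
    · rintro ⟨z, hz, rfl⟩
      have hz' : z ∈ φ.fieldRange := by rw [hr]; exact hz
      obtain ⟨y, hy⟩ := hz'
      exact ⟨y, congrArg (algebraMap L (M i)) hy⟩
  obtain ⟨hfdi, G, hG1, hG2, hG3⟩ := hS i c' (hci i) φi hCi hXi hri algi algXi hsti rfl
  refine ⟨G, hG1, fun x => ?_, hG3⟩
  rw [hG2, pol_ext]

end Pool.Agent.Lib.P62c
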