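import Pool.Agent.Lib.P62h.Sel

/-!
# Module P62c.SelT: selection of points, twisted version

`s z` is a root of `X + 1/X = z`; the quantities `(s z)^(±1) / r` of the selected points satisfy no
short multiplicative relation.
-/

namespace Pool.Agent.Lib.P62c

open Pool.Agent.Lib.P62h

namespace SelTAux

variable {K : Type*} [Field K]

/-- `s z` or its inverse -/
def sg (s : K → K) (e : Bool) (z : K) : K := if e then s z else (s z)⁻¹

theorem sg_ne (s : K → K) (hs0 : ∀ z, s z ≠ 0) (e : Bool) (z : K) : sg s e z ≠ 0 := by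
  unfold sg
  split_ifs
  · exact hs0 z
  · exact inv_ne_zero (hs0 z)

theorem s_inj (s : K → K) (hs : ∀ z, s z + (s z)⁻¹ = z) : Function.Injective s := by
  intro z z' h
  rw [← hs z, ← hs z', h]

theorem f_inj (s : K → K) (hs : ∀ z, s z + (s z)⁻¹ = z) (r : K) (hr : r ≠ 0) (e : Bool) :
    Function.Injective fun z => sg s e z / r := by
  intro z z' h
  simp only at h
  have h1 : sg s e z = sg s e z' := (div_left_inj' hr).1 h
  apply s_inj s hs
  unfold sg at h1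
  split_ifs at h1
  · exact h1
  · exact inv_injective h1

open Classical in
theorem count_pow {m : ℕ} (hm : 1 ≤ m) (s : K → K) (hs : ∀ z, s z + (s z)⁻¹ = z) (r : K)
    (hr : r ≠ 0) (Q : Finset K) (c : K) :
    (Q.filter fun z => (s z / r) ^ m = c).card ≤ m := by
  have h1 : (Q.filter fun z => (s z / r) ^ m = c).card ≤
      (Polynomial.nthRoots m c).toFinset.card := by
    apply Finset.card_le_card_of_injOn (fun z => s z / r)
    · intro z hz
      have hz' := (Finset.mem_filter.1 (Finset.mem_coe.1 hz)).2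
      rw [Finset.mem_coe, Multiset.mem_toFinset, Polynomial.mem_nthRoots (by omega)]
      exact hz'
    · intro z _ z' _ h
      exact f_inj s hs r hr true (by simpa [sg] using h)
  exact h1.trans ((Multiset.toFinset_card_le _).trans (Polynomial.card_nthRoots _ _))

/-- the relation: a short multiplicative relation for some choice of the signs -/
def Rel (m N : ℕ) (s : K → K) (r : K) (z z' : K) : Prop :=
  ∃ e e' : Bool, (∀ a : ℤ, a ≠ 0 → (sg s e z / r) ^ ((m : ℤ) * a) ≠ 1) ∧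
    ∃ a b : ℤ, (a ≠ 0 ∨ b ≠ 0) ∧ |a| < N ∧ |b| < N ∧
      (sg s e z / r) ^ ((m : ℤ) * a) * (sg s e' z' / r) ^ ((m : ℤ) * b) = 1

open Classical in
theorem count_one {m N : ℕ} (hm : 1 ≤ m) (s : K → K) (hs0 : ∀ z, s z ≠ 0)
    (hs : ∀ z, s z + (s z)⁻¹ = z) (r : K) (hr : r ≠ 0) (Q : Finset K) (y : K) (hy : y ≠ 0)
    (e' : Bool) :
    (Q.filter fun z' => (∀ a : ℤ, a ≠ 0 → y ^ ((m : ℤ) * a) ≠ 1) ∧
      ∃ a b : ℤ, (a ≠ 0 ∨ b ≠ 0) ∧ |a| < N ∧ |b| < N ∧
        y ^ ((m : ℤ) * a) * (sg s e' z' / r) ^ ((m : ℤ) * b) = 1).card ≤ 4 * N ^ 3 * m := by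
  by_cases hnc : ∀ a : ℤ, a ≠ 0 → y ^ ((m : ℤ) * a) ≠ 1
  · have h0 : (0 : K) ∉ Q.image fun z => sg s e' z / r := by
      intro h
      obtain ⟨z, _, hz⟩ := Finset.mem_image.1 h
      exact (div_ne_zero (sg_ne s hs0 e' z) hr) hz
    refine le_trans ?_ (rel_count (N := N) hm y hy hnc (Q.image fun z => sg s e' z / r) h0)
    apply Finset.card_le_card_of_injOn (fun z => sg s e' z / r)
    · intro z hz
      obtain ⟨h1, _, h2⟩ := Finset.mem_filter.1 (Finset.mem_coe.1 hz)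
      rw [Finset.mem_coe, Finset.mem_filter]
      exact ⟨Finset.mem_image_of_mem _ h1, h2⟩
    · intro z _ z' _ h
      exact f_inj s hs r hr e' h
  · have h : (Q.filter fun z' => (∀ a : ℤ, a ≠ 0 → y ^ ((m : ℤ) * a) ≠ 1) ∧
      ∃ a b : ℤ, (a ≠ 0 ∨ b ≠ 0) ∧ |a| < N ∧ |b| < N ∧
        y ^ ((m : ℤ) * a) * (sg s e' z' / r) ^ ((m : ℤ) * b) = 1) = ∅ := by
      rw [Finset.filter_eq_empty_iff]
      rintro z _ ⟨h1, _⟩
      exact hnc h1
    rw [h]
    exact Nat.zero_le _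

open Classical in
theorem count_rel {m N : ℕ} (hm : 1 ≤ m) (s : K → K) (hs0 : ∀ z, s z ≠ 0)
    (hs : ∀ z, s z + (s z)⁻¹ = z) (r : K) (hr : r ≠ 0) (Q : Finset K) (z : K) :
    (Q.filter fun z' => Rel m N s r z z').card ≤ 16 * N ^ 3 * m := by
  have hsub : (Q.filter fun z' => Rel m N s r z z') ⊆
      (Finset.univ : Finset (Bool × Bool)).biUnion fun p => Q.filter fun z' =>
        (∀ a : ℤ, a ≠ 0 → (sg s p.1 z / r) ^ ((m : ℤ) * a) ≠ 1) ∧
          ∃ a b : ℤ, (a ≠ 0 ∨ b ≠ 0) ∧ |a| < N ∧ |b| < N ∧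
            (sg s p.1 z / r) ^ ((m : ℤ) * a) * (sg s p.2 z' / r) ^ ((m : ℤ) * b) = 1 := by
    intro z' hz'
    obtain ⟨h1, e, e', h2⟩ := Finset.mem_filter.1 hz'
    rw [Finset.mem_biUnion]
    exact ⟨(e, e'), Finset.mem_univ _, Finset.mem_filter.2 ⟨h1, h2⟩⟩
  calc _ ≤ _ := Finset.card_le_card hsub
    _ ≤ (Finset.univ : Finset (Bool × Bool)).card * (4 * N ^ 3 * m) :=
        Finset.card_biUnion_le_card_mul _ _ _ fun p _ =>
          count_one hm s hs0 hs r hr Q _ (div_ne_zero (sg_ne s hs0 p.1 z) hr) p.2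
    _ = 16 * N ^ 3 * m := by
        have : (Finset.univ : Finset (Bool × Bool)).card = 4 := by simp
        rw [this]
        ring

end SelTAux

open SelTAux

open Classical in
theorem selT {K : Type*} [Field K] {m N K0 N' : ℕ} (hm : 1 ≤ m) (s : K → K) (hs0 : ∀ z, s z ≠ 0)
    (hs : ∀ z, s z + (s z)⁻¹ = z) (r : K) (hr : r ≠ 0) (Q Bad : Finset K)
    (hcard : K0 * (16 * N ^ 3 * m + 1) + N' * (m + 1) + m + Bad.card ≤ Q.card) :
    ∃ (q : Fin K0 → K) (q' : Fin N' → K), (∀ i, q i ∈ Q ∧ q i ∉ Bad) ∧ (∀ i, q' i ∈ Q) ∧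
      (∀ i, (s (q' i) / r) ^ m ≠ 1) ∧
      (∀ i j, i ≠ j → (s (q' i) / r) ^ m ≠ (s (q' j) / r) ^ m) ∧
      ∀ i j, i < j → ∀ x y : K, (x = s (q i) ∨ x = (s (q i))⁻¹) →
        (y = s (q j) ∨ y = (s (q j))⁻¹) → (∀ a : ℤ, a ≠ 0 → (x / r) ^ ((m : ℤ) * a) ≠ 1) →
        ¬ ∃ a b : ℤ, (a ≠ 0 ∨ b ≠ 0) ∧ |a| < N ∧ |b| < N ∧
          (x / r) ^ ((m : ℤ) * a) * (y / r) ^ ((m : ℤ) * b) = 1 := by
  have h1 : Q.card - Bad.card ≤ (Q \ Bad).card := Finset.le_card_sdiff _ _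
  obtain ⟨q, -, hq, hqr⟩ := select (Rel m N s r) (16 * N ^ 3 * m) K0 (Q \ Bad)
    (fun z _ => count_rel hm s hs0 hs r hr (Q \ Bad) z) (by omega)
  have h2 : (Q.filter fun z => (s z / r) ^ m = 1).card ≤ m := count_pow hm s hs r hr Q 1
  have h3 : (Q.filter fun z => (s z / r) ^ m = 1).card +
      (Q.filter fun z => ¬ (s z / r) ^ m = 1).card = Q.card :=
    Finset.card_filter_add_card_filter_not _
  obtain ⟨q', -, hq', hqr'⟩ := select (fun z z' => (s z / r) ^ m = (s z' / r) ^ m) m N'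
    (Q.filter fun z => ¬ (s z / r) ^ m = 1)
    (fun z _ => by
      refine le_trans (Finset.card_le_card ?_) (count_pow hm s hs r hr
        (Q.filter fun z => ¬ (s z / r) ^ m = 1) ((s z / r) ^ m))
      intro z' hz'
      obtain ⟨h4, h5⟩ := Finset.mem_filter.1 hz'
      exact Finset.mem_filter.2 ⟨h4, h5.symm⟩)
    (by omega)
  refine ⟨q, q', fun i => ?_, fun i => ?_, fun i => ?_, fun i j hij => ?_, ?_⟩
  · exact Finset.mem_sdiff.1 (hq i)
  · exact Finset.mem_of_mem_filter _ (hq' i)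
  · exact (Finset.mem_filter.1 (hq' i)).2
  · rcases lt_or_gt_of_ne hij with h | h
    · exact hqr' i j h
    · exact fun he => hqr' j i h he.symm
  · intro i j hij x y hx hy hnc hrel
    apply hqr i j hij
    have hx' : ∃ e : Bool, x = sg s e (q i) := by
      rcases hx with h | h
      · exact ⟨true, by simp [sg, h]⟩
      · exact ⟨false, by simp [sg, h]⟩
    have hy' : ∃ e : Bool, y = sg s e (q j) := by
      rcases hy with h | h
      · exact ⟨true, by simp [sg, h]⟩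
      · exact ⟨false, by simp [sg, h]⟩
    obtain ⟨e, rfl⟩ := hx'
    obtain ⟨e', rfl⟩ := hy'
    exact ⟨e, e', hnc, hrel⟩

end Pool.Agent.Lib.P62c
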