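import Pool.Agent.Lib.P62c.DynT
import Pool.Agent.Lib.P62c.ConT
import Pool.Agent.Lib.P62c.SelT
import Pool.Agent.Lib.P62c.Fam
import Pool.Agent.Lib.P62c.ExtT

/-!
# Finite invariant sets of `x ↦ U(T_m(x)) / V(T_m(x))`, core case
-/

namespace Pool.Agent.Lib.P62c

open Polynomial IntermediateField Pool.Agent.Lib.P62a0c3 Pool.Agent.Lib.P62g Pool.Agent.Lib.P62h

universe u w

/-- Bound for `m`. -/
def mT (e n : ℕ) : ℕ :=
  2 * (217 * (2 * e) ^ 2) ^ 5 * (2 * (n * 2 ^ (288 * (2 * e) ^ 4 + 4 * e + 1)) ^ 4 + 4)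

/-- Bound for the number of points. -/
def cT (e m : ℕ) : ℕ :=
  288 * (2 * e) ^ 4 * (16 * (217 * (2 * e) ^ 2) ^ 3 * m + 1) + 4 * e * (m + 1) + m + 2 * e * m + 10

theorem exists_s {K : Type*} [Field K] [IsAlgClosed K] (z : K) : ∃ s : K, s ≠ 0 ∧ s + s⁻¹ = z := by
  have hd : (X ^ 2 - C z * X + 1 : K[X]).degree ≠ 0 := by
    have : (X ^ 2 - C z * X + 1 : K[X]).degree = 2 := by compute_degree!
    rw [this]
    exact two_ne_zero
  obtain ⟨s, hs⟩ := IsAlgClosed.exists_root _ hd
  rw [IsRoot.def, eval_add, eval_sub, eval_mul, eval_pow, eval_X, eval_C, eval_one] at hs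
  have hs0 : s ≠ 0 := by
    rintro rfl
    simp at hs
  refine ⟨s, hs0, ?_⟩
  field_simp
  linear_combination hs

theorem quad_of_sum {K : Type*} [Field K] {a t : K} (ht : t ≠ 0) (h : t + t⁻¹ = a) :
    t ^ 2 - a * t + 1 = 0 := by
  rw [← h]
  field_simp
  ring

open Classical in
theorem bad_count {L K : Type*} [Field L] [Field K] [Algebra L K] {e m : ℕ} (he : 1 ≤ e)
    (hm : 1 ≤ m) {U V : L[X]} (hcop : IsCoprime U V) (hdeg : max U.natDegree V.natDegree = e)
    (s : K → K) (hs0 : ∀ z, s z ≠ 0) (hs : ∀ z, s z + (s z)⁻¹ = z) (Q : Finset L) (z0 : L) :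
    (Q.filter fun z : L => gT U V e m (z : OnePoint L) = gT U V e m (z0 : OnePoint L)).card ≤
      2 * e * m := by
  set ι := algebraMap L K with hι
  set r := s (ι z0) with hr
  have hcopM : IsCoprime (U.map ι) (V.map ι) := (Polynomial.isCoprime_map ι).2 hcop
  have hdegM : max (U.map ι).natDegree (V.map ι).natDegree = e := by
    rw [natDegree_map, natDegree_map]; exact hdeg
  obtain ⟨c1, c2, c3⟩ := cheb_UV (m := m) hcopM hdegM (hs0 (ι z0))
  rw [← hr] at c1 c2 c3
  have hval : ∀ z : L, toP1 ((cU (U.map ι) e m r).eval ((s (ι z) / r) ^ m))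
      ((cU (V.map ι) e m r).eval ((s (ι z) / r) ^ m)) =
        OnePoint.map ι (gT U V e m (z : OnePoint L)) := by
    intro z
    rw [c3 _ (div_ne_zero (hs0 _) (hs0 _)), mul_div_cancel₀ _ (hs0 _), map_gT, OnePoint.map_some,
      hs]
  have hval1 : toP1 ((cU (U.map ι) e m r).eval 1) ((cU (V.map ι) e m r).eval 1) =
      OnePoint.map ι (gT U V e m (z0 : OnePoint L)) := by
    have h := hval z0
    rwa [← hr, div_self (hs0 _), one_pow] at h
  set B := Q.filter fun z : L => gT U V e m (z : OnePoint L) = gT U V e m (z0 : OnePoint L) with hB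
  have hinj : Function.Injective fun z : L => s (ι z) / r := by
    intro a b hab
    have h1 : s (ι a) = s (ι b) := (div_left_inj' (hs0 _)).1 hab
    have h2 : ι a = ι b := by rw [← hs (ι a), h1, hs]
    exact ι.injective h2
  have h1 := fib_count (m := m) (by omega : 1 ≤ e * 2) hm c1 c2 (B.image fun z => s (ι z) / r)
  rw [Finset.filter_true_of_mem, Finset.card_image_of_injective _ hinj] at h1
  · rw [mul_comm 2 e]; exact h1
  · intro x hx
    obtain ⟨z, hz, rfl⟩ := Finset.mem_image.1 hx
    rw [hval, hval1, (Finset.mem_filter.1 hz).2]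

theorem coreT {F : Type w} {L : Type u} [Field F] [IsAlgClosed F] [CharZero F] [Field L]
    [Algebra F L] (u : L) (hu : Transcendental F u) {n e m : ℕ} (he : 1 ≤ e)
    (hpos : 0 < Module.finrank F⟮u⟯ L) (hn : Module.finrank F⟮u⟯ L ≤ n) (hm : mT e n < m)
    {U V : L[X]} (hcop : IsCoprime U V) (hdeg : max U.natDegree V.natDegree = e)
    (P : Finset (OnePoint L)) (hP : ∀ p ∈ P, gT U V e m p ∈ P) (hcard : cT e m ≤ P.card)
    (hgen : IntermediateField.adjoin F (insert u {z : L | z ≠ 0 ∧ (z : OnePoint L) ∈ P}) = ⊤) :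
    ∃ (l : L) (U0 V0 : F[X]), l ≠ 0 ∧ U = C l * U0.map (algebraMap F L) ∧
      V = C l * V0.map (algebraMap F L) := by
  classical
  have hm0 : 1 ≤ m := by omega
  let K := AlgebraicClosure L
  let ιK : L →+* K := algebraMap L K
  have hιK : Function.Injective ιK := ιK.injective
  choose s hs0 hs using fun z : K => exists_s z
  -- finite points
  set Q : Finset L := P.preimage (fun z : L => (z : OnePoint L)) OnePoint.coe_injective.injOn
    with hQ
  have hmemQ : ∀ z, z ∈ Q ↔ (z : OnePoint L) ∈ P := by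
    intro z
    rw [hQ, Finset.mem_preimage]
  have hQcard : P.card ≤ Q.card + 1 := by
    have h2 : P ⊆ (Q.image fun z : L => (z : OnePoint L)) ∪ {OnePoint.infty} := by
      intro p hp
      rw [Finset.mem_union]
      induction p using OnePoint.rec with
      | infty => right; simp
      | coe z =>
        left
        exact Finset.mem_image.2 ⟨z, (hmemQ z).2 hp, rfl⟩
    refine (Finset.card_le_card h2).trans ((Finset.card_union_le _ _).trans ?_)
    exact Nat.add_le_add Finset.card_image_le (by simp)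
  have hc10 : 10 ≤ P.card := by
    have : 10 ≤ cT e m := by rw [cT]; omega
    omega
  have hQne : Q.Nonempty := Finset.card_pos.1 (by omega)
  set N1 : ℕ := 288 * (2 * e) ^ 4 + 4 * e + 1 with hN1
  let I := {T : Finset L // T ⊆ Q ∧ T.card ≤ N1}
  have hIfin : Finite I := by
    have h1 : ({T : Finset L | T ⊆ Q ∧ T.card ≤ N1} : Set (Finset L)).Finite :=
      (Q.powerset.finite_toSet).subset fun T hT => by
        rw [Finset.mem_coe, Finset.mem_powerset]
        exact hT.1
    exact h1.to_subtype
  let MF : I → IntermediateField L K := fun T =>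
    IntermediateField.adjoin L ((T.1.image fun z => s (ιK z) : Finset K) : Set K)
  have hmemMF : ∀ (T : I) (z : L), z ∈ T.1 → s (ιK z) ∈ MF T := by
    intro T z hz
    apply IntermediateField.subset_adjoin
    rw [Finset.mem_coe]
    exact Finset.mem_image_of_mem _ hz
  let sM : ∀ T : I, L → MF T := fun T z =>
    if h : s (ιK z) ∈ MF T then ⟨s (ιK z), h⟩ else 1
  have hsM : ∀ (T : I) (z : L), z ∈ T.1 → ((sM T z : MF T) : K) = s (ιK z) := by
    intro T z hz
    simp only [sM]
    rw [dif_pos (hmemMF T z hz)]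
  have hsMne : ∀ (T : I) (z : L), z ∈ T.1 → sM T z ≠ 0 := by
    intro T z hz h
    have := hsM T z hz
    rw [h] at this
    exact hs0 _ this.symm
  have hsMz : ∀ (T : I) (z : L), z ∈ T.1 → sM T z + (sM T z)⁻¹ = algebraMap L (MF T) z := by
    intro T z hz
    apply Subtype.ext
    change ((sM T z : MF T) : K) + ((sM T z : MF T) : K)⁻¹ = ιK z
    rw [hsM T z hz, hs]
  have hfd : ∀ T : I, FiniteDimensional L (MF T) ∧ Module.finrank L (MF T) ≤ 2 ^ N1 := by
    intro T
    obtain ⟨g1, g2⟩ := fr_adjoin (L := L) (T.1.image fun z => s (ιK z)) (by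
      intro x hx
      obtain ⟨z, hz, rfl⟩ := Finset.mem_image.1 hx
      refine ⟨z, ?_⟩
      exact quad_of_sum (hs0 (ιK z)) (hs (ιK z)))
    refine ⟨g1, g2.trans ?_⟩
    exact Nat.pow_le_pow_right (by norm_num) (Finset.card_image_le.trans T.2.2)
  let Z : ∀ T : I, Finset (MF T) := fun T =>
    (Q.erase 0).image (algebraMap L (MF T)) ∪ T.1.image (sM T)
  let W : ∀ T : I, Finset (MF T) := fun T =>
    Q.image (algebraMap L (MF T)) ∪ (Q.image fun z => (algebraMap L (MF T) z)⁻¹) ∪
      (T.1.image (sM T) ∪ (T.1.image fun z => (sM T z)⁻¹)) ∪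
      (((T.1 ×ˢ T.1).image fun p => ((sM T p.1 / sM T p.2) ^ m - 1)⁻¹) ∪
        ((T.1 ×ˢ T.1).image fun p => (((sM T p.1)⁻¹ / sM T p.2) ^ m - 1)⁻¹))
  have hfr : ∀ T : I, Module.finrank F⟮algebraMap L (MF T) u⟯ (MF T) =
      Module.finrank F⟮u⟯ L * Module.finrank L (MF T) := fun T =>
    P62g.GonSupAux.finrank_tower (F := F) (A := L) (L := MF T) u
  obtain ⟨h, hfam⟩ := geo_family u hu hpos {z : L | z ≠ 0 ∧ (z : OnePoint L) ∈ P} hgen
    (fun T : I => MF T) (fun _ => n * 2 ^ N1)
    (fun T => by
      have := (hfd T).1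
      rw [hfr T]
      exact Nat.mul_pos hpos Module.finrank_pos)
    (fun T => by
      rw [hfr T]
      exact Nat.mul_le_mul hn (hfd T).2) Z W
    (fun T hT => by
      rcases Finset.mem_union.1 hT with h1 | h1
      · obtain ⟨z, hz, hz0⟩ := Finset.mem_image.1 h1
        rw [map_eq_zero] at hz0
        exact (Finset.mem_erase.1 hz).1 hz0
      · obtain ⟨z, hz, hz0⟩ := Finset.mem_image.1 h1
        exact hsMne T z hz hz0)
    (fun T => by
      refine gen_adjoin _ hgen _ _ ?_ ?_
      · rintro x (rfl | ⟨hx0, hxP⟩)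
        · exact Set.mem_insert _ _
        · refine Set.mem_insert_of_mem _ ?_
          rw [Finset.mem_coe]
          refine Finset.mem_union_left _ (Finset.mem_image_of_mem _ ?_)
          exact Finset.mem_erase.2 ⟨hx0, (hmemQ x).2 hxP⟩
      · intro x hx
        rw [Finset.mem_coe] at hx
        obtain ⟨z, hz, hzx⟩ := Finset.mem_image.1 hx
        refine Set.mem_insert_of_mem _ ?_
        rw [Finset.mem_coe]
        refine Finset.mem_union_right _ (Finset.mem_image.2 ⟨z, hz, ?_⟩)
        apply Subtype.ext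
        rw [hsM T z hz, hzx])
  obtain ⟨z0, hz0Q, hmax⟩ := Finset.exists_max_image Q h hQne
  by_cases hh : h z0 ≤ 0
  · -- all points are constants
    obtain ⟨G, hG1, hG2, -⟩ := hfam ⟨∅, Finset.empty_subset _, by simp⟩
    refine tconst he hm0 hcop hdeg P hP ?_ ?_
    · intro z hz
      have hzQ := (hmemQ z).2 hz
      have h1 := hG1 (algebraMap L _ z) (by
        refine Finset.mem_union_left _ (Finset.mem_union_left _ (Finset.mem_union_left _ ?_))
        exact Finset.mem_image_of_mem _ hzQ)
      have h2 := hG2 z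
      have h3 := hmax z hzQ
      have h4 := Geo.h_nonneg (G := G) (algebraMap L _ z)
      have h5 : G.h (algebraMap L _ z) = 0 := by
        apply le_antisymm _ h4
        rw [h2]
        exact mul_nonpos_of_nonneg_of_nonpos (by positivity) (h3.trans hh)
      obtain ⟨c, hc⟩ := Geo.const_of_h_eq_zero h1 h5
      refine ⟨c, ?_⟩
      rw [IsScalarTower.algebraMap_apply F L (MF _)] at hc
      exact (algebraMap L (MF _)).injective hc
    · refine le_trans ?_ hcard
      have e1 : m * (2 * e + 1) = 2 * e * m + m := by ring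
      rw [cT]
      omega
  · exfalso
    set Bad : Finset K := (Q.filter fun z : L => gT U V e m (z : OnePoint L) =
      gT U V e m (z0 : OnePoint L)).image ιK with hBad
    have hBadcard : Bad.card ≤ 2 * e * m :=
      Finset.card_image_le.trans (bad_count he hm0 hcop hdeg s hs0 hs Q z0)
    obtain ⟨q, q', hq, hq', h1, h2, hrel⟩ := selT (m := m) (N := 217 * (2 * e) ^ 2)
      (K0 := 288 * (2 * e) ^ 4) (N' := 2 * e + 2 * e) hm0 s hs0 hs (s (ιK z0)) (hs0 _)
      (Q.image ιK) Bad (by
        have hcQ : (Q.image ιK).card = Q.card := Finset.card_image_of_injective _ hιK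
        rw [hcQ]
        have e1 : (2 * e + 2 * e) * (m + 1) = 4 * e * (m + 1) := by ring
        rw [e1]
        rw [cT] at hcard
        omega)
    have hex : ∀ i, ∃ z ∈ Q, ιK z = q i := fun i => by
      simpa using (hq i).1
    have hex' : ∀ i, ∃ z ∈ Q, ιK z = q' i := fun i => by
      simpa using hq' i
    choose zq hzqQ hzq using hex
    choose zq' hzqQ' hzq' using hex'
    set T0 : Finset L := insert z0 (Finset.univ.image zq ∪ Finset.univ.image zq') with hT0
    have hT0Q : T0 ⊆ Q := by
      intro z hz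
      rw [hT0, Finset.mem_insert, Finset.mem_union, Finset.mem_image, Finset.mem_image] at hz
      rcases hz with rfl | ⟨i, -, rfl⟩ | ⟨i, -, rfl⟩
      · exact hz0Q
      · exact hzqQ i
      · exact hzqQ' i
    have hT0card : T0.card ≤ N1 := by
      rw [hT0]
      refine (Finset.card_insert_le _ _).trans ?_
      have a1 := Finset.card_union_le (Finset.univ.image zq) (Finset.univ.image zq')
      have a2 : (Finset.univ.image zq).card ≤ 288 * (2 * e) ^ 4 :=
        Finset.card_image_le.trans (by simp)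
      have a3 : (Finset.univ.image zq').card ≤ 2 * e + 2 * e :=
        Finset.card_image_le.trans (by simp)
      omega
    set T : I := ⟨T0, hT0Q, hT0card⟩ with hT
    have hz0T : z0 ∈ T.1 := Finset.mem_insert_self _ _
    have hzqT : ∀ i, zq i ∈ T.1 := fun i =>
      Finset.mem_insert_of_mem (Finset.mem_union_left _
        (Finset.mem_image_of_mem _ (Finset.mem_univ i)))
    have hzqT' : ∀ i, zq' i ∈ T.1 := fun i =>
      Finset.mem_insert_of_mem (Finset.mem_union_right _
        (Finset.mem_image_of_mem _ (Finset.mem_univ i)))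
    obtain ⟨G, hG1, hG2, hG3⟩ := hfam T
    have := (hfd T).1
    have hfrpos : 0 < Module.finrank L (MF T) := Module.finrank_pos
    set R : ℤ := G.h (algebraMap L (MF T) z0) with hR
    have hR1 : 1 ≤ R := by
      rw [hR, hG2]
      have b1 : (1 : ℤ) ≤ Module.finrank L (MF T) := by exact_mod_cast hfrpos
      have b2 : 1 ≤ h z0 := by omega
      nlinarith
    have hle : ∀ z : L, (z : OnePoint L) ∈ P → G.h (algebraMap L (MF T) z) ≤ R := by
      intro z hz
      rw [hR, hG2, hG2]
      exact mul_le_mul_of_nonneg_left (hmax z ((hmemQ z).2 hz)) (by positivity)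
    have hun : ∀ z : L, (z : OnePoint L) ∈ P → z ≠ 0 → IsUn G (algebraMap L (MF T) z) := by
      intro z hz hz0
      refine ⟨(_root_.map_ne_zero _).2 hz0, hG1 _ ?_, hG1 _ ?_⟩
      · refine Finset.mem_union_left _ (Finset.mem_union_left _ (Finset.mem_union_left _ ?_))
        exact Finset.mem_image_of_mem _ ((hmemQ z).2 hz)
      · refine Finset.mem_union_left _ (Finset.mem_union_left _ (Finset.mem_union_right _ ?_))
        exact Finset.mem_image.2 ⟨z, (hmemQ z).2 hz, rfl⟩
    have hsU : ∀ z ∈ T.1, IsUn G (sM T z) := by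
      intro z hz
      refine ⟨hsMne T z hz, hG1 _ ?_, hG1 _ ?_⟩
      · refine Finset.mem_union_left _ (Finset.mem_union_right _ (Finset.mem_union_left _ ?_))
        exact Finset.mem_image_of_mem _ hz
      · refine Finset.mem_union_left _ (Finset.mem_union_right _ (Finset.mem_union_right _ ?_))
        exact Finset.mem_image.2 ⟨z, hz, rfl⟩
    have hκ : (G.κ : ℤ) ≤ ((2 * (n * 2 ^ N1) ^ 4 : ℕ) : ℤ) * R := by
      refine hG3 R (by omega) ?_
      intro z hz
      rcases Finset.mem_union.1 hz with hz | hz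
      · obtain ⟨y, hy, rfl⟩ := Finset.mem_image.1 hz
        exact hle y ((hmemQ y).1 (Finset.mem_erase.1 hy).2)
      · obtain ⟨y, hy, rfl⟩ := Finset.mem_image.1 hz
        have b1 := h_add_inv G (hsU y hy)
        rw [hsMz T y hy] at b1
        have b2 := hle y ((hmemQ y).1 (T.2.1 hy))
        have b3 := Geo.h_nonneg (G := G) (sM T y)
        omega
    -- passing from `MF T` to `K`
    have hinjK : Function.Injective (fun x : MF T => (x : K)) := Subtype.val_injective
    have hcz0 : ((sM T z0 : MF T) : K) = s (ιK z0) := hsM T z0 hz0T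
    refine dynT G he (C1 := 2 * (n * 2 ^ N1) ^ 4) hm hR1 hκ hcop hdeg P hP hun hle (sM T) T.1
      (fun z hz => ⟨(hmemQ z).1 (T.2.1 hz), hsU z hz, hsMz T z hz⟩) ?_ z0 hz0T rfl zq zq'
      hzqT hzqT' ?_ ?_ ?_ ?_
    · intro z hz z' hz' x hx
      apply hG1
      rcases hx with rfl | rfl
      · refine Finset.mem_union_right _ (Finset.mem_union_left _ ?_)
        exact Finset.mem_image.2 ⟨(z, z'), Finset.mem_product.2 ⟨hz, hz'⟩, rfl⟩
      · refine Finset.mem_union_right _ (Finset.mem_union_right _ ?_)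
        exact Finset.mem_image.2 ⟨(z, z'), Finset.mem_product.2 ⟨hz, hz'⟩, rfl⟩
    · intro i hi
      apply h1 i
      have b1 := congrArg (fun x : MF T => (x : K)) hi
      have b2 : ((((sM T (zq' i) / sM T z0) ^ m : MF T)) : K) =
          (((sM T (zq' i) : MF T) : K) / ((sM T z0 : MF T) : K)) ^ m := by
        push_cast
        rfl
      simp only [b2, hcz0, hsM T _ (hzqT' i), hzq'] at b1
      exact b1
    · intro i j hij hi
      apply h2 i j hij
      have b1 := congrArg (fun x : MF T => (x : K)) hi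
      have b2 : ∀ k, ((((sM T (zq' k) / sM T z0) ^ m : MF T)) : K) =
          (((sM T (zq' k) : MF T) : K) / ((sM T z0 : MF T) : K)) ^ m := by
        intro k
        push_cast
        rfl
      simp only [b2, hcz0, hsM T _ (hzqT' _), hzq'] at b1
      exact b1
    · intro i hi
      apply (hq i).2
      rw [hBad]
      exact Finset.mem_image.2 ⟨zq i, Finset.mem_filter.2 ⟨hzqQ i, hi.symm⟩, hzq i⟩
    · intro i j hij x y hx hy hnt
      rintro ⟨a, b, hab, ha, hb, hrr⟩
      have hxK : (x : K) = s (q i) ∨ (x : K) = (s (q i))⁻¹ := by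
        rw [← hzq i, ← hsM T _ (hzqT i)]
        rcases hx with rfl | rfl
        · exact Or.inl rfl
        · right; push_cast; rfl
      have hyK : (y : K) = s (q j) ∨ (y : K) = (s (q j))⁻¹ := by
        rw [← hzq j, ← hsM T _ (hzqT j)]
        rcases hy with rfl | rfl
        · exact Or.inl rfl
        · right; push_cast; rfl
      have hcz : ∀ (w : MF T) (k : ℤ), ((((w / sM T z0) ^ k : MF T)) : K) =
          ((w : K) / s (ιK z0)) ^ k := by
        intro w k
        rw [← hcz0]
        push_cast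
        rfl
      refine hrel i j hij _ _ hxK hyK ?_ ⟨a, b, hab, ha, hb, ?_⟩
      · intro a ha h
        apply hnt a ha
        apply hinjK
        change ((((x / sM T z0) ^ ((m : ℤ) * a) : MF T)) : K) = ((1 : MF T) : K)
        rw [hcz, h]
        rfl
      · have b1 := congrArg (fun x : MF T => (x : K)) hrr
        rw [← hcz, ← hcz]
        exact b1

end Pool.Agent.Lib.P62c
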