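import Pool.Agent.Lib.P62h.RmD

/-!
# Definitions for the uniqueness of decompositions through a Chebyshev polynomial
-/

namespace Pool.Agent.Lib.P62c

open Polynomial Pool.Agent.Lib.P62a0c3 Pool.Agent.Lib.P62h

/-- The Wronskian of two polynomials. -/
noncomputable def wr {K : Type*} [Field K] (p q : K[X]) : K[X] :=
  derivative p * q - p * derivative q

/-- `q^2 (p^2 - 4 q^2)`. -/
noncomputable def rr {K : Type*} [Field K] (p q : K[X]) : K[X] := q ^ 2 * (p ^ 2 - 4 * q ^ 2)

end Pool.Agent.Lib.P62c
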