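import Pool.Agent.Lib.P62h.DescB

/-!
# Module P62c.DescO: descent of the outer factor

If the inner factor `g = [Pg : Qg]` is defined over `E` up to constants, then `f = A ∘ x^m ∘ g` has a
decomposition of the same kind over `E` (second half of the proof of `P62h.descent`).
-/

namespace Pool.Agent.Lib.P62c

open Polynomial Pool.Agent.Lib.P62a0c3 Pool.Agent.Lib.P62h

theorem descent_of {k K : Type*} [Field k] [CharZero k] [Field K] [Algebra k K] {a b m : ℕ}
    (ha : 1 ≤ a) (hb : 1 ≤ b) (hm : 1 ≤ m) {P Q : k[X]} (hPQ : IsCoprime P Q)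
    {PA QA Pg Qg : K[X]} (hA : IsCoprime PA QA) (hAa : max PA.natDegree QA.natDegree = a)
    (hg : IsCoprime Pg Qg) (hgb : max Pg.natDegree Qg.natDegree = b)
    (hf : ∀ x : OnePoint K, rm (P.map (algebraMap k K)) (Q.map (algebraMap k K)) (a * (m * b)) x =
      rm PA QA a (rm (X ^ m) 1 m (rm Pg Qg b x)))
    (E : IntermediateField k K) {s t : K} (hs : s ≠ 0) (ht : t ≠ 0) {P1 Q1 : E[X]}
    (eP : Pg = C s * P1.map (algebraMap E K)) (eQ : Qg = C t * Q1.map (algebraMap E K)) :
    ∃ PA' QA' Pg' Qg' : E[X], IsCoprime PA' QA' ∧ max PA'.natDegree QA'.natDegree = a ∧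
      IsCoprime Pg' Qg' ∧ max Pg'.natDegree Qg'.natDegree = b ∧
      ∀ x : OnePoint K, rm (P.map (algebraMap k K)) (Q.map (algebraMap k K)) (a * (m * b)) x =
        rm (PA'.map (algebraMap E K)) (QA'.map (algebraMap E K)) a (rm (X ^ m) 1 m
          (rm (Pg'.map (algebraMap E K)) (Qg'.map (algebraMap E K)) b x)) := by
  classical
  have hCp : IsUnit (C s : K[X]) := isUnit_C.2 (isUnit_iff_ne_zero.2 hs)
  have hCq : IsUnit (C t : K[X]) := isUnit_C.2 (isUnit_iff_ne_zero.2 ht)
  have hg1' : IsCoprime (P1.map (algebraMap E K)) (Q1.map (algebraMap E K)) := by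
    rw [eP, eQ] at hg
    exact (isCoprime_mul_unit_left_left hCp _ _).1
      ((isCoprime_mul_unit_left_right hCq _ _).1 hg)
  have hg1 : IsCoprime P1 Q1 := (Polynomial.isCoprime_map _).1 hg1'
  have hg1b : max P1.natDegree Q1.natDegree = b := by
    rw [eP, eQ, natDegree_C_mul hs, natDegree_C_mul ht, natDegree_map, natDegree_map] at hgb
    exact hgb
  -- the outer factor
  set σ : K := s / t with hσdef
  have hσ : σ ≠ 0 := div_ne_zero hs ht
  have hσm : σ ^ m ≠ 0 := pow_ne_zero m hσ
  set PA1 : K[X] := PA.comp (C (σ ^ m) * X) with hPA1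
  set QA1 : K[X] := QA.comp (C (σ ^ m) * X) with hQA1
  have hA1 : IsCoprime PA1 QA1 := iT_comp_coprime hA
  have hA1a : max PA1.natDegree QA1.natDegree = a := by
    rw [hPA1, hQA1, iT_comp_degree hσm, iT_comp_degree hσm, hAa]
  have key : ∀ x : OnePoint K, rm PA QA a (rm (X ^ m) 1 m (rm Pg Qg b x)) =
      rm PA1 QA1 a (rm (X ^ m) 1 m
        (rm (P1.map (algebraMap E K)) (Q1.map (algebraMap E K)) b x)) := by
    intro x
    rw [← iT_rescale hσ hm PA QA Pg Qg a b x]
    have e1 : C σ * Qg = C s * Q1.map (algebraMap E K) := by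
      rw [eQ, ← mul_assoc, ← C_mul, hσdef, div_mul_cancel₀ s ht]
    rw [e1]
    conv_lhs => rw [eP]
    rw [iT_rm_C_mul hs]
  -- its values
  have hinf := iT_values (k := k) (E := E) (P := P1 ^ m) (Q := Q1 ^ m) hg1.pow (by
    rw [iT_max_pow m hg1b]; exact Nat.mul_pos hm hb)
  obtain ⟨A, hAsub, hAcard⟩ := hinf.exists_subset_card_eq (2 * a + 1)
  obtain ⟨l, PA', QA', hl, ePA, eQA⟩ := grat (F := E) hA1 hA1a A (by omega) (by
    intro y hy
    obtain ⟨c, hc, rfl⟩ := hAsub hy
    refine ⟨algebraMap k E (P.eval c), algebraMap k E (Q.eval c), ?_, ?_⟩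
    · rcases eval_ne hPQ c with h | h
      · exact Or.inl ((_root_.map_ne_zero _).2 h)
      · exact Or.inr ((_root_.map_ne_zero _).2 h)
    · have h1 := hf (algebraMap k K c)
      rw [key, rm_some, rm_some, iT_pow_toP1 hm] at h1
      have hcc : algebraMap k K c = algebraMap E K (algebraMap k E c) := rfl
      have e1 : (P1.map (algebraMap E K)).eval (algebraMap k K c) =
          algebraMap E K (P1.eval (algebraMap k E c)) := by
        rw [hcc, eval_map_algebraMap, aeval_algebraMap_apply, coe_aeval_eq_eval]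
      have e2 : (Q1.map (algebraMap E K)).eval (algebraMap k K c) =
          algebraMap E K (Q1.eval (algebraMap k E c)) := by
        rw [hcc, eval_map_algebraMap, aeval_algebraMap_apply, coe_aeval_eq_eval]
      rw [e1, e2] at h1
      have hc2 : (algebraMap E K (Q1.eval (algebraMap k E c))) ^ m ≠ 0 := by
        rw [← map_pow, ← eval_pow]
        exact (_root_.map_ne_zero _).2 hc
      have e3 : toP1 ((algebraMap E K (P1.eval (algebraMap k E c))) ^ m)
          ((algebraMap E K (Q1.eval (algebraMap k E c))) ^ m) =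
          ((algebraMap E K ((P1 ^ m).eval (algebraMap k E c) /
            (Q1 ^ m).eval (algebraMap k E c)) : K) : OnePoint K) := by
        unfold toP1
        rw [if_neg hc2, map_div₀, eval_pow, eval_pow, map_pow, map_pow]
      rw [e3, rm_some, eval_map_algebraMap, eval_map_algebraMap, aeval_algebraMap_apply,
        aeval_algebraMap_apply, coe_aeval_eq_eval] at h1
      have h2 := toP1_eq_imp h1
      have e4 : algebraMap E K (algebraMap k E (P.eval c)) = algebraMap k K (P.eval c) := rfl
      have e5 : algebraMap E K (algebraMap k E (Q.eval c)) = algebraMap k K (Q.eval c) := rfl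
      rw [e4, e5]
      linear_combination -h2)
  have hCl : IsUnit (C l : K[X]) := isUnit_C.2 (isUnit_iff_ne_zero.2 hl)
  have hA' : IsCoprime PA' QA' := by
    rw [ePA, eQA] at hA1
    exact (Polynomial.isCoprime_map _).1 ((isCoprime_mul_unit_left hCl _ _).1 hA1)
  have hAa' : max PA'.natDegree QA'.natDegree = a := by
    rw [ePA, eQA, natDegree_C_mul hl, natDegree_C_mul hl, natDegree_map, natDegree_map] at hA1a
    exact hA1a
  refine ⟨PA', QA', P1, Q1, hA', hAa', hg1, hg1b, fun x => ?_⟩
  rw [hf, key, ePA, eQA, iT_rm_C_mul hl]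

end Pool.Agent.Lib.P62c
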