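import Mathlib

/-!
# Polynomials fixed up to sign by a Galois group
-/

namespace Pool.Agent.Lib.P62c

open Polynomial IntermediateField

theorem lift_fixed {E0 K : Type*} [Field E0] [Field K] [Algebra E0 K] [IsGalois E0 K] {q : K[X]}
    (h : ∀ (σ : K ≃ₐ[E0] K) (i : ℕ), σ (q.coeff i) = q.coeff i) :
    ∃ q0 : E0[X], q = q0.map (algebraMap E0 K) := by
  have h1 : q ∈ Polynomial.lifts (algebraMap E0 K) := by
    rw [Polynomial.lifts_iff_coeff_lifts]
    intro i
    rw [InfiniteGalois.mem_range_algebraMap_iff_fixed]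
    exact fun σ => h σ i
  obtain ⟨q0, hq0⟩ := (Polynomial.mem_lifts _).1 h1
  exact ⟨q0, hq0.symm⟩

theorem galois_pair {E0 K : Type*} [Field E0] [Field K] [Algebra E0 K] [IsGalois E0 K]
    {p q : K[X]} (hp : p ≠ 0)
    (h : ∀ σ : K ≃ₐ[E0] K, q.map (σ : K →+* K) = q ∧
      (p.map (σ : K →+* K) = p ∨ p.map (σ : K →+* K) = -p)) :
    ∃ (c : K) (d : E0) (p0 q0 : E0[X]), c ≠ 0 ∧ c ^ 2 = algebraMap E0 K d ∧
      p = C c * p0.map (algebraMap E0 K) ∧ q = q0.map (algebraMap E0 K) := by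
  set c : K := p.leadingCoeff with hc
  have hc0 : c ≠ 0 := leadingCoeff_ne_zero.2 hp
  have hσ : ∀ σ : K ≃ₐ[E0] K, ∃ ε : K, ε ^ 2 = 1 ∧ ∀ i, σ (p.coeff i) = ε * p.coeff i := by
    intro σ
    rcases (h σ).2 with h1 | h1
    · refine ⟨1, one_pow 2, fun i => ?_⟩
      have h2 := congrArg (fun f : K[X] => f.coeff i) h1
      simp only [coeff_map] at h2
      rw [one_mul]
      exact h2
    · refine ⟨-1, by norm_num, fun i => ?_⟩
      have h2 := congrArg (fun f : K[X] => f.coeff i) h1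
      simp only [coeff_map, coeff_neg] at h2
      rw [neg_one_mul]
      exact h2
  obtain ⟨q0, hq0⟩ := lift_fixed (E0 := E0) (q := q) (fun σ i => by
    have h2 := congrArg (fun f : K[X] => f.coeff i) (h σ).1
    simp only [coeff_map] at h2
    exact h2)
  obtain ⟨p0, hp0⟩ := lift_fixed (E0 := E0) (q := C c⁻¹ * p) (fun σ i => by
    obtain ⟨ε, hε, h1⟩ := hσ σ
    have h2 : σ c = ε * c := h1 _
    have hε0 : ε ≠ 0 := by
      rintro rfl
      simp at hε
    rw [coeff_C_mul, map_mul, map_inv₀, h2, h1]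
    field_simp)
  obtain ⟨d, hd⟩ : ∃ d, algebraMap E0 K d = c ^ 2 := by
    have h3 : c ^ 2 ∈ Set.range (algebraMap E0 K) := by
      rw [InfiniteGalois.mem_range_algebraMap_iff_fixed]
      intro σ
      obtain ⟨ε, hε, h1⟩ := hσ σ
      have h2 : σ c = ε * c := h1 _
      rw [map_pow, h2, mul_pow, hε, one_mul]
    exact h3
  refine ⟨c, d, p0, q0, hc0, hd.symm, ?_, hq0⟩
  rw [← hp0, ← mul_assoc, ← C_mul, mul_inv_cancel₀ hc0, C_1, one_mul]

end Pool.Agent.Lib.P62c
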