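import Pool.Agent.Lib.P62c.GalT
import Pool.Agent.Lib.P62c.GalP
import Pool.Agent.Lib.P62h.DescB

/-!
# Descent of a decomposition through a Chebyshev polynomial
-/

namespace Pool.Agent.Lib.P62c

open Polynomial IntermediateField Pool.Agent.Lib.P62a0c3 Pool.Agent.Lib.P62h
  Pool.Agent.Lib.P62h.HomAAux

/-- `f` factors through a power map. -/
def AltPow {K : Type*} [Field K] (a b m : ℕ) (f : OnePoint K → OnePoint K) : Prop :=
  ∃ (b' : ℕ) (PB QB n d : K[X]), b = 2 * b' ∧ 1 ≤ b' ∧ IsCoprime PB QB ∧
    max PB.natDegree QB.natDegree = a * 2 ∧ IsCoprime n d ∧ max n.natDegree d.natDegree = b' ∧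
    ∀ x, f x = rm PB QB (a * 2) (rm (X ^ m) 1 m (rm n d b' x))

/-- `f` factors through a Chebyshev polynomial over a small extension. -/
def AltExt (k : Type*) {K : Type*} [Field k] [Field K] [Algebra k K] (a b m N : ℕ)
    (f : OnePoint K → OnePoint K) : Prop :=
  ∃ E : IntermediateField k K, 0 < Module.finrank k E ∧ Module.finrank k E ≤ N ∧
    ∃ PA' QA' Pg' Qg' : E[X], IsCoprime PA' QA' ∧ max PA'.natDegree QA'.natDegree = a ∧
      IsCoprime Pg' Qg' ∧ max Pg'.natDegree Qg'.natDegree = b ∧
      ∀ x : OnePoint K, f x =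
        rm (PA'.map (algebraMap E K)) (QA'.map (algebraMap E K)) a (rm (dickson 1 (1 : K) m) 1 m
          (rm (Pg'.map (algebraMap E K)) (Qg'.map (algebraMap E K)) b x))

theorem finrank_quad {k K : Type*} [Field k] [Field K] [Algebra k K] (E0 : IntermediateField k K)
    {N : ℕ} (h0 : 0 < Module.finrank k E0) (hN : Module.finrank k E0 ≤ N) (c : K) (d : E0)
    (hc : c ^ 2 = algebraMap E0 K d) :
    0 < Module.finrank k (restrictScalars k (IntermediateField.adjoin E0 ({c} : Set K))) ∧
      Module.finrank k (restrictScalars k (IntermediateField.adjoin E0 ({c} : Set K))) ≤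
        N * 2 := by
  set p : Polynomial E0 := X ^ 2 - C d with hp
  have hpx : aeval c p = 0 := by
    rw [hp, map_sub, map_pow, aeval_X, aeval_C, hc, sub_self]
  have hpm : p.Monic := by
    rw [hp]
    exact monic_X_pow_sub_C d two_ne_zero
  have hpd : p.natDegree ≤ 2 := by
    rw [hp]
    exact (natDegree_X_pow_sub_C (n := 2) (r := d)).le
  have hint : IsIntegral E0 c := ⟨p, hpm, by rw [← aeval_def]; exact hpx⟩
  have hfx : Module.finrank E0 (IntermediateField.adjoin E0 ({c} : Set K)) ≤ 2 := by
    rw [IntermediateField.adjoin.finrank hint]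
    exact (natDegree_le_of_dvd (minpoly.dvd E0 c hpx) hpm.ne_zero).trans hpd
  have hfx0 : 0 < Module.finrank E0 (IntermediateField.adjoin E0 ({c} : Set K)) := by
    rw [IntermediateField.adjoin.finrank hint]
    exact minpoly.natDegree_pos hint
  have h1 : Module.finrank k (restrictScalars k (IntermediateField.adjoin E0 ({c} : Set K))) =
      Module.finrank k E0 * Module.finrank E0 (IntermediateField.adjoin E0 ({c} : Set K)) :=
    (Module.finrank_mul_finrank k E0 (IntermediateField.adjoin E0 ({c} : Set K))).symm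
  rw [h1]
  exact ⟨Nat.mul_pos h0 hfx0, Nat.mul_le_mul hN hfx⟩

/-- Once `g` is defined over `E`, so is `A`. -/
theorem outer_desc {k K : Type*} [Field k] [CharZero k] [Field K] [Algebra k K] {a b m : ℕ}
    (hb : 1 ≤ b) (hm : 1 ≤ m) {P Q : k[X]} (hPQ : IsCoprime P Q) {PA QA : K[X]}
    (hA : IsCoprime PA QA) (hAa : max PA.natDegree QA.natDegree = a)
    (E : IntermediateField k K) {Pg Qg : E[X]} (hg : IsCoprime Pg Qg)
    (hgb : max Pg.natDegree Qg.natDegree = b)
    (hf : ∀ x : OnePoint K, rm (P.map (algebraMap k K)) (Q.map (algebraMap k K)) (a * (m * b)) x =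
      rm PA QA a (rm (dickson 1 (1 : K) m) 1 m
        (rm (Pg.map (algebraMap E K)) (Qg.map (algebraMap E K)) b x))) :
    ∃ PA' QA' : E[X], IsCoprime PA' QA' ∧ max PA'.natDegree QA'.natDegree = a ∧
      ∀ x : OnePoint K, rm PA QA a x =
        rm (PA'.map (algebraMap E K)) (QA'.map (algebraMap E K)) a x := by
  classical
  set M : E[X] := hom m (dickson 1 (1 : E) m) Pg Qg with hM
  have hMN : IsCoprime M (Qg ^ m) := by
    have h1 := hom_coprime (P := dickson 1 (1 : E) m) (Q := 1) isCoprime_one_right
      (dickson_pair_degree hm) hg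
    rwa [iT_hom_const] at h1
  have hMNd : max M.natDegree (Qg ^ m).natDegree = m * b := by
    have h1 := hom_degree (P := dickson 1 (1 : E) m) (Q := 1) isCoprime_one_right
      (dickson_pair_degree hm) hg hgb
    rwa [iT_hom_const] at h1
  have hinf := iT_values (k := k) (E := E) (P := M) (Q := Qg ^ m) hMN (by
    rw [hMNd]; exact Nat.mul_pos hm hb)
  obtain ⟨A, hAsub, hAcard⟩ := hinf.exists_subset_card_eq (2 * a + 1)
  obtain ⟨l, PA', QA', hl, ePA, eQA⟩ := grat (F := E) hA hAa A (by omega) (by
    intro y hy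
    obtain ⟨c, hc, rfl⟩ := hAsub hy
    refine ⟨algebraMap k E (P.eval c), algebraMap k E (Q.eval c), ?_, ?_⟩
    · rcases eval_ne hPQ c with h | h
      · exact Or.inl ((_root_.map_ne_zero _).2 h)
      · exact Or.inr ((_root_.map_ne_zero _).2 h)
    · have h1 := hf (algebraMap k K c)
      have hgK : IsCoprime (Pg.map (algebraMap E K)) (Qg.map (algebraMap E K)) :=
        (Polynomial.isCoprime_map _).2 hg
      have hgbK : max (Pg.map (algebraMap E K)).natDegree (Qg.map (algebraMap E K)).natDegree =
          b := by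
        rw [natDegree_map, natDegree_map]; exact hgb
      rw [← rm_comp (P := dickson 1 (1 : K) m) (Q := 1) isCoprime_one_right
        (dickson_pair_degree hm) hgK hgbK, iT_hom_const] at h1
      have eM : hom m (dickson 1 (1 : K) m) (Pg.map (algebraMap E K)) (Qg.map (algebraMap E K)) =
          M.map (algebraMap E K) := by
        rw [hM, hom_map, map_dickson, map_one]
      rw [eM, ← Polynomial.map_pow, rm_some, rm_some] at h1
      have hcc : algebraMap k K c = algebraMap E K (algebraMap k E c) := rfl
      have e1 : ∀ F : E[X], (F.map (algebraMap E K)).eval (algebraMap k K c) =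
          algebraMap E K (F.eval (algebraMap k E c)) := by
        intro F
        rw [hcc, eval_map_algebraMap, aeval_algebraMap_apply, coe_aeval_eq_eval]
      rw [e1, e1] at h1
      have hc2 : (algebraMap E K ((Qg ^ m).eval (algebraMap k E c))) ≠ 0 :=
        (_root_.map_ne_zero _).2 hc
      have e3 : toP1 (algebraMap E K (M.eval (algebraMap k E c)))
          (algebraMap E K ((Qg ^ m).eval (algebraMap k E c))) =
          ((algebraMap E K (M.eval (algebraMap k E c) /
            (Qg ^ m).eval (algebraMap k E c)) : K) : OnePoint K) := by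
        unfold toP1
        rw [if_neg hc2, map_div₀]
      rw [e3, rm_some, eval_map_algebraMap, eval_map_algebraMap, aeval_algebraMap_apply,
        aeval_algebraMap_apply, coe_aeval_eq_eval] at h1
      have h2 := toP1_eq_imp h1
      have e4 : algebraMap E K (algebraMap k E (P.eval c)) = algebraMap k K (P.eval c) := rfl
      have e5 : algebraMap E K (algebraMap k E (Q.eval c)) = algebraMap k K (Q.eval c) := rfl
      rw [e4, e5]
      linear_combination -h2)
  have hCl : IsUnit (C l : K[X]) := isUnit_C.2 (isUnit_iff_ne_zero.2 hl)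
  have hA' : IsCoprime PA' QA' := by
    rw [ePA, eQA] at hA
    exact (Polynomial.isCoprime_map _).1 ((isCoprime_mul_unit_left hCl _ _).1 hA)
  have hAa' : max PA'.natDegree QA'.natDegree = a := by
    rw [ePA, eQA, natDegree_C_mul hl, natDegree_C_mul hl, natDegree_map, natDegree_map] at hAa
    exact hAa
  refine ⟨PA', QA', hA', hAa', fun x => ?_⟩
  rw [ePA, eQA, iT_rm_C_mul hl]

end Pool.Agent.Lib.P62c
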