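import Pool.Agent.Lib.P62h.IsoT

/-!
# Module P62c.IsoTT: isotriviality of `A ∘ T_m ∘ g`

`iso_mid`: if `g ∘ A` has constant coefficients (up to a common factor) and `R` is a rational
function with constant coefficients, then `A ∘ R ∘ g` is conjugate to a map with constant
coefficients.  `iso_dickson`: the case `R = T_m`, `T_m (s + 1/s) = s^m + 1/s^m`.
-/

namespace Pool.Agent.Lib.P62c

open Polynomial Pool.Agent.Lib.P62a0c3 Pool.Agent.Lib.P62h

theorem iso_mid {F K : Type*} [Field F] [IsAlgClosed F] [Field K] [Algebra F K] {a b m : ℕ}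
    (ha : 1 ≤ a) (hb : 1 ≤ b) {R W : F[X]} (hRW : IsCoprime R W)
    (hRWm : max R.natDegree W.natDegree = m) {PA QA Pg Qg : K[X]} (hA : IsCoprime PA QA)
    (hAa : max PA.natDegree QA.natDegree = a) (hg : IsCoprime Pg Qg)
    (hgb : max Pg.natDegree Qg.natDegree = b) {l : K} (hl : l ≠ 0) {U0 V0 : F[X]}
    (hU : hom b Pg PA QA = C l * U0.map (algebraMap F K))
    (hV : hom b Qg PA QA = C l * V0.map (algebraMap F K)) :
    ∃ (α β γ δ : K) (P1 Q1 : F[X]), α * δ - β * γ ≠ 0 ∧ IsCoprime P1 Q1 ∧
      max P1.natDegree Q1.natDegree = a * (m * b) ∧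
      ∀ x : OnePoint K, rm PA QA a (rm (R.map (algebraMap F K)) (W.map (algebraMap F K)) m
          (rm Pg Qg b (rm (C α * X + C β) (C γ * X + C δ) 1 x))) =
        rm (C α * X + C β) (C γ * X + C δ) 1
          (rm (P1.map (algebraMap F K)) (Q1.map (algebraMap F K)) (a * (m * b)) x) := by
  classical
  have : Infinite F := IsAlgClosed.instInfinite
  obtain ⟨α, β, γ, δ, P0, Q0, hdet, eP, eQ⟩ := rigid ha hb hg hgb hA hAa hl hU hV
  -- `P0, Q0` coprime of degree `a`
  have hcop0' : IsCoprime (P0.map (algebraMap F K)) (Q0.map (algebraMap F K)) := by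
    obtain ⟨u, v, huv⟩ := hA
    refine ⟨u * C α + v * C γ, u * C β + v * C δ, ?_⟩
    rw [← huv, eP, eQ]; ring
  have hcop0 : IsCoprime P0 Q0 := (Polynomial.isCoprime_map _).1 hcop0'
  have hdeg0 : max P0.natDegree Q0.natDegree = a := by
    have hPd : PA.natDegree ≤ a := by rw [← hAa]; exact le_max_left _ _
    have hQd : QA.natDegree ≤ a := by rw [← hAa]; exact le_max_right _ _
    apply le_antisymm
    · have e1 : C (α * δ - β * γ) * P0.map (algebraMap F K) = C δ * PA - C β * QA := by
        rw [eP, eQ]; simp only [C_sub, C_mul]; ring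
      have e2 : C (α * δ - β * γ) * Q0.map (algebraMap F K) = C α * QA - C γ * PA := by
        rw [eP, eQ]; simp only [C_sub, C_mul]; ring
      have d1 := congrArg natDegree e1
      have d2 := congrArg natDegree e2
      rw [natDegree_C_mul hdet, natDegree_map] at d1 d2
      apply max_le
      · rw [d1]
        exact (natDegree_sub_le _ _).trans (max_le ((natDegree_C_mul_le _ _).trans hPd)
          ((natDegree_C_mul_le _ _).trans hQd))
      · rw [d2]
        exact (natDegree_sub_le _ _).trans (max_le ((natDegree_C_mul_le _ _).trans hQd)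
          ((natDegree_C_mul_le _ _).trans hPd))
    · have key : ∀ x y : K, (C x * P0.map (algebraMap F K) +
          C y * Q0.map (algebraMap F K)).natDegree ≤ max P0.natDegree Q0.natDegree := by
        intro x y
        refine (natDegree_add_le _ _).trans (max_le ?_ ?_)
        · refine (natDegree_C_mul_le _ _).trans ?_
          rw [natDegree_map]; exact le_max_left _ _
        · refine (natDegree_C_mul_le _ _).trans ?_
          rw [natDegree_map]; exact le_max_right _ _
      conv_lhs => rw [← hAa]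
      apply max_le
      · rw [eP]; exact key α β
      · rw [eQ]; exact key γ δ
  -- the outer part
  set M : K[X] := C α * X + C β with hM
  set N : K[X] := C γ * X + C δ with hN
  have hMN : IsCoprime M N := iT_mob_coprime hdet
  have hMNd : max M.natDegree N.natDegree = 1 := iT_mob_degree hdet
  set S2 : K[X] := hom b Pg M N with hS2
  set T2 : K[X] := hom b Qg M N with hT2
  have hcop2 : IsCoprime S2 T2 := hom_coprime hg hgb hMN
  have hdeg2 : max S2.natDegree T2.natDegree = b := by
    rw [hS2, hT2, hom_degree hg hgb hMN hMNd, mul_one]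
  -- many values
  have hinf := iT_values (k := F) (E := F) hcop0 (by rw [hdeg0]; exact ha)
  obtain ⟨A, hAsub, hAcard⟩ := hinf.exists_subset_card_eq (2 * b + 1)
  have hno : ∀ c : F, U0.eval c ≠ 0 ∨ V0.eval c ≠ 0 := by
    intro c
    by_contra hcon
    push Not at hcon
    obtain ⟨u, v, huv⟩ := hom_coprime hg hgb hA
    have h1 := congrArg (eval (algebraMap F K c)) huv
    rw [hU, hV] at h1
    simp only [eval_add, eval_mul, eval_map_algebraMap, aeval_algebraMap_apply, coe_aeval_eq_eval,
      hcon.1, hcon.2, eval_one, map_zero, mul_zero, add_zero] at h1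
    exact zero_ne_one h1
  have hval : ∀ c : F, Q0.eval c ≠ 0 → ∀ (W : K[X]) (W0 : F[X]),
      hom b W PA QA = C l * W0.map (algebraMap F K) →
      algebraMap F K (Q0.eval c) ^ b *
        (hom b W M N).eval (algebraMap F K (P0.eval c / Q0.eval c)) =
        l * algebraMap F K (W0.eval c) := by
    intro c hc W W0 hW
    have hc' : algebraMap F K (Q0.eval c) ≠ 0 := by
      rw [Ne, map_eq_zero]; exact hc
    have h1 := congrArg (eval (algebraMap F K c)) hW
    rw [iT_hom_eval, eval_mul, eval_C, eval_map_algebraMap, aeval_algebraMap_apply,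
      coe_aeval_eq_eval] at h1
    rw [← h1, iT_hom_eval, ← iT_form_smul]
    have e1 : algebraMap F K (Q0.eval c) * M.eval (algebraMap F K (P0.eval c / Q0.eval c)) =
        PA.eval (algebraMap F K c) := by
      rw [eP, hM]
      simp only [eval_add, eval_mul, eval_C, eval_X, eval_map_algebraMap, aeval_algebraMap_apply,
        coe_aeval_eq_eval, map_div₀]
      field_simp
    have e2 : algebraMap F K (Q0.eval c) * N.eval (algebraMap F K (P0.eval c / Q0.eval c)) =
        QA.eval (algebraMap F K c) := by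
      rw [eQ, hN]
      simp only [eval_add, eval_mul, eval_C, eval_X, eval_map_algebraMap, aeval_algebraMap_apply,
        coe_aeval_eq_eval, map_div₀]
      field_simp
    rw [e1, e2]
  obtain ⟨l2, S3, T3, hl2, eS2, eT2⟩ := grat (F := F) hcop2 hdeg2 A (by omega) (by
    intro y hy
    obtain ⟨c, hc, rfl⟩ := hAsub hy
    rw [Algebra.algebraMap_self_apply] at hc ⊢
    refine ⟨U0.eval c, V0.eval c, hno c, ?_⟩
    have hc' : algebraMap F K (Q0.eval c) ^ b ≠ 0 := by
      apply pow_ne_zero
      rw [Ne, map_eq_zero]; exact hc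
    apply mul_left_cancel₀ hc'
    have h1 := hval c hc Pg U0 hU
    have h2 := hval c hc Qg V0 hV
    rw [← mul_assoc, ← mul_assoc, h1, h2]
    ring)
  have hcop3' : IsCoprime (S3.map (algebraMap F K)) (T3.map (algebraMap F K)) := by
    have hCl : IsUnit (C l2 : K[X]) := isUnit_C.2 (isUnit_iff_ne_zero.2 hl2)
    rw [eS2, eT2] at hcop2
    exact (isCoprime_mul_unit_left hCl _ _).1 hcop2
  have hcop3 : IsCoprime S3 T3 := (Polynomial.isCoprime_map _).1 hcop3'
  have hdeg3 : max S3.natDegree T3.natDegree = b := by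
    rw [eS2, eT2, natDegree_C_mul hl2, natDegree_C_mul hl2, natDegree_map, natDegree_map] at hdeg2
    exact hdeg2
  have hdeg3' : max (S3.map (algebraMap F K)).natDegree (T3.map (algebraMap F K)).natDegree = b := by
    rw [natDegree_map, natDegree_map, hdeg3]
  have hdeg0' : max (P0.map (algebraMap F K)).natDegree (Q0.map (algebraMap F K)).natDegree = a := by
    rw [natDegree_map, natDegree_map, hdeg0]
  have hRW' : IsCoprime (R.map (algebraMap F K)) (W.map (algebraMap F K)) :=
    (Polynomial.isCoprime_map _).2 hRW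
  have hRWm' : max (R.map (algebraMap F K)).natDegree (W.map (algebraMap F K)).natDegree = m := by
    rw [natDegree_map, natDegree_map, hRWm]
  have hcop4 : IsCoprime (hom m R S3 T3) (hom m W S3 T3) := hom_coprime hRW hRWm hcop3
  have hdeg4 : max (hom m R S3 T3).natDegree (hom m W S3 T3).natDegree = m * b :=
    hom_degree hRW hRWm hcop3 hdeg3
  refine ⟨α, β, γ, δ, hom a P0 (hom m R S3 T3) (hom m W S3 T3),
    hom a Q0 (hom m R S3 T3) (hom m W S3 T3), hdet, hom_coprime hcop0 hdeg0 hcop4,
    hom_degree hcop0 hdeg0 hcop4 hdeg4, ?_⟩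
  intro x
  rw [hom_map _ a P0, hom_map _ a Q0, hom_map _ m R, hom_map _ m W,
    rm_comp hcop0' hdeg0' (hom_coprime hRW' hRWm' hcop3') (hom_degree hRW' hRWm' hcop3' hdeg3'),
    rm_comp hRW' hRWm' hcop3' hdeg3',
    ← iT_rm_C_mul hl2 (S3.map (algebraMap F K)), ← eS2, ← eT2]
  have h1 : rm S2 T2 b x = rm Pg Qg b (rm M N 1 x) := by
    have := rm_comp hg hgb hMN hMNd x
    rw [mul_one] at this
    exact this
  rw [h1]
  have h2 : ∀ w : OnePoint K, rm M N 1 (rm (P0.map (algebraMap F K)) (Q0.map (algebraMap F K)) a w) =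
      rm PA QA a w := by
    intro w
    rw [← rm_comp hMN hMNd hcop0' hdeg0' w, one_mul, hM, hN, iT_hom_one, iT_hom_one, ← eP, ← eQ]
  rw [h2]

/-- `dickson 1 1 m` is monic of degree `m` for `m ≥ 1`. -/
theorem dickson_aux {L : Type*} [Field L] (n : ℕ) :
    ((dickson 1 (1 : L) (n + 1)).natDegree ≤ n + 1 ∧ (dickson 1 (1 : L) (n + 1)).coeff (n + 1) = 1) ∧
      (dickson 1 (1 : L) (n + 2)).natDegree ≤ n + 2 ∧
        (dickson 1 (1 : L) (n + 2)).coeff (n + 2) = 1 := by
  induction n with
  | zero =>
    refine ⟨⟨?_, ?_⟩, ?_, ?_⟩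
    · rw [zero_add, dickson_one]; exact natDegree_X_le
    · rw [zero_add, dickson_one, coeff_X_one]
    · rw [zero_add, dickson_two]
      refine (natDegree_sub_le _ _).trans (max_le ?_ ?_)
      · rw [natDegree_X_pow]
      · refine (natDegree_mul_le).trans ?_
        rw [natDegree_C]
        have h3 : ((3 : L[X]) - ((1 : ℕ) : L[X])).natDegree = 0 := by
          have : ((3 : L[X]) - ((1 : ℕ) : L[X])) = C 2 := by
            rw [Nat.cast_one, map_ofNat]; norm_num
          rw [this, natDegree_C]
        rw [h3]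
        omega
    · rw [zero_add, dickson_two, coeff_sub, coeff_X_pow, if_pos rfl, coeff_C_mul]
      have h3 : ((3 : L[X]) - ((1 : ℕ) : L[X])).coeff 2 = 0 := by
        have : ((3 : L[X]) - ((1 : ℕ) : L[X])) = C 2 := by
          rw [Nat.cast_one, map_ofNat]; norm_num
        rw [this, coeff_C, if_neg (by norm_num)]
      rw [h3, mul_zero, sub_zero]
  | succ n ih =>
    obtain ⟨⟨h1, h2⟩, h3, h4⟩ := ih
    refine ⟨⟨h3, h4⟩, ?_, ?_⟩
    · rw [dickson_add_two]
      refine (natDegree_sub_le _ _).trans (max_le ?_ ?_)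
      · refine natDegree_mul_le.trans ?_
        rw [natDegree_X]
        have h3' : (dickson 1 (1 : L) (n + 1 + 1)).natDegree ≤ n + 2 := h3
        omega
      · refine natDegree_mul_le.trans ?_
        rw [natDegree_C]
        omega
    · rw [dickson_add_two, coeff_sub, show n + 1 + 2 = (n + 2) + 1 by omega, coeff_X_mul,
        coeff_C_mul, show n + 1 + 1 = n + 2 by omega, h4,
        coeff_eq_zero_of_natDegree_lt (by omega), mul_zero, sub_zero]

theorem dickson_natDegree {L : Type*} [Field L] {m : ℕ} (hm : 1 ≤ m) :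
    (dickson 1 (1 : L) m).natDegree = m := by
  obtain ⟨n, rfl⟩ : ∃ n, m = n + 1 := ⟨m - 1, by omega⟩
  obtain ⟨⟨h1, h2⟩, -⟩ := dickson_aux (L := L) n
  exact le_antisymm h1 (le_natDegree_of_ne_zero (by rw [h2]; exact one_ne_zero))

theorem dickson_pair_degree {L : Type*} [Field L] {m : ℕ} (hm : 1 ≤ m) :
    max (dickson 1 (1 : L) m).natDegree (1 : L[X]).natDegree = m := by
  rw [dickson_natDegree hm, natDegree_one, max_eq_left (Nat.zero_le _)]

theorem iso_dickson {F K : Type*} [Field F] [IsAlgClosed F] [Field K] [Algebra F K] {a b m : ℕ}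
    (ha : 1 ≤ a) (hb : 1 ≤ b) (hm : 1 ≤ m) {PA QA Pg Qg : K[X]} (hA : IsCoprime PA QA)
    (hAa : max PA.natDegree QA.natDegree = a) (hg : IsCoprime Pg Qg)
    (hgb : max Pg.natDegree Qg.natDegree = b) {l : K} (hl : l ≠ 0) {U0 V0 : F[X]}
    (hU : hom b Pg PA QA = C l * U0.map (algebraMap F K))
    (hV : hom b Qg PA QA = C l * V0.map (algebraMap F K)) :
    ∃ (α β γ δ : K) (P1 Q1 : F[X]), α * δ - β * γ ≠ 0 ∧ IsCoprime P1 Q1 ∧
      max P1.natDegree Q1.natDegree = a * (m * b) ∧
      ∀ x : OnePoint K, rm PA QA a (rm (dickson 1 1 m) 1 m (rm Pg Qg b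
          (rm (C α * X + C β) (C γ * X + C δ) 1 x))) =
        rm (C α * X + C β) (C γ * X + C δ) 1
          (rm (P1.map (algebraMap F K)) (Q1.map (algebraMap F K)) (a * (m * b)) x) := by
  have h := iso_mid (F := F) (m := m) ha hb (R := dickson 1 (1 : F) m) (W := 1)
    isCoprime_one_right (dickson_pair_degree hm) hA hAa hg hgb hl hU hV
  rw [Polynomial.map_dickson, map_one, Polynomial.map_one] at h
  exact h

end Pool.Agent.Lib.P62c
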