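import Pool.Agent.Lib.P62c.DefU
import Pool.Agent.Lib.P62c.IsoTT
import Pool.Agent.Lib.P62h.DescA

/-!
# Module P62c.ToPow: when the inner factor is `n/d + d/n`, the map factors through a power
-/

namespace Pool.Agent.Lib.P62c

open Polynomial Pool.Agent.Lib.P62a0c3 Pool.Agent.Lib.P62h

theorem toPow_hom_sq {L : Type*} [Field L] (A B : L[X]) :
    hom 2 (X ^ 2 + 1 : L[X]) A B = A ^ 2 + B ^ 2 := by
  unfold hom
  rw [Finset.sum_range_succ, Finset.sum_range_succ, Finset.sum_range_one]
  simp [coeff_X_pow, coeff_one]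
  ring

theorem toPow_hom_X {L : Type*} [Field L] (A B : L[X]) :
    hom 2 (X : L[X]) A B = A * B := by
  unfold hom
  rw [Finset.sum_range_succ, Finset.sum_range_succ, Finset.sum_range_one]
  simp [coeff_X]

theorem toPow_pair (L : Type*) [Field L] : IsCoprime (X ^ 2 + 1 : L[X]) X :=
  ⟨1, -X, by ring⟩

theorem toPow_deg (L : Type*) [Field L] :
    max (X ^ 2 + 1 : L[X]).natDegree (X : L[X]).natDegree = 2 := by
  have hA : (X ^ 2 + 1 : L[X]).natDegree = 2 := by
    have := natDegree_X_pow_add_C (R := L) (n := 2) (r := 1)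
    rwa [C_1] at this
  rw [hA, natDegree_X]; rfl

theorem toPow_semi {K : Type*} [Field K] {m : ℕ} (hm : 1 ≤ m) (y : OnePoint K) :
    rm (dickson 1 (1 : K) m) 1 m (rm (X ^ 2 + 1) X 2 y) =
      rm (X ^ 2 + 1) X 2 (rm (X ^ m) 1 m y) := by
  have hinf : rm (dickson 1 (1 : K) m) 1 m OnePoint.infty = OnePoint.infty := by
    rw [rm_infty, toP1, if_pos]
    rw [coeff_one, if_neg (by omega)]
  have hq : rm (X ^ 2 + 1 : K[X]) X 2 OnePoint.infty = OnePoint.infty := by
    rw [rm_infty, toP1, if_pos]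
    rw [coeff_X, if_neg (by norm_num)]
  induction y using OnePoint.rec with
  | infty =>
    have hp : rm (X ^ m : K[X]) 1 m OnePoint.infty = OnePoint.infty := by
      rw [rm_infty, toP1, if_pos]
      rw [coeff_one, if_neg (by omega)]
    rw [hq, hp, hinf, hq]
  | coe z =>
    by_cases hz : z = 0
    · subst hz
      have h1 : rm (X ^ 2 + 1 : K[X]) X 2 ((0 : K) : OnePoint K) = OnePoint.infty := by
        rw [rm_some, toP1, if_pos]
        rw [eval_X]
      have h2 : rm (X ^ m : K[X]) 1 m ((0 : K) : OnePoint K) = ((0 : K) : OnePoint K) := by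
        rw [rm_some, toP1, if_neg (by rw [eval_one]; exact one_ne_zero), eval_pow, eval_X,
          zero_pow (by omega), zero_div]
      rw [h2, h1, hinf]
    · have hzm : z ^ m ≠ 0 := pow_ne_zero m hz
      have h1 : rm (X ^ 2 + 1 : K[X]) X 2 (z : OnePoint K) = ((z + z⁻¹ : K) : OnePoint K) := by
        rw [rm_some, toP1, if_neg (by rw [eval_X]; exact hz), eval_add, eval_pow, eval_X, eval_one]
        congr 1
        field_simp
      have h2 : rm (X ^ m : K[X]) 1 m (z : OnePoint K) = ((z ^ m : K) : OnePoint K) := by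
        rw [rm_some, toP1, if_neg (by rw [eval_one]; exact one_ne_zero), eval_pow, eval_X,
          eval_one, div_one]
      have h3 : rm (X ^ 2 + 1 : K[X]) X 2 ((z ^ m : K) : OnePoint K) =
          ((z ^ m + (z ^ m)⁻¹ : K) : OnePoint K) := by
        rw [rm_some, toP1, if_neg (by rw [eval_X]; exact hzm), eval_add, eval_pow, eval_X, eval_one]
        congr 1
        field_simp
      rw [h1, h2, h3, rm_some, toP1, if_neg (by rw [eval_one]; exact one_ne_zero), eval_one,
        div_one, dickson_one_one_eval_add_inv _ _ (mul_inv_cancel₀ hz), inv_pow]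

theorem to_power {K : Type*} [Field K] [IsAlgClosed K] [CharZero K] {a b m : ℕ} (ha : 1 ≤ a)
    (hb : 1 ≤ b) (hm : 1 ≤ m) {PA QA p q n d : K[X]} (hA : IsCoprime PA QA)
    (hAa : max PA.natDegree QA.natDegree = a) (hg : IsCoprime p q)
    (hgb : max p.natDegree q.natDegree = b) (hnd : IsCoprime n d) (hn : n ≠ 0) (hd : d ≠ 0)
    (h : p * (n * d) = (n ^ 2 + d ^ 2) * q) :
    ∃ (b' : ℕ) (PB QB : K[X]), b = 2 * b' ∧ 1 ≤ b' ∧ IsCoprime PB QB ∧
      max PB.natDegree QB.natDegree = a * 2 ∧ max n.natDegree d.natDegree = b' ∧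
      ∀ x : OnePoint K, rm PA QA a (rm (dickson 1 (1 : K) m) 1 m (rm p q b x)) =
        rm PB QB (a * 2) (rm (X ^ m) 1 m (rm n d b' x)) := by
  have hcop := hom_coprime (toPow_pair K) (toPow_deg K) hnd
  have hdeg := hom_degree (toPow_pair K) (toPow_deg K) hnd rfl
  rw [toPow_hom_sq, toPow_hom_X] at hcop hdeg
  obtain ⟨l, hl, e1, e2⟩ : ∃ l : K, l ≠ 0 ∧ p = C l * (n ^ 2 + d ^ 2) ∧ q = C l * (n * d) := by
    refine rm_inj (d := 0) (d' := 0) hcop hg ?_
    intro z
    rw [rm_some, rm_some]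
    have hx := congrArg (eval z) h
    rw [eval_mul, eval_mul (p := n ^ 2 + d ^ 2)] at hx
    have hab : (n ^ 2 + d ^ 2).eval z ≠ 0 ∨ (n * d).eval z ≠ 0 := HomAAux.not_both _ _ hcop z
    have hpq : p.eval z ≠ 0 ∨ q.eval z ≠ 0 := HomAAux.not_both _ _ hg z
    unfold toP1
    by_cases h0 : (n * d).eval z = 0
    · have hq0 : q.eval z = 0 := by
        rw [h0, mul_zero] at hx
        rcases hab with h5 | h5
        · exact (mul_eq_zero.1 hx.symm).resolve_left h5
        · exact absurd h0 h5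
      rw [if_pos h0, if_pos hq0]
    · have hq0 : q.eval z ≠ 0 := by
        intro h6
        rw [h6, mul_zero] at hx
        rcases hpq with h5 | h5
        · exact (mul_ne_zero h5 h0) hx
        · exact h5 h6
      rw [if_neg h0, if_neg hq0]
      congr 1
      rw [div_eq_div_iff h0 hq0]
      exact hx.symm
  set b' := max n.natDegree d.natDegree with hb'
  have hbb : b = 2 * b' := by
    rw [← hgb, e1, e2, natDegree_C_mul hl, natDegree_C_mul hl, hdeg]
  have hcB := hom_coprime hA hAa (toPow_pair K)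
  have hdB := hom_degree hA hAa (toPow_pair K) (toPow_deg K)
  refine ⟨b', hom a PA (X ^ 2 + 1) X, hom a QA (X ^ 2 + 1) X, hbb, by omega, hcB, hdB, rfl, ?_⟩
  intro x
  rw [rm_comp hA hAa (toPow_pair K) (toPow_deg K), ← toPow_semi hm]
  have h7 := rm_comp (toPow_pair K) (toPow_deg K) hnd hb'.symm x
  rw [toPow_hom_sq, toPow_hom_X] at h7
  rw [← h7, e1, e2, iT_rm_C_mul hl, hbb]

end Pool.Agent.Lib.P62c
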