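import Pool.Agent.Lib.P62c.DefU
import Pool.Agent.Lib.P62c.IsoTT
import Pool.Agent.Lib.P62h.DescA

/-!
# Module P62c.ZeroT: poles of the inner factor have small degree

The analogue of `P62h.zero_degree` for `f = A ∘ T_m ∘ g`: the poles of `g` are algebraic of degree at
most `2 a b` over the ground field, since `g^(-1)(∞)` is totally ramified in `T_m ∘ g`.
-/

namespace Pool.Agent.Lib.P62c

open Polynomial Pool.Agent.Lib.P62a0c3 Pool.Agent.Lib.P62h

theorem composeT {k K : Type*} [Field k] [CharZero k] [Field K] [Algebra k K] {a b m : ℕ}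
    (hm : 1 ≤ m) {P Q : k[X]} (hPQ : IsCoprime P Q) {PA QA Pg Qg : K[X]}
    (hA : IsCoprime PA QA) (hAa : max PA.natDegree QA.natDegree = a) (hg : IsCoprime Pg Qg)
    (hgb : max Pg.natDegree Qg.natDegree = b)
    (hf : ∀ x : OnePoint K, rm (P.map (algebraMap k K)) (Q.map (algebraMap k K)) (a * (m * b)) x =
      rm PA QA a (rm (dickson 1 (1 : K) m) 1 m (rm Pg Qg b x))) :
    ∃ l : K, l ≠ 0 ∧
      P.map (algebraMap k K) = C l * hom a PA (hom m (dickson 1 (1 : K) m) Pg Qg) (Qg ^ m) ∧
      Q.map (algebraMap k K) = C l * hom a QA (hom m (dickson 1 (1 : K) m) Pg Qg) (Qg ^ m) := by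
  have : CharZero K := charZero_of_injective_algebraMap (FaithfulSMul.algebraMap_injective k K)
  have hc : IsCoprime (P.map (algebraMap k K)) (Q.map (algebraMap k K)) :=
    (Polynomial.isCoprime_map _).2 hPQ
  have hd := dickson_pair_degree (L := K) hm
  have hpw : IsCoprime (hom m (dickson 1 (1 : K) m) Pg Qg) (Qg ^ m) := by
    have := hom_coprime (P := dickson 1 (1 : K) m) (Q := 1) isCoprime_one_right hd hg
    rwa [dA_hom_one] at this
  have hdd : max (hom m (dickson 1 (1 : K) m) Pg Qg).natDegree (Qg ^ m).natDegree = m * b := by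
    have := hom_degree (P := dickson 1 (1 : K) m) (Q := 1) isCoprime_one_right hd hg hgb
    rwa [dA_hom_one] at this
  refine rm_inj (d := a * (m * b)) (d' := a * (m * b)) (hom_coprime hA hAa hpw) hc ?_
  intro z
  have h1 := rm_comp (P := dickson 1 (1 : K) m) (Q := 1) isCoprime_one_right hd hg hgb
    (z : OnePoint K)
  rw [dA_hom_one] at h1
  rw [hf, rm_comp hA hAa hpw hdd, h1]

theorem zero_degreeT {k K : Type*} [Field k] [CharZero k] [Field K] [Algebra k K] {a b m : ℕ}
    (ha : 1 ≤ a) (hb : 1 ≤ b) (hm : 2 * (a * b) < m) {P Q : k[X]} (hPQ : IsCoprime P Q)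
    (hd : max P.natDegree Q.natDegree = a * (m * b)) {PA QA Pg Qg : K[X]}
    (hA : IsCoprime PA QA) (hAa : max PA.natDegree QA.natDegree = a) (hg : IsCoprime Pg Qg)
    (hgb : max Pg.natDegree Qg.natDegree = b)
    (hf : ∀ x : OnePoint K, rm (P.map (algebraMap k K)) (Q.map (algebraMap k K)) (a * (m * b)) x =
      rm PA QA a (rm (dickson 1 (1 : K) m) 1 m (rm Pg Qg b x)))
    (z : K) (hz : Qg.eval z = 0) :
    IsIntegral k z ∧ (minpoly k z).natDegree ≤ 2 * (a * b) := by
  have hab : 1 ≤ a * b := Nat.mul_pos ha hb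
  obtain ⟨κ, hκ, eP, eQ⟩ := composeT (by omega) hPQ hA hAa hg hgb hf
  set M : K[X] := hom m (dickson 1 (1 : K) m) Pg Qg with hM
  set W : k[X] := derivative P * Q - P * derivative Q with hW
  have hd1 : 1 ≤ a * (m * b) := Nat.mul_pos ha (Nat.mul_pos (by omega) hb)
  -- (1)
  have hW0 : W ≠ 0 := by
    intro h0
    rw [hW, sub_eq_zero] at h0
    have hQ : derivative Q = 0 := by
      rw [← dvd_derivative_iff]
      refine hPQ.symm.dvd_of_dvd_mul_left ?_
      rw [← h0]; exact Dvd.intro_left _ rfl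
    have hP : derivative P = 0 := by
      rw [← dvd_derivative_iff]
      refine hPQ.dvd_of_dvd_mul_right ?_
      rw [h0]; exact Dvd.intro _ rfl
    have h1 := natDegree_eq_zero_of_derivative_eq_zero hP
    have h2 := natDegree_eq_zero_of_derivative_eq_zero hQ
    rw [h1, h2] at hd
    simp at hd
    omega
  -- (2)
  have hWdeg : W.natDegree ≤ 2 * (a * (m * b)) - 1 := by
    have hPd : P.natDegree ≤ a * (m * b) := by rw [← hd]; exact le_max_left _ _
    have hQd : Q.natDegree ≤ a * (m * b) := by rw [← hd]; exact le_max_right _ _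
    have key : ∀ U V : k[X], U.natDegree ≤ a * (m * b) → V.natDegree ≤ a * (m * b) →
        (derivative U * V).natDegree ≤ 2 * (a * (m * b)) - 1 := by
      intro U V hU hV
      rcases Nat.eq_zero_or_pos U.natDegree with h | h
      · rw [derivative_of_natDegree_zero h]; simp
      · have h1 := natDegree_derivative_le U
        have h2 := natDegree_mul_le (p := derivative U) (q := V)
        omega
    rw [hW]
    refine (natDegree_sub_le _ _).trans (max_le (key P Q hPd hQd) ?_)
    rw [mul_comm]; exact key Q P hQd hPd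
  -- (3)
  have hdvd : (X - C z) ^ (m - 1) ∣ W.map (algebraMap k K) := by
    have hWm : W.map (algebraMap k K) = derivative (P.map (algebraMap k K)) *
        Q.map (algebraMap k K) - P.map (algebraMap k K) * derivative (Q.map (algebraMap k K)) := by
      rw [hW, Polynomial.map_sub, Polynomial.map_mul, Polynomial.map_mul, derivative_map,
        derivative_map]
    rw [hWm]
    have hne : PA.coeff a ≠ 0 ∨ QA.coeff a ≠ 0 := by
      rcases max_choice PA.natDegree QA.natDegree with h | h
      · left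
        have h3 : PA.natDegree = a := by rw [← hAa]; exact h.symm
        have hne0 : PA ≠ 0 := by
          rintro rfl; simp at h3; omega
        rw [← h3]; exact leadingCoeff_ne_zero.2 hne0
      · right
        have h3 : QA.natDegree = a := by rw [← hAa]; exact h.symm
        have hne0 : QA ≠ 0 := by
          rintro rfl; simp at h3; omega
        rw [← h3]; exact leadingCoeff_ne_zero.2 hne0
    refine dA_wronski (p := PA.coeff a) (q := QA.coeff a) hne ?_
    have hX : (X - C z) ^ m ∣ Qg ^ m := pow_dvd_pow_of_dvd (dvd_iff_isRoot.2 hz) m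
    have h1 := hX.trans (dA_hom_dvd_right a PA M (Qg ^ m))
    have h2 := hX.trans (dA_hom_dvd_right a QA M (Qg ^ m))
    rw [eP, eQ]
    have e : C (QA.coeff a) * (C κ * hom a PA M (Qg ^ m)) -
        C (PA.coeff a) * (C κ * hom a QA M (Qg ^ m)) =
        C (QA.coeff a) * C κ * (hom a PA M (Qg ^ m) - C (PA.coeff a) * M ^ a) -
        C (PA.coeff a) * C κ * (hom a QA M (Qg ^ m) - C (QA.coeff a) * M ^ a) := by
      ring
    rw [e]
    exact dvd_sub (Dvd.dvd.mul_left h1 _) (Dvd.dvd.mul_left h2 _)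
  -- (4)
  have hint : IsIntegral k z := by
    apply IsAlgebraic.isIntegral
    refine ⟨W, hW0, ?_⟩
    have h1 : (X - C z) ∣ W.map (algebraMap k K) :=
      (dvd_pow_self _ (by omega)).trans hdvd
    rw [dvd_iff_isRoot, IsRoot.def, eval_map_algebraMap] at h1
    exact h1
  refine ⟨hint, ?_⟩
  have hμ := natDegree_le_of_dvd (dA_minpoly_pow hint (m - 1) W hdvd) hW0
  rw [natDegree_pow] at hμ
  have h5 := hμ.trans hWdeg
  by_contra hcon
  push Not at hcon
  obtain ⟨t, ht⟩ : ∃ t, m = 2 * (a * b) + 1 + t := ⟨m - (2 * (a * b) + 1), by omega⟩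
  obtain ⟨n, hn⟩ : ∃ n, (minpoly k z).natDegree = 2 * (a * b) + 1 + n :=
    ⟨(minpoly k z).natDegree - (2 * (a * b) + 1), by omega⟩
  have h6 : a * (m * b) = m * (a * b) := by ring
  rw [h6, hn, ht] at h5
  generalize a * b = c at *
  have h7 : 1 ≤ 2 * ((2 * c + 1 + t) * c) := by nlinarith
  have h8 : (2 * c + 1 + t - 1) * (2 * c + 1 + n) + 1 ≤ 2 * ((2 * c + 1 + t) * c) := by omega
  have h9 : 2 * c + 1 + t - 1 = 2 * c + t := by omega
  rw [h9] at h8
  nlinarith [Nat.zero_le (t * n), Nat.zero_le (c * n), Nat.zero_le (c * t)]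

end Pool.Agent.Lib.P62c
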