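import Pool.Agent.Lib.P62c.DescT
import Pool.Agent.Lib.P62c.ToPow
import Pool.Agent.Lib.P62c.ZeroT

/-!
# Descent of a decomposition through a Chebyshev polynomial, conclusion
-/

namespace Pool.Agent.Lib.P62c

open Polynomial IntermediateField Pool.Agent.Lib.P62a0c3 Pool.Agent.Lib.P62h
  Pool.Agent.Lib.P62h.HomAAux

theorem descT1 {k K : Type*} [Field k] [CharZero k] [Field K] [Algebra k K] [IsAlgClosed K]
    [Algebra.IsAlgebraic k K] {a b m : ℕ} (ha : 1 ≤ a) (hb : 1 ≤ b) (hm : 8 * (a * b) < m)
    {P Q : k[X]} (hPQ : IsCoprime P Q) (hd : max P.natDegree Q.natDegree = a * (m * b))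
    {PA QA Pg Qg : K[X]} (hA : IsCoprime PA QA) (hAa : max PA.natDegree QA.natDegree = a)
    (hg : IsCoprime Pg Qg) (hgb : max Pg.natDegree Qg.natDegree = b)
    (hf : ∀ x : OnePoint K, rm (P.map (algebraMap k K)) (Q.map (algebraMap k K)) (a * (m * b)) x =
      rm PA QA a (rm (dickson 1 (1 : K) m) 1 m (rm Pg Qg b x)))
    (x0 : K) (hx0 : Qg.eval x0 = 0) :
    AltPow a b m (rm (P.map (algebraMap k K)) (Q.map (algebraMap k K)) (a * (m * b))) ∨
      AltExt k a b m (2 * (a * b) * 2)
        (rm (P.map (algebraMap k K)) (Q.map (algebraMap k K)) (a * (m * b))) := by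
  classical
  have : CharZero K := charZero_of_injective_algebraMap (FaithfulSMul.algebraMap_injective k K)
  have hab : b ≤ a * b := Nat.le_mul_of_pos_left b ha
  have hm1 : 1 ≤ m := by omega
  have hQg0 : Qg ≠ 0 := by
    rintro rfl
    have h1 : IsUnit Pg := isCoprime_zero_right.1 hg
    rw [natDegree_eq_zero_of_isUnit h1, natDegree_zero] at hgb
    simp at hgb
    omega
  -- monic denominator
  set κ := Qg.leadingCoeff with hκ
  have hκ0 : κ ≠ 0 := leadingCoeff_ne_zero.2 hQg0
  have hκi : κ⁻¹ ≠ 0 := inv_ne_zero hκ0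
  set p : K[X] := C κ⁻¹ * Pg with hp
  set q : K[X] := C κ⁻¹ * Qg with hq
  have hCκ : IsUnit (C κ⁻¹ : K[X]) := isUnit_C.2 (isUnit_iff_ne_zero.2 hκi)
  have hqm : q.Monic := by
    rw [Monic, hq, leadingCoeff_mul, leadingCoeff_C]
    exact inv_mul_cancel₀ hκ0
  have hpq : IsCoprime p q := (isCoprime_mul_unit_left hCκ _ _).2 hg
  have hpqb : max p.natDegree q.natDegree = b := by
    rw [hp, hq, natDegree_C_mul hκi, natDegree_C_mul hκi]; exact hgb
  have hqx : q.eval x0 = 0 := by rw [hq, eval_mul, hx0, mul_zero]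
  have hf' : ∀ x : OnePoint K, rm (P.map (algebraMap k K)) (Q.map (algebraMap k K))
      (a * (m * b)) x = rm PA QA a (rm (dickson 1 (1 : K) m) 1 m (rm p q b x)) := by
    intro x
    rw [hf, hp, hq, iT_rm_C_mul hκi]
  obtain ⟨l, hl, eP, eQ⟩ := composeT hm1 hPQ hA hAa hpq hpqb hf'
  obtain ⟨hint, hdeg⟩ := zero_degreeT ha hb (by omega) hPQ hd hA hAa hpq hpqb hf' x0 hqx
  have hPQK : IsCoprime (P.map (algebraMap k K)) (Q.map (algebraMap k K)) :=
    (Polynomial.isCoprime_map _).2 hPQ
  by_cases hpow : ∃ n d : K[X], IsCoprime n d ∧ n ≠ 0 ∧ d ≠ 0 ∧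
      p * (n * d) = (n ^ 2 + d ^ 2) * q
  · left
    obtain ⟨n, d, hnd, hn, hd', heq⟩ := hpow
    obtain ⟨b', PB, QB, h1, h2, h3, h4, h5, h6⟩ :=
      to_power (m := m) ha hb hm1 hA hAa hpq hpqb hnd hn hd' heq
    refine ⟨b', PB, QB, n, d, h1, h2, h3, h4, hnd, h5, fun x => ?_⟩
    rw [hf' x, h6 x]
  · right
    set E0 : IntermediateField k K := k⟮x0⟯ with hE0
    have hfr : Module.finrank k E0 = (minpoly k x0).natDegree :=
      IntermediateField.adjoin.finrank hint
    have halg : Algebra.IsAlgebraic E0 K := Algebra.IsAlgebraic.tower_top (K := k) E0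
    have hclo : IsAlgClosure E0 K := ⟨inferInstance, halg⟩
    have hsep : Algebra.IsSeparable E0 K := inferInstance
    have hnor : Normal E0 K := IsAlgClosure.normal E0 K
    have hgal : IsGalois E0 K := ⟨⟩
    have hσk : ∀ (σ : K ≃ₐ[E0] K) (c : k), σ (algebraMap k K c) = algebraMap k K c := by
      intro σ c
      have h1 : algebraMap k K c = algebraMap E0 K (algebraMap k E0 c) := rfl
      rw [h1]
      exact σ.commutes _
    have hσP : ∀ (σ : K ≃ₐ[E0] K) (F : k[X]),
        (F.map (algebraMap k K)).map (σ : K →+* K) = F.map (algebraMap k K) := by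
      intro σ F
      rw [Polynomial.map_map]
      congr 1
      exact RingHom.ext fun c => hσk σ c
    have hσx : ∀ σ : K ≃ₐ[E0] K, (σ : K →+* K) x0 = x0 := by
      intro σ
      have h1 : x0 = algebraMap E0 K ⟨x0, IntermediateField.mem_adjoin_simple_self k x0⟩ := rfl
      change σ x0 = x0
      conv_lhs => rw [h1]
      rw [σ.commutes]
      rfl
    have hp0 : p ≠ 0 := by
      intro h0
      rw [h0] at hpq hpqb
      have h1 : IsUnit q := isCoprime_zero_left.1 hpq
      rw [natDegree_eq_zero_of_isUnit h1, natDegree_zero] at hpqb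
      simp at hpqb
      omega
    obtain ⟨c, d, p0, q0, hc0, hcd, ep, eq⟩ := galois_pair (E0 := E0) (p := p) (q := q) hp0
      (fun σ => (galT ha hb (by omega) hPQK hl hA hAa hpq hpqb hqm eP eQ hqx (σ : K →+* K)
        (hσP σ P) (hσP σ Q) (hσx σ)).resolve_right hpow)
    obtain ⟨hE1, hE2⟩ := finrank_quad (N := 2 * (a * b)) E0
      (by rw [hfr]; exact minpoly.natDegree_pos hint) (by rw [hfr]; exact hdeg) c d hcd
    set E : IntermediateField k K :=
      restrictScalars k (IntermediateField.adjoin E0 ({c} : Set K)) with hE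
    have hcE : c ∈ E := IntermediateField.subset_adjoin E0 ({c} : Set K) rfl
    let j : E0 →+* E := (algebraMap E0 (IntermediateField.adjoin E0 ({c} : Set K)) :
      E0 →+* (IntermediateField.adjoin E0 ({c} : Set K)))
    have hj : (algebraMap E K).comp j = algebraMap E0 K := rfl
    set Pg' : E[X] := C ⟨c, hcE⟩ * p0.map j with hPg'
    set Qg' : E[X] := q0.map j with hQg'
    have e1 : Pg'.map (algebraMap E K) = p := by
      rw [hPg', Polynomial.map_mul, map_C, Polynomial.map_map, hj, ep]
      rfl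
    have e2 : Qg'.map (algebraMap E K) = q := by
      rw [hQg', Polynomial.map_map, hj, eq]
    have hg' : IsCoprime Pg' Qg' := by
      rw [← Polynomial.isCoprime_map (algebraMap E K), e1, e2]; exact hpq
    have hgb' : max Pg'.natDegree Qg'.natDegree = b := by
      rw [← natDegree_map (algebraMap E K), ← natDegree_map (algebraMap E K) (p := Qg'), e1, e2]
      exact hpqb
    obtain ⟨PA', QA', h1, h2, h3⟩ := outer_desc hb hm1 hPQ hA hAa E hg' hgb' (by
      intro x
      rw [e1, e2]
      exact hf' x)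
    refine ⟨E, hE1, hE2, PA', QA', Pg', Qg', h1, h2, hg', hgb', fun x => ?_⟩
    rw [← h3, e1, e2]
    exact hf' x

/-- The map `x ↦ 1 / x`. -/
theorem inv_inv' {L : Type*} [Field L] (x : OnePoint L) :
    rm (1 : L[X]) X 1 (rm (1 : L[X]) X 1 x) = x := by
  induction x using OnePoint.rec with
  | infty =>
    have h1 : rm (1 : L[X]) X 1 OnePoint.infty = ((0 : L) : OnePoint L) := by
      rw [rm_infty, coeff_X_one, coeff_one, if_neg (by omega)]
      unfold toP1
      rw [if_neg one_ne_zero, zero_div]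
    rw [h1, rm_some, eval_one, eval_X]
    unfold toP1
    rw [if_pos rfl]
  | coe z =>
    by_cases hz : z = 0
    · subst hz
      have h1 : rm (1 : L[X]) X 1 ((0 : L) : OnePoint L) = OnePoint.infty := by
        rw [rm_some, eval_one, eval_X]
        unfold toP1
        rw [if_pos rfl]
      rw [h1, rm_infty, coeff_X_one, coeff_one, if_neg (by omega)]
      unfold toP1
      rw [if_neg one_ne_zero, zero_div]
    · have h1 : rm (1 : L[X]) X 1 (z : OnePoint L) = ((1 / z : L) : OnePoint L) := by
        rw [rm_some, eval_one, eval_X]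
        unfold toP1
        rw [if_neg hz]
      rw [h1, rm_some, eval_one, eval_X]
      unfold toP1
      rw [if_neg (one_div_ne_zero hz), one_div_one_div]

theorem descT {k K : Type*} [Field k] [CharZero k] [Field K] [Algebra k K] [IsAlgClosed K]
    [Algebra.IsAlgebraic k K] {a b m : ℕ} (ha : 1 ≤ a) (hb : 1 ≤ b) (hm : 8 * (a * b) < m)
    {P Q : k[X]} (hPQ : IsCoprime P Q) (hd : max P.natDegree Q.natDegree = a * (m * b))
    {PA QA Pg Qg : K[X]} (hA : IsCoprime PA QA) (hAa : max PA.natDegree QA.natDegree = a)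
    (hg : IsCoprime Pg Qg) (hgb : max Pg.natDegree Qg.natDegree = b)
    (hf : ∀ x : OnePoint K, rm (P.map (algebraMap k K)) (Q.map (algebraMap k K)) (a * (m * b)) x =
      rm PA QA a (rm (dickson 1 (1 : K) m) 1 m (rm Pg Qg b x))) :
    AltPow a b m (rm (P.map (algebraMap k K)) (Q.map (algebraMap k K)) (a * (m * b))) ∨
      AltExt k a b m (2 * (a * b) * 2)
        (rm (P.map (algebraMap k K)) (Q.map (algebraMap k K)) (a * (m * b))) := by
  classical
  by_cases hroot : ∃ x0, Qg.eval x0 = 0
  · obtain ⟨x0, hx0⟩ := hroot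
    exact descT1 ha hb hm hPQ hd hA hAa hg hgb hf x0 hx0
  · -- `g` is a polynomial: compose with `1 / x`
    have hQd : Qg.natDegree = 0 := by
      by_contra h
      apply hroot
      obtain ⟨x0, hx0⟩ := IsAlgClosed.exists_root Qg (fun h0 => h (by
        rw [natDegree_eq_zero_iff_degree_le_zero, h0]))
      exact ⟨x0, hx0⟩
    have hQ0 : Qg.coeff b = 0 := coeff_eq_zero_of_natDegree_lt (by omega)
    have hXk : IsCoprime (1 : k[X]) X := isCoprime_one_left
    have hXK : IsCoprime (1 : K[X]) X := isCoprime_one_left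
    have hXkd : max (1 : k[X]).natDegree (X : k[X]).natDegree = 1 := by simp
    have hXKd : max (1 : K[X]).natDegree (X : K[X]).natDegree = 1 := by simp
    have hPQK : IsCoprime (P.map (algebraMap k K)) (Q.map (algebraMap k K)) :=
      (Polynomial.isCoprime_map _).2 hPQ
    have hdK : max (P.map (algebraMap k K)).natDegree (Q.map (algebraMap k K)).natDegree =
        a * (m * b) := by
      rw [natDegree_map, natDegree_map]; exact hd
    have hmap : ∀ F : k[X], (hom (a * (m * b)) F 1 X).map (algebraMap k K) =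
        hom (a * (m * b)) (F.map (algebraMap k K)) 1 X := by
      intro F
      rw [hom_map, Polynomial.map_one, map_X]
    have hinv : ∀ x : OnePoint K, rm ((hom (a * (m * b)) P 1 X).map (algebraMap k K))
        ((hom (a * (m * b)) Q 1 X).map (algebraMap k K)) (a * (m * b)) x =
        rm (P.map (algebraMap k K)) (Q.map (algebraMap k K)) (a * (m * b))
          (rm (1 : K[X]) X 1 x) := by
      intro x
      have h := rm_comp hPQK hdK hXK hXKd x
      rw [mul_one] at h
      rw [hmap, hmap]
      exact h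
    have hginv : ∀ x : OnePoint K, rm (hom b Pg 1 X) (hom b Qg 1 X) b x =
        rm Pg Qg b (rm (1 : K[X]) X 1 x) := by
      intro x
      have h := rm_comp hg hgb hXK hXKd x
      rw [mul_one] at h
      exact h
    have h0 : (hom b Qg 1 X).eval 0 = 0 := by
      rw [eval_hom, eval_one, eval_X, H_zero, hQ0, zero_mul]
    have hdd := hom_degree hPQ hd hXk hXkd
    have hdg := hom_degree hg hgb hXK hXKd
    rw [mul_one] at hdd hdg
    rcases descT1 ha hb hm (hom_coprime hPQ hd hXk) hdd hA hAa (hom_coprime hg hgb hXK) hdg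
      (by
        intro x
        rw [hinv, hf, hginv]) 0 h0 with h | h
    · left
      obtain ⟨b', PB, QB, n, d, h1, h2, h3, h4, h5, h6, h7⟩ := h
      have hdn := hom_degree h5 h6 hXK hXKd
      rw [mul_one] at hdn
      refine ⟨b', PB, QB, hom b' n 1 X, hom b' d 1 X, h1, h2, h3, h4, hom_coprime h5 h6 hXK, hdn,
        fun x => ?_⟩
      have h8 := h7 (rm (1 : K[X]) X 1 x)
      rw [hinv, inv_inv'] at h8
      have h9 := rm_comp h5 h6 hXK hXKd x
      rw [mul_one] at h9
      rw [h8, h9]
    · right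
      obtain ⟨E, hE1, hE2, PA', QA', Pg', Qg', h3, h4, h5, h6, h7⟩ := h
      have hXE : IsCoprime (1 : E[X]) X := isCoprime_one_left
      have hXEd : max (1 : E[X]).natDegree (X : E[X]).natDegree = 1 := by simp
      have hdn := hom_degree h5 h6 hXE hXEd
      rw [mul_one] at hdn
      refine ⟨E, hE1, hE2, PA', QA', hom b Pg' 1 X, hom b Qg' 1 X, h3, h4, hom_coprime h5 h6 hXE,
        hdn, fun x => ?_⟩
      have h8 := h7 (rm (1 : K[X]) X 1 x)
      rw [hinv, inv_inv'] at h8
      have h5K : IsCoprime (Pg'.map (algebraMap E K)) (Qg'.map (algebraMap E K)) :=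
        (Polynomial.isCoprime_map _).2 h5
      have h6K : max (Pg'.map (algebraMap E K)).natDegree (Qg'.map (algebraMap E K)).natDegree =
          b := by
        rw [natDegree_map, natDegree_map]; exact h6
      have h9 := rm_comp h5K h6K hXK hXKd x
      rw [mul_one] at h9
      rw [h8, hom_map, hom_map, Polynomial.map_one, map_X, h9]

end Pool.Agent.Lib.P62c
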