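import Pool.Agent.Lib.P62h.Dyn2

/-!
# The dynamical argument for a selected family (adapted from `P62h.Dyn2.dyn2`)
-/

namespace Pool.Agent.Lib.P62c

open Polynomial WithZero Pool.Agent.Lib.P62a0c3 Pool.Agent.Lib.P62g Pool.Agent.Lib.P62h

universe u w

open Pool.Agent.Lib.P62h.Dyn2Aux in
theorem dynS {F : Type w} {L : Type u} [Field F] [IsAlgClosed F] [CharZero F] [Field L]
    [Algebra F L] (G : Geo F L) {C1 e m : ℕ} (he : 1 ≤ e)
    (hm : 2 * (217 * e ^ 2) ^ 5 * (C1 + 4) < m) {R : ℤ} (hR : 1 ≤ R)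
    (hκ : (G.κ : ℤ) ≤ C1 * R) {U V : L[X]} (hcop : IsCoprime U V)
    (hdeg : max U.natDegree V.natDegree = e)
    (q : Fin (288 * e ^ 4) → L) (q' : Fin (e + e) → L)
    (hq : ∀ i, IsUn G (q i) ∧ G.h (q i) ≤ R ∧ R ≤ 2 * G.h (q i))
    (hq' : ∀ i, IsUn G (q' i) ∧ G.h (q' i) ≤ R ∧ q' i ^ m ≠ 1)
    (hinf : ∀ i, (q i ^ m - 1)⁻¹ ∈ G.Inf)
    (hneq : ∀ i j, i ≠ j → q' i ^ m ≠ q' j ^ m)
    (hval : ∀ i, ∀ w : L, toP1 (U.eval (q i ^ m)) (V.eval (q i ^ m)) = (w : OnePoint L) → w ≠ 0 →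
      IsUn G w ∧ G.h w ≤ R)
    (hval' : ∀ i, ∀ w : L, toP1 (U.eval (q' i ^ m)) (V.eval (q' i ^ m)) = (w : OnePoint L) →
      w ≠ 0 → IsUn G w ∧ G.h w ≤ R)
    (hval1 : ∀ w : L, toP1 (U.eval 1) (V.eval 1) = (w : OnePoint L) → w ≠ 0 →
      IsUn G w ∧ G.h w ≤ R)
    (hqf : ∀ i, toP1 (U.eval 1) (V.eval 1) ≠ toP1 (U.eval (q i ^ m)) (V.eval (q i ^ m)))
    (hrel : ∀ i j, i < j → ¬ ∃ a b : ℤ, (a ≠ 0 ∨ b ≠ 0) ∧ |a| < (217 * e ^ 2 : ℕ) ∧
        |b| < (217 * e ^ 2 : ℕ) ∧ q i ^ ((m : ℤ) * a) * q j ^ ((m : ℤ) * b) = 1) :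
    False := by
  classical
  have hm0 : 0 < m := lt_of_le_of_lt (Nat.zero_le _) hm
  have hm18 : 18 + 6 * C1 ≤ m := by
    have h2 : 1 ≤ (217 * e ^ 2) ^ 5 := Nat.one_le_pow _ _ (by positivity)
    have h217 : 217 ≤ (217 * e ^ 2) ^ 5 := by
      have h3 : 1 ≤ e ^ 2 := Nat.one_le_pow _ _ he
      calc 217 ≤ 217 * e ^ 2 := by omega
        _ ≤ (217 * e ^ 2) ^ 5 := Nat.le_self_pow (by norm_num) _
    nlinarith
  have hmR : (0 : ℝ) < m * R := by
    have h2 : (0 : ℝ) < m := by exact_mod_cast hm0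
    have h3 : (0 : ℝ) < R := by exact_mod_cast (by omega : 0 < R)
    positivity
  have hU : U.natDegree ≤ e := hdeg ▸ le_max_left _ _
  have hV : V.natDegree ≤ e := hdeg ▸ le_max_right _ _
  have hQ1 : ∀ i, 1 ≤ G.h (q i) := fun i => by have := (hq i).2.2; omega
  have hQm : ∀ i, q i ^ m ≠ 1 := fun i => pow_ne_one (hq i).1 (hQ1 i) hm0
  -- holes
  obtain ⟨B, hB, hBcard⟩ : ∃ B : Finset G.Pl, (∀ p, Hole (G.v p) U V e → p ∈ B) ∧
      (B.card : ℤ) ≤ 4 * e ^ 2 * m * R := by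
    obtain ⟨hf, hc⟩ := hole_count G he hm0 (by omega : 0 ≤ R) hcop hdeg
      (fun i => q' (finSumFinEquiv i)) (fun i => (hq' _).1) (fun i => (hq' _).2.1)
      (fun i j hij => hneq _ _ fun h => hij (finSumFinEquiv.injective h))
      (fun i => (hq' _).2.2) (by
        intro i w hw hw0
        exact hval' _ w hw hw0)
    refine ⟨hf.toFinset, fun p hp => ?_, ?_⟩
    · rw [Set.Finite.mem_toFinset]
      exact hp
    · rwa [← Set.ncard_eq_toFinset_card _ hf]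
  -- the sets `A i`
  have hA : ∀ i, ∃ A : Finset G.Pl, (∀ p ∈ A, G.v p (q i ^ m - 1) < 1 ∧ p ∈ B) ∧
      (m : ℝ) * R / 3 ≤ A.card := by
    intro i
    obtain ⟨hf1, -⟩ := one_sub_card (G := G) (x := q i ^ m) ((hq i).1.pow m).2.1 (hQm i)
    obtain ⟨hf2, hc2⟩ := ncard_coll G (by omega : 0 ≤ R) (q := toP1 (U.eval 1) (V.eval 1))
      (r := toP1 (U.eval (q i ^ m)) (V.eval (q i ^ m))) (by
        intro w hw hw0
        have := hval1 w hw hw0
        exact ⟨this.1.2.1, this.1.2.2, this.2⟩) (by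
        intro w hw hw0
        have := hval i w hw hw0
        exact ⟨this.1.2.1, this.1.2.2, this.2⟩) (hqf i)
    have hmas := mason G (d := m) hm0 (hq i).1.1 (hq i).1.2.1 (hq i).1.2.2
      (θ_ne (hQ1 i)) (c := (1 : F)) one_ne_zero
      (by rw [map_one]; exact sub_ne_zero.2 (hQm i))
      (by rw [map_one]; exact hinf i)
    rw [map_one] at hmas
    refine ⟨hf1.toFinset \ hf2.toFinset, fun p hp => ?_, ?_⟩
    · rw [Finset.mem_sdiff, Set.Finite.mem_toFinset, Set.Finite.mem_toFinset] at hp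
      refine ⟨hp.1, hB p ?_⟩
      by_contra hh
      exact hp.2 (hole_coll (G.v p) hU hV hh hp.1 (eval_ne hcop 1) (eval_ne hcop _))
    · have h2 : hf1.toFinset.card ≤ (hf1.toFinset \ hf2.toFinset).card + hf2.toFinset.card :=
        Finset.card_le_card_sdiff_add_card
      rw [Set.ncard_eq_toFinset_card _ hf1] at hmas
      rw [Set.ncard_eq_toFinset_card _ hf2] at hc2
      have h3 : (m : ℤ) * R ≤ 3 * (hf1.toFinset \ hf2.toFinset).card := by
        have h4 := (hq i).2.2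
        have h5 : (18 + 6 * C1 : ℤ) * R ≤ m * R :=
          mul_le_mul_of_nonneg_right (by exact_mod_cast hm18) (by omega)
        have h6 : ((m : ℤ) - 2) * R ≤ ((m : ℤ) - 2) * (2 * G.h (q i)) :=
          mul_le_mul_of_nonneg_left h4 (by omega)
        have h7 : (hf1.toFinset.card : ℤ) ≤ (hf1.toFinset \ hf2.toFinset).card +
          hf2.toFinset.card := by exact_mod_cast h2
        nlinarith
      have h4 : (m : ℝ) * R ≤ 3 * (hf1.toFinset \ hf2.toFinset).card := by exact_mod_cast h3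
      linarith
  choose A hAB hAc using hA
  refine final_ineq he hmR (cs_bound A B (a := m * R / 3) (b := 3 * (m * R) / (217 * e ^ 2))
    (u := 4 * e ^ 2 * (m * R)) (by positivity) (by positivity) ?_
    (fun i p hp => (hAB i p hp).2) hAc ?_)
  · have h2 : (B.card : ℝ) ≤ 4 * e ^ 2 * m * R := by exact_mod_cast hBcard
    linarith
  · intro i j hij
    by_contra hbig
    rw [not_le] at hbig
    apply hrel i j hij
    refine gcd_small G (N := 217 * e ^ 2) (by nlinarith [Nat.one_le_pow 2 e he]) hR hκ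
      (hq i).1 (hq j).1 (hq i).2.2 (hq i).2.1 (hq j).2.1
      hm (hQm i) (hQm j) (A i ∩ A j) ?_ ?_
    · intro p hp
      rw [Finset.mem_inter] at hp
      exact ⟨(hAB i p hp.1).1, (hAB j p hp.2).1⟩
    · have he2 : (0 : ℝ) < 217 * e ^ 2 := by
        have : (0 : ℝ) < e := by exact_mod_cast he
        positivity
      rw [div_lt_iff₀ he2] at hbig
      have h2 : (3 * m * R : ℝ) ≤ (217 * e ^ 2) * (A i ∩ A j).card := by linarith
      exact_mod_cast h2

end Pool.Agent.Lib.P62c
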