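import Pool.Agent.Lib.P62c.GT

/-!
# Module P62c.HomT: the polynomials `cU`

At `t = (r x)^m` the homogeneous form is `t^e P((t^2 + 1) / t) = t^e P(t + 1/t)`, and
`T_m(r x + 1/(r x)) = t + 1/t`.
-/

namespace Pool.Agent.Lib.P62c

open Polynomial Pool.Agent.Lib.P62a0c3 Pool.Agent.Lib.P62h

theorem cheb_UV {K : Type*} [Field K] {e m : ℕ} {U V : K[X]} (hcop : IsCoprime U V)
    (hdeg : max U.natDegree V.natDegree = e) {r : K} (hr : r ≠ 0) :
    IsCoprime (cU U e m r) (cU V e m r) ∧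
      max (cU U e m r).natDegree (cU V e m r).natDegree = e * 2 ∧
      ∀ x : K, x ≠ 0 → toP1 ((cU U e m r).eval (x ^ m)) ((cU V e m r).eval (x ^ m)) =
        gT U V e m ((r * x + (r * x)⁻¹ : K) : OnePoint K) := by
  have hU : U.natDegree ≤ e := hdeg ▸ le_max_left _ _
  have hV : V.natDegree ≤ e := hdeg ▸ le_max_right _ _
  have hAB : IsCoprime (X ^ 2 + 1 : K[X]) X := ⟨1, -X, by ring⟩
  have hA : (X ^ 2 + 1 : K[X]).natDegree = 2 := by
    have := natDegree_X_pow_add_C (R := K) (n := 2) (r := 1)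
    rwa [C_1] at this
  have ha : max (X ^ 2 + 1 : K[X]).natDegree (X : K[X]).natDegree = 2 := by
    rw [hA, natDegree_X]; rfl
  have hc1 := hom_coprime hcop hdeg hAB
  have hd1 := hom_degree hcop hdeg hAB ha
  have hrm : r ^ m ≠ 0 := pow_ne_zero m hr
  refine ⟨?_, ?_, ?_⟩
  · obtain ⟨a, b, hab⟩ := hc1
    refine ⟨a.comp (C (r ^ m) * X), b.comp (C (r ^ m) * X), ?_⟩
    have h := congrArg (fun p : K[X] => p.comp (C (r ^ m) * X)) hab
    simp only [add_comp, mul_comp, one_comp] at h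
    exact h
  · unfold cU
    rw [natDegree_comp, natDegree_comp, natDegree_C_mul_X _ hrm, mul_one, mul_one, hd1]
  · intro x hx
    have hrx : r * x ≠ 0 := mul_ne_zero hr hx
    have ht : (r * x) ^ m ≠ 0 := pow_ne_zero m hrx
    have hev : ∀ P : K[X], P.natDegree ≤ e → (cU P e m r).eval (x ^ m) =
        ((r * x) ^ m) ^ e * P.eval ((r * x) ^ m + ((r * x) ^ m)⁻¹) := by
      intro P hP
      unfold cU
      rw [eval_comp, eval_mul, eval_C, eval_X, ← mul_pow, HomAAux.eval_hom, eval_X,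
        HomAAux.H_ne e P hP _ _ ht, eval_add, eval_pow, eval_X, eval_one]
      congr 2
      field_simp
    have hT : (dickson 1 (1 : K) m).eval (r * x + (r * x)⁻¹) =
        (r * x) ^ m + ((r * x) ^ m)⁻¹ := by
      rw [dickson_one_one_eval_add_inv _ _ (mul_inv_cancel₀ hrx), inv_pow]
    rw [hev U hU, hev V hV, toP1_mul _ _ _ (pow_ne_zero e ht), gT_some, hT]

end Pool.Agent.Lib.P62c
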