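import Pool.Agent.Lib.P62h.HtX

/-!
# Module P62c.HtT: heights of `s + s⁻¹` and of `s^{±1} / r`
-/

set_option autoImplicit false

namespace Pool.Agent.Lib.P62c

open WithZero Pool.Agent.Lib.P62a0c3 Pool.Agent.Lib.P62g Pool.Agent.Lib.P62h

universe u w

/-- `v (s + s⁻¹) > 1` iff `v s ≠ 1`, and then `v (s + s⁻¹) = max (v s) (v s)⁻¹`. -/
theorem h_add_inv {F : Type w} {L : Type u} [Field F] [Field L] [Algebra F L] (G : Geo F L)
    {s : L} (hs : IsUn G s) : G.h (s + s⁻¹) = 2 * G.h s := by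
  classical
  set S := (Geo.ord_fin (G := G) s).toFinset ∪ (Geo.ord_fin (G := G) (s + s⁻¹)).toFinset with hS
  have h1 : ∀ p, G.ord p s ≠ 0 → p ∈ S := fun p hp =>
    Finset.mem_union_left _ (P62h.mem_supp s p hp)
  have h2 : ∀ p, G.ord p (s + s⁻¹) ≠ 0 → p ∈ S := fun p hp =>
    Finset.mem_union_right _ (P62h.mem_supp (s + s⁻¹) p hp)
  have key : ∀ p, max 0 (-(G.ord p (s + s⁻¹))) = max 0 (G.ord p s) + max 0 (-(G.ord p s)) := by
    intro p
    set a := G.ord p s with ha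
    have hv1 : G.v p s = exp (-a) := Geo.v_eq hs.1 p
    have hv2 : G.v p s⁻¹ = exp a := by
      rw [Geo.v_eq (inv_ne_zero hs.1) p, Geo.ord_inv, neg_neg]
    by_cases h0 : a = 0
    · have h3 : G.v p (s + s⁻¹) ≤ 1 := by
        refine ((G.v p).map_add s s⁻¹).trans ?_
        rw [hv1, hv2, h0, neg_zero, max_self, exp_zero]
      have h4 : 0 ≤ G.ord p (s + s⁻¹) := by
        rcases eq_or_ne (s + s⁻¹) 0 with h5 | h5
        · rw [h5, Geo.ord_zero]
        · exact (Geo.v_le_one_iff h5 p).mp h3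
      rw [h0, max_eq_left (by omega)]
      simp
    · have hne : G.v p s ≠ G.v p s⁻¹ := by
        rw [hv1, hv2]
        intro h3
        rw [exp_inj] at h3
        omega
      have h3 := (G.v p).map_add_of_distinct_val hne
      rw [hv1, hv2] at h3
      have h4 : G.ord p (s + s⁻¹) = -(|a|) := by
        rw [Geo.ord, h3]
        rcases le_total 0 a with h5 | h5
        · rw [max_eq_right (by rw [exp_le_exp]; omega), log_exp, abs_of_nonneg h5]
        · rw [max_eq_left (by rw [exp_le_exp]; omega), log_exp, abs_of_nonpos h5]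
      rw [h4]
      rcases le_total 0 a with h5 | h5
      · rw [abs_of_nonneg h5]
        omega
      · rw [abs_of_nonpos h5]
        omega
  rw [Geo.h_eq_sum S h2, Finset.sum_congr rfl fun p _ => key p, Finset.sum_add_distrib,
    ← Geo.h_eq_zeros hs.1 hs.2.1 hs.2.2 S h1, ← Geo.h_eq_sum S h1]
  ring

/-- `r² = (s r) / (s / r)`, so `R ≤ 2 max (h (s / r)) (h (s⁻¹ / r))`. -/
theorem h_sign {F : Type w} {L : Type u} [Field F] [Field L] [Algebra F L] (G : Geo F L) {R : ℤ}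
    {r s : L} (hr : IsUn G r) (hs : IsUn G s) (hrR : 2 * G.h r = R) (hsR : 2 * G.h s ≤ R) :
    ∃ x : L, (x = s ∨ x = s⁻¹) ∧ IsUn G (x / r) ∧ G.h (x / r) ≤ R ∧ R ≤ 2 * G.h (x / r) := by
  have hU : ∀ x : L, IsUn G x → IsUn G (x / r) := fun x hx => by
    rw [div_eq_mul_inv]
    exact hx.mul hr.inv
  have hup : ∀ x : L, IsUn G x → G.h x = G.h s → G.h (x / r) ≤ R := fun x hx hxs => by
    have h1 : G.h (x / r) ≤ G.h x + G.h r⁻¹ := by
      rw [div_eq_mul_inv]
      exact h_mul_le hx.1 (inv_ne_zero hr.1)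
    rw [h_inv hr, hxs] at h1
    omega
  have hsi := hs.inv
  have h1 : G.h (r ^ 2) ≤ G.h (s⁻¹ / r) + G.h (s / r) := by
    have e : r ^ 2 = (s⁻¹ / r)⁻¹ * (s / r)⁻¹ := by
      have hs0 := hs.1
      have hr0 := hr.1
      field_simp
    rw [e]
    have h2 := h_mul_le (G := G) (inv_ne_zero (hU _ hsi).1) (inv_ne_zero (hU _ hs).1)
    rwa [h_inv (hU _ hsi), h_inv (hU _ hs)] at h2
  have h2 : G.h (r ^ 2) = 2 * G.h r := by
    have h3 := h_zpow (G := G) hr 2
    rw [show (r ^ (2 : ℤ)) = r ^ 2 from zpow_ofNat r 2] at h3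
    simpa using h3
  rcases le_total (G.h (s⁻¹ / r)) (G.h (s / r)) with h3 | h3
  · exact ⟨s, Or.inl rfl, hU _ hs, hup _ hs rfl, by omega⟩
  · exact ⟨s⁻¹, Or.inr rfl, hU _ hsi, hup _ hsi (h_inv hs), by omega⟩

end Pool.Agent.Lib.P62c
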