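import Pool.Agent.Lib.P62c.GT

/-!
# Base change and scaling of the maps `gT`
-/

namespace Pool.Agent.Lib.P62c

open Polynomial Pool.Agent.Lib.P62a0c3 Pool.Agent.Lib.P62h

theorem rm_scale {L : Type*} [Field L] {l : L} (hl : l ≠ 0) (U V : L[X]) (e : ℕ)
    (y : OnePoint L) : rm (C l * U) (C l * V) e y = rm U V e y := by
  induction y using OnePoint.rec with
  | infty => rw [rm_infty, rm_infty, coeff_C_mul, coeff_C_mul, toP1_mul l _ _ hl]
  | coe z => rw [rm_some, rm_some, eval_mul, eval_mul, eval_C, toP1_mul l _ _ hl]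

theorem gT_scale {L : Type*} [Field L] {l : L} (hl : l ≠ 0) (U V : L[X]) (e m : ℕ)
    (y : OnePoint L) : gT (C l * U) (C l * V) e m y = gT U V e m y := by
  rw [gT, gT, rm_scale hl]

theorem map_gT {K L : Type*} [Field K] [Field L] (φ : K →+* L) (U V : K[X]) (e m : ℕ)
    (y : OnePoint K) :
    OnePoint.map φ (gT U V e m y) = gT (U.map φ) (V.map φ) e m (OnePoint.map φ y) := by
  rw [gT, gT, rm_map, rm_map, Polynomial.map_dickson, map_one, Polynomial.map_one]

end Pool.Agent.Lib.P62c
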