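import Pool.Agent.Lib.P62c.DynS
import Pool.Agent.Lib.P62c.MapT
import Pool.Agent.Lib.P62c.HtT
import Pool.Agent.Lib.P62c.HomT

/-!
# The dynamical argument for `x ↦ U(T_m(x)) / V(T_m(x))` in an extension containing the
square roots
-/

namespace Pool.Agent.Lib.P62c

open Polynomial IntermediateField Pool.Agent.Lib.P62a0c3 Pool.Agent.Lib.P62g Pool.Agent.Lib.P62h

universe u w

open Pool.Agent.Lib.P62h.Dyn2Aux in
theorem dynT {F : Type w} {L M : Type u} [Field F] [IsAlgClosed F] [CharZero F] [Field L]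
    [Field M] [Algebra L M] [Algebra F M] (G : Geo F M) {C1 e m : ℕ} (he : 1 ≤ e)
    (hm : 2 * (217 * (2 * e) ^ 2) ^ 5 * (C1 + 4) < m) {R : ℤ} (hR : 1 ≤ R)
    (hκ : (G.κ : ℤ) ≤ C1 * R) {U V : L[X]} (hcop : IsCoprime U V)
    (hdeg : max U.natDegree V.natDegree = e) (P : Finset (OnePoint L))
    (hP : ∀ p ∈ P, gT U V e m p ∈ P)
    (hun : ∀ z : L, (z : OnePoint L) ∈ P → z ≠ 0 → IsUn G (algebraMap L M z))
    (hle : ∀ z : L, (z : OnePoint L) ∈ P → G.h (algebraMap L M z) ≤ R)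
    (s : L → M) (T : Finset L)
    (hsT : ∀ z ∈ T, (z : OnePoint L) ∈ P ∧ IsUn G (s z) ∧ s z + (s z)⁻¹ = algebraMap L M z)
    (hinf : ∀ z ∈ T, ∀ z' ∈ T, ∀ x, (x = s z ∨ x = (s z)⁻¹) → ((x / s z') ^ m - 1)⁻¹ ∈ G.Inf)
    (z0 : L) (hz0 : z0 ∈ T) (hR0 : G.h (algebraMap L M z0) = R)
    (q : Fin (288 * (2 * e) ^ 4) → L) (q' : Fin (2 * e + 2 * e) → L) (hq : ∀ i, q i ∈ T)
    (hq' : ∀ i, q' i ∈ T) (h1 : ∀ i, (s (q' i) / s z0) ^ m ≠ 1)
    (h2 : ∀ i j, i ≠ j → (s (q' i) / s z0) ^ m ≠ (s (q' j) / s z0) ^ m)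
    (hqf : ∀ i, gT U V e m (z0 : OnePoint L) ≠ gT U V e m (q i : OnePoint L))
    (hrel : ∀ i j, i < j → ∀ x y : M, (x = s (q i) ∨ x = (s (q i))⁻¹) →
      (y = s (q j) ∨ y = (s (q j))⁻¹) → (∀ a : ℤ, a ≠ 0 → (x / s z0) ^ ((m : ℤ) * a) ≠ 1) →
      ¬ ∃ a b : ℤ, (a ≠ 0 ∨ b ≠ 0) ∧ |a| < (217 * (2 * e) ^ 2 : ℕ) ∧
        |b| < (217 * (2 * e) ^ 2 : ℕ) ∧
        (x / s z0) ^ ((m : ℤ) * a) * (y / s z0) ^ ((m : ℤ) * b) = 1) : False := by
  classical
  have hm0 : 0 < m := lt_of_le_of_lt (Nat.zero_le _) hm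
  set ι := algebraMap L M with hι
  set r := s z0 with hr
  obtain ⟨hz0P, hrU, hrz⟩ := hsT z0 hz0
  rw [← hr] at hrU hrz
  have hr2 : 2 * G.h r = R := by
    rw [← h_add_inv G hrU, hrz, hR0]
  have hs2 : ∀ z ∈ T, 2 * G.h (s z) ≤ R := by
    intro z hz
    obtain ⟨a1, a2, a3⟩ := hsT z hz
    rw [← h_add_inv G a2, a3]
    exact hle z a1
  have hsel : ∀ i, ∃ x : M, (x = s (q i) ∨ x = (s (q i))⁻¹) ∧ IsUn G (x / r) ∧
      G.h (x / r) ≤ R ∧ R ≤ 2 * G.h (x / r) := fun i =>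
    h_sign G hrU (hsT _ (hq i)).2.1 hr2 (hs2 _ (hq i))
  choose x hx1 hx2 hx3 hx4 using hsel
  have hcopM : IsCoprime (U.map ι) (V.map ι) := (Polynomial.isCoprime_map ι).2 hcop
  have hdegM : max (U.map ι).natDegree (V.map ι).natDegree = e := by
    rw [natDegree_map, natDegree_map]; exact hdeg
  obtain ⟨c1, c2, c3⟩ := cheb_UV (m := m) hcopM hdegM hrU.1
  rw [mul_comm e 2] at c2
  -- values
  have hval : ∀ z ∈ T, ∀ y : M, (y = s z ∨ y = (s z)⁻¹) →
      toP1 ((cU (U.map ι) e m r).eval ((y / r) ^ m)) ((cU (V.map ι) e m r).eval ((y / r) ^ m)) =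
        OnePoint.map ι (gT U V e m (z : OnePoint L)) := by
    intro z hz y hy
    obtain ⟨a1, a2, a3⟩ := hsT z hz
    have hy0 : y ≠ 0 := by
      rcases hy with rfl | rfl
      · exact a2.1
      · exact inv_ne_zero a2.1
    rw [c3 _ (div_ne_zero hy0 hrU.1), mul_div_cancel₀ _ hrU.1, map_gT, OnePoint.map_some]
    congr 2
    rw [← a3]
    rcases hy with rfl | rfl
    · rfl
    · rw [inv_inv, add_comm]
  have hpt : ∀ z ∈ T, ∀ w : M, OnePoint.map ι (gT U V e m (z : OnePoint L)) = (w : OnePoint M) →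
      w ≠ 0 → IsUn G w ∧ G.h w ≤ R := by
    intro z hz w hw hw0
    have hmem := hP _ (hsT z hz).1
    revert hw hmem
    generalize gT U V e m (z : OnePoint L) = p
    intro hw hmem
    induction p using OnePoint.rec with
    | infty => exact absurd hw.symm (OnePoint.coe_ne_infty _)
    | coe v =>
      rw [OnePoint.map_some] at hw
      have hvw : ι v = w := OnePoint.coe_injective hw
      have hv0 : v ≠ 0 := by
        rintro rfl
        rw [map_zero] at hvw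
        exact hw0 hvw.symm
      rw [← hvw]
      exact ⟨hun v hmem hv0, hle v hmem⟩
  have hval1 : toP1 ((cU (U.map ι) e m r).eval 1) ((cU (V.map ι) e m r).eval 1) =
      OnePoint.map ι (gT U V e m (z0 : OnePoint L)) := by
    have h := hval z0 hz0 r (Or.inl rfl)
    rwa [div_self hrU.1, one_pow] at h
  have hιinj : Function.Injective (OnePoint.map ι) := map_injective ι
  refine dynS G (e := 2 * e) (by omega) hm hR hκ c1 c2 (fun i => x i / r)
    (fun i => s (q' i) / r) (fun i => ⟨hx2 i, hx3 i, hx4 i⟩) (fun i => ⟨?_, ?_, h1 i⟩)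
    (fun i => hinf _ (hq i) _ hz0 _ (hx1 i)) h2 ?_ ?_ ?_ ?_ ?_
  · rw [div_eq_mul_inv]
    exact (hsT _ (hq' i)).2.1.mul hrU.inv
  · rw [div_eq_mul_inv]
    have h3 := h_mul_le (G := G) (hsT _ (hq' i)).2.1.1 (inv_ne_zero hrU.1)
    have h4 := h_inv hrU
    have h5 := hs2 _ (hq' i)
    omega
  · intro i w hw hw0
    rw [hval _ (hq i) _ (hx1 i)] at hw
    exact hpt _ (hq i) w hw hw0
  · intro i w hw hw0
    rw [hval _ (hq' i) _ (Or.inl rfl)] at hw
    exact hpt _ (hq' i) w hw hw0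
  · intro w hw hw0
    rw [hval1] at hw
    exact hpt _ hz0 w hw hw0
  · intro i h
    rw [hval1, hval _ (hq i) _ (hx1 i)] at h
    exact hqf i (hιinj h)
  · intro i j hij
    refine hrel i j hij _ _ (hx1 i) (hx1 j) ?_
    intro a ha
    have h3 : 1 ≤ G.h (x i / r) := by have := hx4 i; omega
    exact zpow_ne_one (hx2 i) h3 (mul_ne_zero (by omega) ha)

end Pool.Agent.Lib.P62c
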