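import Pool.Agent.Lib.P62c.PowD

/-!
# Preperiodic points of `A ∘ x^m ∘ g`, `m` polynomial in `deg A * deg g`
-/

namespace Pool.Agent.Lib.P62c

open Polynomial IntermediateField Pool.Agent.Lib.P62a0c3 Pool.Agent.Lib.P62g Pool.Agent.Lib.P62h

universe u w

theorem keyP {F : Type w} {k K : Type u} [Field F] [IsAlgClosed F] [CharZero F] [Field k]
    [CharZero k] [Field K] [IsAlgClosed K] [CharZero K] [Algebra F k] [Algebra k K] [Algebra F K]
    [IsScalarTower F k K] [Algebra.IsAlgebraic k K] {a b m n : ℕ} (ha : 1 ≤ a) (hb : 1 ≤ b)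
    (hm : 2 * (217 * (a * b) ^ 2) ^ 5 * (2 * (2 * (a * b) * n) ^ 4 + 4) < m)
    {P Q : k[X]} (hPQ : IsCoprime P Q) (hd : max P.natDegree Q.natDegree = a * (m * b))
    {PA QA Pg Qg : K[X]} (hA : IsCoprime PA QA) (hAa : max PA.natDegree QA.natDegree = a)
    (hg : IsCoprime Pg Qg) (hgb : max Pg.natDegree Qg.natDegree = b)
    (hf : ∀ x : OnePoint K, rm (P.map (algebraMap k K)) (Q.map (algebraMap k K)) (a * (m * b)) x =
      rm PA QA a (rm (X ^ m) 1 m (rm Pg Qg b x)))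
    (hniso : ¬ IsoC (F := F) (a * (m * b))
      (rm (P.map (algebraMap k K)) (Q.map (algebraMap k K)) (a * (m * b)))) :
    ∃ T : Finset (OnePoint K), T.card ≤ bound (a * b) m ∧
      ∀ (M : IntermediateField k K), (∃ u : M, Transcendental F u ∧
        0 < Module.finrank F⟮u⟯ M ∧ Module.finrank F⟮u⟯ M ≤ n) →
        ∀ y : OnePoint M, (Set.range fun i : ℕ =>
          (rm (P.map (algebraMap k K)) (Q.map (algebraMap k K)) (a * (m * b)))^[i]
            (OnePoint.map (algebraMap M K) y)).Finite → OnePoint.map (algebraMap M K) y ∈ T := by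
  have hab : 1 ≤ a * b := Nat.mul_pos ha hb
  have h4 : 4 * (a * b) < m := by
    refine lt_of_le_of_lt ?_ hm
    have h1 : a * b ≤ (217 * (a * b) ^ 2) ^ 5 := by
      calc a * b ≤ (a * b) ^ 2 := Nat.le_self_pow (by norm_num) _
        _ ≤ 217 * (a * b) ^ 2 := by omega
        _ ≤ (217 * (a * b) ^ 2) ^ 5 := Nat.le_self_pow (by norm_num) _
    calc 4 * (a * b) ≤ 2 * (a * b) * 4 := by omega
      _ ≤ _ := Nat.mul_le_mul (Nat.mul_le_mul_left 2 h1) (by omega)
  obtain ⟨E, hE1, hE2, PA', QA', Pg', Qg', h3, h4, h5, h6, h7⟩ :=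
    descP ha hb h4 hPQ hd hA hAa hg hgb hf
  exact keyE (F := F) (n := n) ha hb hm hPQ hd E hE1 hE2 h3 h4 h5 h6 h7 hniso

end Pool.Agent.Lib.P62c
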