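import Pool.Agent.Lib.P62c.CoreT
import Pool.Agent.Lib.P62c.ConT
import Pool.Agent.Lib.P62c.MapT
import Pool.Agent.Lib.P62g.SubFin
import Pool.Agent.Lib.P62a0c3.Preper

/-!
# Finite invariant sets of `x ↦ U(T_m(x)) / V(T_m(x))` over function fields
-/

namespace Pool.Agent.Lib.P62c

open Polynomial IntermediateField Pool.Agent.Lib.P62a0c3 Pool.Agent.Lib.P62g Pool.Agent.Lib.P62h

universe u w

theorem invariantT {F : Type w} {L : Type u} [Field F] [IsAlgClosed F] [CharZero F] [Field L]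
    [Algebra F L] (u : L) (hu : Transcendental F u) {n e m : ℕ} (he : 1 ≤ e)
    (hpos : 0 < Module.finrank F⟮u⟯ L) (hn : Module.finrank F⟮u⟯ L ≤ n) (hm : mT e n < m)
    {U V : L[X]} (hcop : IsCoprime U V) (hdeg : max U.natDegree V.natDegree = e)
    (P : Finset (OnePoint L)) (hP : ∀ p ∈ P, gT U V e m p ∈ P) (hcard : cT e m ≤ P.card) :
    ∃ (l : L) (U0 V0 : F[X]), l ≠ 0 ∧ U = C l * U0.map (algebraMap F L) ∧
      V = C l * V0.map (algebraMap F L) := by
  classical
  have hm0 : 1 ≤ m := by omega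
  have hc0 : m * (2 * e + 1) + 2 ≤ cT e m := by
    have h1 : 2 * e * (m + 1) ≤ 4 * e * (m + 1) := Nat.mul_le_mul_right _ (by omega)
    have h2 : m * (2 * e + 1) = 2 * e * m + m := by ring
    have h3 : m * (2 * e + 1) + 2 ≤ 4 * e * (m + 1) + m + 2 * e * m + 10 := by
      rw [h2]; omega
    refine h3.trans ?_
    rw [cT]
    omega
  set S : Set L := insert u {z : L | z ≠ 0 ∧ (z : OnePoint L) ∈ P} with hS
  set L1 : IntermediateField F L := IntermediateField.adjoin F S with hL1
  have hSL : ∀ z ∈ S, z ∈ L1 := fun z hz => IntermediateField.subset_adjoin F S hz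
  have hconst : ∀ z : L, (z : OnePoint L) ∈ P → ∃ c : L1, z = algebraMap L1 L c := by
    intro z hz
    by_cases hz0 : z = 0
    · exact ⟨0, by rw [hz0, map_zero]⟩
    · exact ⟨⟨z, hSL z (Set.mem_insert_of_mem _ ⟨hz0, hz⟩)⟩, rfl⟩
  obtain ⟨l1, U1, V1, hl1, g1, g2⟩ :=
    tconst (F := L1) he hm0 hcop hdeg P hP hconst (hc0.trans hcard)
  set ι : L1 →+* L := algebraMap L1 L with hι
  have hιinj : Function.Injective (OnePoint.map ι) := map_injective ι
  set P1 : Finset (OnePoint L1) := P.preimage (OnePoint.map ι) hιinj.injOn with hP1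
  have hmemP1 : ∀ p, p ∈ P1 ↔ OnePoint.map ι p ∈ P := by
    intro p; rw [hP1, Finset.mem_preimage]
  have hinv1 : ∀ p ∈ P1, gT U1 V1 e m p ∈ P1 := by
    intro p hp
    rw [hmemP1] at hp ⊢
    rw [map_gT, ← gT_scale hl1, ← g1, ← g2]
    exact hP _ hp
  have hcard1 : cT e m ≤ P1.card := by
    have h1 : P1.image (OnePoint.map ι) = P := by
      ext p
      rw [Finset.mem_image]
      constructor
      · rintro ⟨q, hq, rfl⟩
        exact (hmemP1 q).1 hq
      · intro hp
        induction p using OnePoint.rec with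
        | infty => exact ⟨OnePoint.infty, (hmemP1 _).2 hp, rfl⟩
        | coe z =>
          obtain ⟨c, hc⟩ := hconst z hp
          refine ⟨(c : OnePoint L1), (hmemP1 _).2 ?_, ?_⟩
          · rw [OnePoint.map_some, ← hc]; exact hp
          · rw [OnePoint.map_some, ← hc]
    rw [← Finset.card_image_of_injective _ hιinj, h1]
    exact hcard
  have hCl1 : IsUnit (C l1 : L[X]) := isUnit_C.2 hl1.isUnit
  have hcop1 : IsCoprime U1 V1 := by
    have h2 : IsCoprime (U1.map ι) (V1.map ι) := by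
      rw [g1, g2] at hcop
      exact (isCoprime_mul_unit_left hCl1 _ _).1 hcop
    exact (Polynomial.isCoprime_map ι).1 h2
  have hdeg1 : max U1.natDegree V1.natDegree = e := by
    rw [← hdeg, g1, g2, natDegree_C_mul hl1, natDegree_C_mul hl1, natDegree_map, natDegree_map]
  set u1 : L1 := ⟨u, hSL u (Set.mem_insert _ _)⟩ with hu1
  have hu1t : Transcendental F u1 := by
    intro h
    exact hu (h.algebraMap (A := L))
  obtain ⟨hpos1, hn1⟩ := finrank_sub L1 u1 hpos
  have hgen1 : IntermediateField.adjoin F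
      (insert u1 {z : L1 | z ≠ 0 ∧ (z : OnePoint L1) ∈ P1}) = ⊤ := by
    have h1 := adjoin_lift (F := F) S
    have h2 : {x : L1 | (x : L) ∈ S} = insert u1 {z : L1 | z ≠ 0 ∧ (z : OnePoint L1) ∈ P1} := by
      ext z
      rw [Set.mem_ofPred_eq, hS, Set.mem_insert_iff, Set.mem_insert_iff, Set.mem_ofPred_eq,
        Set.mem_ofPred_eq, hmemP1, OnePoint.map_some]
      constructor
      · rintro (h | ⟨h, h'⟩)
        · exact Or.inl (Subtype.ext h)
        · exact Or.inr ⟨fun h0 => h (by rw [h0]; rfl), h'⟩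
      · rintro (h | ⟨h, h'⟩)
        · exact Or.inl (by rw [h])
        · exact Or.inr ⟨fun h0 => h (Subtype.ext h0), h'⟩
    rw [← h2]
    exact h1
  obtain ⟨l, U0, V0, hl, f1, f2⟩ :=
    coreT (F := F) u1 hu1t he hpos1 (hn1.trans hn) hm hcop1 hdeg1 P1 hinv1 hcard1 hgen1
  have hFι : ι.comp (algebraMap F L1) = algebraMap F L := rfl
  have k1 : U1.map ι = C (ι l) * U0.map (algebraMap F L) := by
    rw [f1, Polynomial.map_mul, map_C, Polynomial.map_map, hFι]
  have k2 : V1.map ι = C (ι l) * V0.map (algebraMap F L) := by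
    rw [f2, Polynomial.map_mul, map_C, Polynomial.map_map, hFι]
  refine ⟨l1 * ι l, U0, V0, ?_, ?_, ?_⟩
  · exact mul_ne_zero hl1 (by rw [Ne, map_eq_zero]; exact hl)
  · rw [g1, k1, C_mul, mul_assoc]
  · rw [g2, k2, C_mul, mul_assoc]

end Pool.Agent.Lib.P62c
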