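import Pool.Agent.Lib.P62c.DescU
import Pool.Agent.Lib.P62c.FinT

/-!
# Preperiodic points of `A ∘ T_m ∘ g`, all decompositions over the algebraic closure
-/

namespace Pool.Agent.Lib.P62c

open Polynomial IntermediateField Pool.Agent.Lib.P62a0c3 Pool.Agent.Lib.P62g Pool.Agent.Lib.P62h

universe u w

theorem mT_ge8 {e : ℕ} (he : 1 ≤ e) (n : ℕ) : 8 * e ≤ mT e n := by
  rw [mT]
  have h1 : e ≤ (217 * (2 * e) ^ 2) ^ 5 := by
    calc e ≤ (2 * e) ^ 2 := by nlinarith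
      _ ≤ 217 * (2 * e) ^ 2 := by omega
      _ ≤ (217 * (2 * e) ^ 2) ^ 5 := Nat.le_self_pow (by norm_num) _
  calc 8 * e = 2 * e * 4 := by ring
    _ ≤ _ := Nat.mul_le_mul (Nat.mul_le_mul_left 2 h1) (by omega)

theorem mT_ge {e : ℕ} (he : 1 ≤ e) (n : ℕ) :
    2 * (217 * e ^ 2) ^ 5 * (2 * ((2 * e) ^ (2 * e) * n) ^ 4 + 4) ≤ mT e (2 * e * 2 * n) := by
  rw [mT]
  have h1 : 217 * e ^ 2 ≤ 217 * (2 * e) ^ 2 := by nlinarith
  have h2 : (2 * e) ^ (2 * e) ≤ 2 ^ (288 * (2 * e) ^ 4 + 4 * e + 1) := by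
    calc (2 * e) ^ (2 * e) ≤ (2 ^ (2 * e)) ^ (2 * e) :=
          Nat.pow_le_pow_left (Nat.lt_two_pow_self).le _
      _ = 2 ^ ((2 * e) * (2 * e)) := by rw [← pow_mul]
      _ ≤ 2 ^ (288 * (2 * e) ^ 4 + 4 * e + 1) := by
        apply Nat.pow_le_pow_right (by norm_num)
        have h3 : (2 * e) * (2 * e) ≤ (2 * e) ^ 4 := by
          calc (2 * e) * (2 * e) = (2 * e) ^ 2 := by ring
            _ ≤ (2 * e) ^ 4 := Nat.pow_le_pow_right (by omega) (by norm_num)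
        omega
  have h4 : (2 * e) ^ (2 * e) * n ≤
      2 * e * 2 * n * 2 ^ (288 * (2 * e) ^ 4 + 4 * e + 1) := by
    calc (2 * e) ^ (2 * e) * n ≤ 2 ^ (288 * (2 * e) ^ 4 + 4 * e + 1) * n :=
          Nat.mul_le_mul_right _ h2
      _ = 1 * (n * 2 ^ (288 * (2 * e) ^ 4 + 4 * e + 1)) := by ring
      _ ≤ (2 * e * 2) * (n * 2 ^ (288 * (2 * e) ^ 4 + 4 * e + 1)) :=
          Nat.mul_le_mul_right _ (by omega)
      _ = _ := by ring
  have h5 := Nat.pow_le_pow_left h4 4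
  exact Nat.mul_le_mul (Nat.mul_le_mul_left 2 (Nat.pow_le_pow_left h1 5)) (by omega)

theorem keyU {F : Type w} {k K : Type u} [Field F] [IsAlgClosed F] [CharZero F] [Field k]
    [CharZero k] [Field K] [IsAlgClosed K] [CharZero K] [Algebra F k] [Algebra k K] [Algebra F K]
    [IsScalarTower F k K] [Algebra.IsAlgebraic k K] {a b m n : ℕ} (ha : 1 ≤ a) (hb : 1 ≤ b)
    (hm : mT (a * b) (2 * (a * b) * 2 * n) < m)
    {P Q : k[X]} (hPQ : IsCoprime P Q) (hd : max P.natDegree Q.natDegree = a * (m * b))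
    {PA QA Pg Qg : K[X]} (hA : IsCoprime PA QA) (hAa : max PA.natDegree QA.natDegree = a)
    (hg : IsCoprime Pg Qg) (hgb : max Pg.natDegree Qg.natDegree = b)
    (hf : ∀ x : OnePoint K, rm (P.map (algebraMap k K)) (Q.map (algebraMap k K)) (a * (m * b)) x =
      rm PA QA a (rm (dickson 1 (1 : K) m) 1 m (rm Pg Qg b x)))
    (hniso : ¬ IsoC (F := F) (a * (m * b))
      (rm (P.map (algebraMap k K)) (Q.map (algebraMap k K)) (a * (m * b)))) :
    ∃ T : Finset (OnePoint K), T.card ≤ bound (a * b) m + boundT (a * b) m ∧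
      ∀ (M : IntermediateField k K), (∃ u : M, Transcendental F u ∧
        0 < Module.finrank F⟮u⟯ M ∧ Module.finrank F⟮u⟯ M ≤ n) →
        ∀ y : OnePoint M, (Set.range fun i : ℕ =>
          (rm (P.map (algebraMap k K)) (Q.map (algebraMap k K)) (a * (m * b)))^[i]
            (OnePoint.map (algebraMap M K) y)).Finite → OnePoint.map (algebraMap M K) y ∈ T := by
  have hab : 1 ≤ a * b := Nat.mul_pos ha hb
  have h8 := mT_ge8 hab (2 * (a * b) * 2 * n)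
  have hge := mT_ge hab n
  rcases descT ha hb (by omega) hPQ hd hA hAa hg hgb hf with h | h
  · obtain ⟨b', PB, QB, n', d', h1, h2, h3, h4, h5, h6, h7⟩ := h
    subst h1
    have e1 : a * (m * (2 * b')) = a * 2 * (m * b') := by ring
    have e2 : a * (2 * b') = a * 2 * b' := by ring
    rw [e1] at hd h7 hniso ⊢
    rw [e2] at hge ⊢
    obtain ⟨T, hT1, hT2⟩ := key (F := F) (n := n) (by omega : 1 ≤ a * 2) h2
      (lt_of_le_of_lt hge (by rw [← e2]; exact hm)) hPQ hd h3 h4 h5 h6 h7 hniso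
    exact ⟨T, hT1.trans (Nat.le_add_right _ _), hT2⟩
  · obtain ⟨E, hE1, hE2, PA', QA', Pg', Qg', h3, h4, h5, h6, h7⟩ := h
    obtain ⟨T, hT1, hT2⟩ := keyT (F := F) (n := n) ha hb hm hPQ hd E hE1 hE2 h3 h4 h5 h6 h7 hniso
    exact ⟨T, hT1.trans (Nat.le_add_left _ _), hT2⟩

end Pool.Agent.Lib.P62c
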