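import Pool.Agent.Lib.P62h.RmD
import Pool.Agent.Lib.P62h.HomA
import Pool.Agent.Lib.P62h.FibG

/-!
# The maps `x ↦ U(T_m(x)) / V(T_m(x))`: definitions
-/

namespace Pool.Agent.Lib.P62c

open Polynomial Pool.Agent.Lib.P62a0c3 Pool.Agent.Lib.P62h

/-- `x ↦ U(T_m(x)) / V(T_m(x))` on `ℙ¹(L)`, `U` and `V` of degree at most `e`, where
`T_m (s + 1/s) = s^m + 1/s^m`. -/
noncomputable def gT {L : Type*} [Field L] (U V : L[X]) (e m : ℕ) (y : OnePoint L) : OnePoint L :=
  rm U V e (rm (dickson 1 (1 : L) m) 1 m y)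

/-- The polynomial `x ^ e * P (r^m x + 1 / (r^m x))` up to a constant. -/
noncomputable def cU {L : Type*} [Field L] (P : L[X]) (e m : ℕ) (r : L) : L[X] :=
  (hom e P (X ^ 2 + 1) X).comp (C (r ^ m) * X)

theorem gT_some {L : Type*} [Field L] (U V : L[X]) (e m : ℕ) (z : L) :
    gT U V e m (z : OnePoint L) = toP1 (U.eval ((dickson 1 (1 : L) m).eval z))
      (V.eval ((dickson 1 (1 : L) m).eval z)) := by
  rw [gT, rm_some, eval_one, toP1, if_neg one_ne_zero, _root_.div_one, rm_some]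

end Pool.Agent.Lib.P62c
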