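import Mathlib
import Pool.Agent.Lib.P62c.DefU

/-!
# Integration of the equation `g₁'² (g₂² - 4) = g₂'² (g₁² - 4)`
-/

namespace Pool.Agent.Lib.P62c

open Polynomial Pool.Agent.Lib.P62a0c3 Pool.Agent.Lib.P62h

namespace IntegAux

variable {K : Type*} [Field K]

/-- The derivation of the rational functions. -/
noncomputable def th (f : RatFunc K) : RatFunc K :=
  algebraMap K[X] (RatFunc K) (wr f.num f.denom) / algebraMap K[X] (RatFunc K) f.denom ^ 2

theorem phi_ne {b : K[X]} (hb : b ≠ 0) : algebraMap K[X] (RatFunc K) b ≠ 0 :=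
  RatFunc.algebraMap_ne_zero hb

theorem th_div (a b : K[X]) (hb : b ≠ 0) :
    th (algebraMap K[X] (RatFunc K) a / algebraMap K[X] (RatFunc K) b) =
      algebraMap K[X] (RatFunc K) (wr a b) / algebraMap K[X] (RatFunc K) b ^ 2 := by
  set f := algebraMap K[X] (RatFunc K) a / algebraMap K[X] (RatFunc K) b with hf
  have hd : f.denom ≠ 0 := RatFunc.denom_ne_zero f
  have h1 : f.num * b = a * f.denom := by
    have h2 := RatFunc.num_div_denom f
    rw [hf, div_eq_div_iff (phi_ne hd) (phi_ne hb), ← map_mul, ← map_mul] at h2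
    exact RatFunc.algebraMap_injective K h2
  have h2 : derivative f.num * b + f.num * derivative b =
      derivative a * f.denom + a * derivative f.denom := by
    rw [← derivative_mul, h1, derivative_mul]
  rw [th, div_eq_div_iff (pow_ne_zero 2 (phi_ne hd)) (pow_ne_zero 2 (phi_ne hb)), ← map_pow,
    ← map_pow, ← map_mul, ← map_mul]
  congr 1
  unfold wr
  linear_combination (-(b * derivative f.denom + derivative b * f.denom)) * h1 +
    (b * f.denom) * h2

theorem exists_frac (f : RatFunc K) : ∃ a b : K[X], b ≠ 0 ∧ IsCoprime a b ∧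
    f = algebraMap K[X] (RatFunc K) a / algebraMap K[X] (RatFunc K) b :=
  ⟨f.num, f.denom, RatFunc.denom_ne_zero f, RatFunc.isCoprime_num_denom f,
    (RatFunc.num_div_denom f).symm⟩

theorem th_add (f g : RatFunc K) : th (f + g) = th f + th g := by
  obtain ⟨a, b, hb, -, rfl⟩ := exists_frac f
  obtain ⟨c, d, hd, -, rfl⟩ := exists_frac g
  have h1 := phi_ne hb
  have h2 := phi_ne hd
  rw [div_add_div _ _ h1 h2, ← map_mul, ← map_mul, ← map_mul, ← map_add,
    th_div _ _ (mul_ne_zero hb hd), th_div _ _ hb, th_div _ _ hd]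
  unfold wr
  simp only [derivative_mul, map_mul, map_add, map_sub]
  field_simp
  ring

theorem th_mul (f g : RatFunc K) : th (f * g) = th f * g + f * th g := by
  obtain ⟨a, b, hb, -, rfl⟩ := exists_frac f
  obtain ⟨c, d, hd, -, rfl⟩ := exists_frac g
  have h1 := phi_ne hb
  have h2 := phi_ne hd
  rw [div_mul_div_comm, ← map_mul, ← map_mul,
    th_div _ _ (mul_ne_zero hb hd), th_div _ _ hb, th_div _ _ hd]
  unfold wr
  simp only [derivative_mul, map_mul, map_add, map_sub]
  field_simp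
  ring

theorem th_C (c : K) : th (RatFunc.C c) = 0 := by
  have h : (RatFunc.C c : RatFunc K) = algebraMap K[X] (RatFunc K) (C c) /
      algebraMap K[X] (RatFunc K) 1 := by
    rw [map_one, div_one, RatFunc.algebraMap_C]
  rw [h, th_div _ _ one_ne_zero]
  unfold wr
  simp

theorem th_neg (f : RatFunc K) : th (-f) = -th f := by
  have h1 : th (-f) = th (RatFunc.C (-1) * f) := by
    rw [map_neg, map_one, neg_one_mul]
  rw [h1, th_mul, th_C, zero_mul, zero_add, map_neg, map_one, neg_one_mul]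

theorem th_sub (f g : RatFunc K) : th (f - g) = th f - th g := by
  rw [sub_eq_add_neg, th_add, th_neg, ← sub_eq_add_neg]

theorem th_ker [CharZero K] {f : RatFunc K} (h : th f = 0) : ∃ c : K, f = RatFunc.C c := by
  obtain ⟨a, b, hb, hco, rfl⟩ := exists_frac f
  rw [th_div _ _ hb, div_eq_zero_iff, or_iff_left (pow_ne_zero 2 (phi_ne hb)),
    map_eq_zero_iff _ (RatFunc.algebraMap_injective K)] at h
  unfold wr at h
  have h1 : derivative a * b = a * derivative b := sub_eq_zero.1 h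
  have h2 : b ∣ derivative b := by
    refine hco.symm.dvd_of_dvd_mul_left ?_
    rw [← h1]
    exact dvd_mul_left _ _
  have h3 : derivative b = 0 := Polynomial.dvd_derivative_iff.1 h2
  have h4 : derivative a = 0 := by
    rw [h3, mul_zero] at h1
    exact (mul_eq_zero.1 h1).resolve_right hb
  have h5 := Polynomial.eq_C_of_derivative_eq_zero h3
  have h6 := Polynomial.eq_C_of_derivative_eq_zero h4
  refine ⟨a.coeff 0 / b.coeff 0, ?_⟩
  rw [h5, h6]
  simp only [RatFunc.algebraMap_C, map_div₀, coeff_C_zero]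

end IntegAux

open IntegAux

theorem integr {K : Type*} [Field K] [IsAlgClosed K] [CharZero K] {p1 q1 p2 q2 : K[X]}
    (hq1 : q1 ≠ 0) (hq2 : q2 ≠ 0) (hw1 : wr p1 q1 ≠ 0) (hw2 : wr p2 q2 ≠ 0)
    (h : wr p1 q1 ^ 2 * rr p2 q2 = wr p2 q2 ^ 2 * rr p1 q1) :
    p1 * q2 = p2 * q1 ∨ p1 * q2 = -(p2 * q1) ∨ ∃ n d : K[X], IsCoprime n d ∧ n ≠ 0 ∧ d ≠ 0 ∧
      p2 * (n * d) = (n ^ 2 + d ^ 2) * q2 := by
  set φ := algebraMap K[X] (RatFunc K) with hφ
  have hinj : Function.Injective φ := RatFunc.algebraMap_injective K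
  have e1 : φ q1 ≠ 0 := phi_ne hq1
  have e2 : φ q2 ≠ 0 := phi_ne hq2
  set g₁ : RatFunc K := φ p1 / φ q1 with hg1
  set g₂ : RatFunc K := φ p2 / φ q2 with hg2
  have t1 : th g₁ = φ (wr p1 q1) / φ q1 ^ 2 := th_div _ _ hq1
  have t2 : th g₂ = φ (wr p2 q2) / φ q2 ^ 2 := th_div _ _ hq2
  have a0 : th g₁ ≠ 0 := by
    rw [t1]
    exact div_ne_zero (phi_ne hw1) (pow_ne_zero 2 e1)
  have b0 : th g₂ ≠ 0 := by
    rw [t2]
    exact div_ne_zero (phi_ne hw2) (pow_ne_zero 2 e2)
  have H : th g₁ ^ 2 * (g₂ ^ 2 - 4) = th g₂ ^ 2 * (g₁ ^ 2 - 4) := by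
    have h1 := congrArg φ h
    unfold rr at h1
    simp only [map_mul, map_pow, map_sub, map_ofNat] at h1
    rw [t1, t2, hg1, hg2]
    field_simp
    linear_combination h1
  have four : th (4 : RatFunc K) = 0 := by
    have h1 : (4 : RatFunc K) = RatFunc.C (4 : K) := by rw [map_ofNat]
    rw [h1, th_C]
  have two0 : (2 : RatFunc K) ≠ 0 := two_ne_zero
  set a := th g₁ with ha
  set b := th g₂ with hb
  have hgne : g₂ ^ 2 - 4 ≠ 0 := by
    intro h0
    have h1 : th (g₂ ^ 2 - 4) = 0 := by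
      rw [h0]
      have := th_C (0 : K)
      rwa [map_zero] at this
    rw [th_sub, four, sub_zero, pow_two, th_mul, ← hb] at h1
    have h2 : 2 * (b * g₂) = 0 := by linear_combination h1
    have h3 : g₂ = 0 := by
      rcases mul_eq_zero.1 h2 with h3 | h3
      · exact absurd h3 two0
      · exact (mul_eq_zero.1 h3).resolve_left b0
    rw [h3] at h0
    norm_num at h0
  set R : RatFunc K := (g₂ ^ 2 - 4) * a / b with hR
  have R0 : R ≠ 0 := div_ne_zero (mul_ne_zero hgne a0) b0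
  have r1 : R * b = (g₂ ^ 2 - 4) * a := by
    rw [hR]
    field_simp
  have r2 : R * a = (g₁ ^ 2 - 4) * b := by
    have h1 : (R * a) * b = ((g₁ ^ 2 - 4) * b) * b := by
      linear_combination a * r1 + H
    exact mul_right_cancel₀ b0 h1
  have r3 : R ^ 2 = (g₁ ^ 2 - 4) * (g₂ ^ 2 - 4) := by
    have h1 : R ^ 2 * (a * b) = ((g₁ ^ 2 - 4) * (g₂ ^ 2 - 4)) * (a * b) := by
      linear_combination (R * a) * r1 + (g₂ ^ 2 - 4) * a * r2
    exact mul_right_cancel₀ (mul_ne_zero a0 b0) h1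
  have r4 : th R = b * g₁ + a * g₂ := by
    have h1 := congrArg th r3
    rw [pow_two, th_mul, th_mul, th_sub, th_sub, four, pow_two, pow_two, th_mul, th_mul,
      ← ha, ← hb] at h1
    have h2 : (2 * R) * th R = (2 * R) * (b * g₁ + a * g₂) := by
      linear_combination h1 - 2 * g₁ * r1 - 2 * g₂ * r2
    exact mul_left_cancel₀ (mul_ne_zero two0 R0) h2
  obtain ⟨c, hc⟩ : ∃ c : K, g₁ * g₂ - R = RatFunc.C c := by
    apply th_ker
    rw [th_sub, th_mul, ← ha, ← hb, r4]
    ring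
  obtain ⟨μ, hμ⟩ : ∃ μ : K, c = 2 * μ := ⟨c / 2, by field_simp⟩
  set M : RatFunc K := RatFunc.C μ with hM
  have hR2 : R = g₁ * g₂ - 2 * M := by
    have h1 : RatFunc.C c = 2 * M := by rw [hμ, map_mul, map_ofNat]
    rw [← h1, ← hc]
    ring
  have key : g₁ ^ 2 + g₂ ^ 2 - M * (g₁ * g₂) + M ^ 2 - 4 = 0 := by
    rw [hR2] at r3
    have h1 : (4 : RatFunc K) * (g₁ ^ 2 + g₂ ^ 2 - M * (g₁ * g₂) + M ^ 2 - 4) = 0 := by
      linear_combination r3
    exact (mul_eq_zero.1 h1).resolve_left (by norm_num)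
  obtain ⟨z, hz⟩ := IsAlgClosed.exists_eq_mul_self (μ ^ 2 - 4)
  obtain ⟨l, hl⟩ : ∃ l : K, l = (μ + z) / 2 := ⟨_, rfl⟩
  have hl2 : l ^ 2 - μ * l + 1 = 0 := by
    rw [hl]
    field_simp
    linear_combination (-1 : K) * hz
  have hl0 : l ≠ 0 := by
    rintro h0
    rw [h0] at hl2
    norm_num at hl2
  have back : ∀ {x y x' y' : K[X]}, y ≠ 0 → y' ≠ 0 → φ x / φ y = φ x' / φ y' → x * y' = x' * y := by
    intro x y x' y' hy hy' hh
    rw [div_eq_div_iff (phi_ne hy) (phi_ne hy'), ← map_mul, ← map_mul] at hh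
    exact hinj hh
  by_cases hl1 : l ^ 2 - 1 = 0
  · have h1 : (l - 1) * (l + 1) = 0 := by linear_combination hl1
    rcases mul_eq_zero.1 h1 with h2 | h2
    · left
      have h3 : l = 1 := sub_eq_zero.1 h2
      have h4 : μ = 2 := by
        rw [h3] at hl2
        linear_combination (-1 : K) * hl2
      have h5 : M = 2 := by rw [hM, h4, map_ofNat]
      rw [h5] at key
      have h6 : (g₁ - g₂) ^ 2 = 0 := by linear_combination key
      have h7 : g₁ = g₂ := sub_eq_zero.1 ((pow_eq_zero_iff two_ne_zero).1 h6)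
      exact back hq1 hq2 h7
    · right; left
      have h3 : l = -1 := eq_neg_of_add_eq_zero_left h2
      have h4 : μ = -2 := by
        rw [h3] at hl2
        linear_combination hl2
      have h5 : M = -2 := by rw [hM, h4, map_neg, map_ofNat]
      rw [h5] at key
      have h6 : (g₁ + g₂) ^ 2 = 0 := by linear_combination key
      have h7 : g₁ = -g₂ := eq_neg_of_add_eq_zero_left ((pow_eq_zero_iff two_ne_zero).1 h6)
      have h8 : φ p1 / φ q1 = φ (-p2) / φ q2 := by
        rw [map_neg, neg_div]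
        exact h7
      have h9 := back hq1 hq2 h8
      rw [h9]
      ring
  · right; right
    set Λ : RatFunc K := RatFunc.C l with hΛ
    have hΛ1 : Λ ^ 2 - 1 ≠ 0 := by
      rw [hΛ, ← map_pow, ← map_one RatFunc.C, ← map_sub]
      intro h0
      exact hl1 ((map_eq_zero RatFunc.C).1 h0)
    have hΛM : Λ ^ 2 - M * Λ + 1 = 0 := by
      rw [hΛ, hM, ← map_pow, ← map_mul, ← map_sub, ← map_one RatFunc.C, ← map_add, hl2, map_zero]
    set s : RatFunc K := (Λ * g₁ - g₂) / (Λ ^ 2 - 1) with hs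
    set t : RatFunc K := Λ * (Λ * g₂ - g₁) / (Λ ^ 2 - 1) with ht
    have hst : s + t = g₂ := by
      rw [hs, ht]
      field_simp
      ring
    have hst1 : s * t = 1 := by
      rw [hs, ht, div_mul_div_comm, div_eq_one_iff_eq (mul_ne_zero hΛ1 hΛ1)]
      linear_combination (-(Λ ^ 2)) * key + (Λ * (g₁ * g₂) - Λ ^ 2 - M * Λ - 1 + 0) * hΛM
    have hs0 : s ≠ 0 := left_ne_zero_of_mul_eq_one hst1
    obtain ⟨n, d, hd, hco, hnd⟩ := exists_frac s
    have hn : n ≠ 0 := by
      rintro rfl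
      apply hs0
      rw [hnd, map_zero, zero_div]
    refine ⟨n, d, hco, hn, hd, ?_⟩
    have hgs : g₂ = φ (n ^ 2 + d ^ 2) / φ (n * d) := by
      have h1 : t = s⁻¹ := eq_inv_of_mul_eq_one_right hst1
      rw [← hst, h1, hnd]
      have e3 := phi_ne hn
      have e4 := phi_ne hd
      simp only [map_add, map_pow, map_mul, ← hφ] at e3 e4 ⊢
      field_simp
    exact back hq2 (mul_ne_zero hn hd) hgs

end Pool.Agent.Lib.P62c
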