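import Pool.Agent.Lib.P62c.WrEq
import Pool.Agent.Lib.P62c.Integ
import Pool.Agent.Lib.P62c.IsoTT

/-!
# Galois conjugates of a decomposition through a Chebyshev polynomial
-/

namespace Pool.Agent.Lib.P62c

open Polynomial Pool.Agent.Lib.P62a0c3 Pool.Agent.Lib.P62h Pool.Agent.Lib.P62h.HomAAux

theorem hom_lin {K : Type*} [Field K] (a : ℕ) (x y : K) (P Q M N : K[X]) :
    hom a (C x * P + C y * Q) M N = C x * hom a P M N + C y * hom a Q M N := by
  unfold hom
  rw [Finset.mul_sum, Finset.mul_sum, ← Finset.sum_add_distrib]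
  refine Finset.sum_congr rfl fun i _ => ?_
  rw [coeff_add, coeff_C_mul, coeff_C_mul, C_add, C_mul, C_mul]
  ring

theorem coprime_lin {K : Type*} [Field K] {x y z w : K} (hdet : x * w - y * z ≠ 0) {P Q : K[X]}
    (h : IsCoprime P Q) : IsCoprime (C x * P + C y * Q) (C z * P + C w * Q) := by
  obtain ⟨u, v, huv⟩ := h
  refine ⟨C (x * w - y * z)⁻¹ * (u * C w - v * C z), C (x * w - y * z)⁻¹ * (v * C x - u * C y), ?_⟩
  have h1 : C (x * w - y * z)⁻¹ * C (x * w - y * z) = (1 : K[X]) := by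
    rw [← C_mul, inv_mul_cancel₀ hdet, C_1]
  have h2 : C (x * w - y * z)⁻¹ * (u * C w - v * C z) * (C x * P + C y * Q) +
      C (x * w - y * z)⁻¹ * (v * C x - u * C y) * (C z * P + C w * Q) =
      C (x * w - y * z)⁻¹ * C (x * w - y * z) * (u * P + v * Q) := by
    simp only [C_sub, C_mul]
    ring
  rw [h2, h1, huv, one_mul]

theorem natDegree_lin_le {K : Type*} [Field K] {a : ℕ} {P Q : K[X]}
    (h : max P.natDegree Q.natDegree = a) (x y : K) : (C x * P + C y * Q).natDegree ≤ a := by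
  refine (natDegree_add_le _ _).trans (max_le ?_ ?_)
  · exact (natDegree_C_mul_le _ _).trans (h ▸ le_max_left _ _)
  · exact (natDegree_C_mul_le _ _).trans (h ▸ le_max_right _ _)

theorem wr_ne {K : Type*} [Field K] [CharZero K] {b : ℕ} (hb : 1 ≤ b) {p q : K[X]}
    (h : IsCoprime p q) (hd : max p.natDegree q.natDegree = b) : wr p q ≠ 0 := by
  intro h0
  rw [wr, sub_eq_zero] at h0
  have hQ : derivative q = 0 := by
    rw [← dvd_derivative_iff]
    refine h.symm.dvd_of_dvd_mul_left ?_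
    rw [← h0]; exact Dvd.intro_left _ rfl
  have hP : derivative p = 0 := by
    rw [← dvd_derivative_iff]
    refine h.dvd_of_dvd_mul_right ?_
    rw [h0]; exact Dvd.intro _ rfl
  have h1 := derivative_eq_zero.1 hP
  have h2 := derivative_eq_zero.1 hQ
  rw [h1, h2] at hd
  simp at hd
  omega

theorem galT {K : Type*} [Field K] [IsAlgClosed K] [CharZero K] {a b m : ℕ} (ha : 1 ≤ a)
    (hb : 1 ≤ b) (hm : 8 * b < m) {P Q : K[X]} (hPQ : IsCoprime P Q) {PA QA p q : K[X]} {l : K}
    (hl : l ≠ 0) (hA : IsCoprime PA QA) (hAa : max PA.natDegree QA.natDegree = a)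
    (hg : IsCoprime p q) (hgb : max p.natDegree q.natDegree = b) (hq : q.Monic)
    (hP : P = C l * hom a PA (hom m (dickson 1 (1 : K) m) p q) (q ^ m))
    (hQ : Q = C l * hom a QA (hom m (dickson 1 (1 : K) m) p q) (q ^ m)) {x0 : K}
    (hx0 : q.eval x0 = 0) (σ : K →+* K) (hσP : P.map σ = P) (hσQ : Q.map σ = Q)
    (hσx : σ x0 = x0) :
    (q.map σ = q ∧ (p.map σ = p ∨ p.map σ = -p)) ∨ ∃ n d : K[X], IsCoprime n d ∧ n ≠ 0 ∧
      d ≠ 0 ∧ p * (n * d) = (n ^ 2 + d ^ 2) * q := by
  classical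
  have hm1 : 1 ≤ m := by omega
  set M := hom m (dickson 1 (1 : K) m) p q with hM
  have hMN : IsCoprime M (q ^ m) := by
    have h1 := hom_coprime (P := dickson 1 (1 : K) m) (Q := 1) isCoprime_one_right
      (dickson_pair_degree hm1) hg
    rwa [iT_hom_const] at h1
  have hN0 : (q ^ m).eval x0 = 0 := by
    rw [eval_pow, hx0, zero_pow (by omega)]
  have hM0 : M.eval x0 ≠ 0 := (not_both M (q ^ m) hMN x0).resolve_right (fun h => h hN0)
  set u := P.eval x0 with hu
  set v := Q.eval x0 with hv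
  have hσu : σ u = u := by
    rw [hu]
    have h1 : (P.map σ).eval (σ x0) = σ (P.eval x0) := by
      rw [eval_map, eval₂_at_apply]
    rw [← h1, hσP, hσx]
  have hσv : σ v = v := by
    rw [hv]
    have h1 : (Q.map σ).eval (σ x0) = σ (Q.eval x0) := by
      rw [eval_map, eval₂_at_apply]
    rw [← h1, hσQ, hσx]
  -- normalisation
  obtain ⟨x, y, z, w, hσx', hσy, hσz, hσw, hdet, hzw⟩ : ∃ x y z w : K, σ x = x ∧ σ y = y ∧
      σ z = z ∧ σ w = w ∧ x * w - y * z ≠ 0 ∧ z * u + w * v = 0 := by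
    by_cases h0 : v = 0
    · exact ⟨1, 0, 0, 1, map_one σ, map_zero σ, map_zero σ, map_one σ, by simp, by simp [h0]⟩
    · exact ⟨0, 1, v, -u, map_zero σ, map_one σ, hσv, by rw [map_neg, hσu], by simpa using h0,
        by ring⟩
  set P1 := C x * P + C y * Q with hP1
  set Q1 := C z * P + C w * Q with hQ1
  set A1 := C x * PA + C y * QA with hA1
  set B1 := C z * PA + C w * QA with hB1
  have hPQ1 : IsCoprime P1 Q1 := coprime_lin hdet hPQ
  have hAB1 : IsCoprime A1 B1 := coprime_lin hdet hA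
  have eP1 : P1 = C l * hom a A1 M (q ^ m) := by
    rw [hP1, hA1, hom_lin, hP, hQ]; ring
  have eQ1 : Q1 = C l * hom a B1 M (q ^ m) := by
    rw [hQ1, hB1, hom_lin, hP, hQ]; ring
  have hB1a : B1.coeff a = 0 := by
    have h1 : Q1.eval x0 = 0 := by
      rw [hQ1, eval_add, eval_mul, eval_mul, eval_C, eval_C]
      exact hzw
    rw [eQ1, eval_mul, eval_C, eval_hom, hN0, H_zero] at h1
    have h2 := (mul_eq_zero.1 h1).resolve_left hl
    exact (mul_eq_zero.1 h2).resolve_right (pow_ne_zero _ hM0)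
  have hA1a : A1.coeff a ≠ 0 := by
    intro h0
    have h1 : x * PA.coeff a + y * QA.coeff a = 0 := by
      rw [hA1, coeff_add, coeff_C_mul, coeff_C_mul] at h0; exact h0
    have h2 : z * PA.coeff a + w * QA.coeff a = 0 := by
      rw [hB1, coeff_add, coeff_C_mul, coeff_C_mul] at hB1a; exact hB1a
    have h3 : (x * w - y * z) * PA.coeff a = 0 := by linear_combination w * h1 - y * h2
    have h4 : (x * w - y * z) * QA.coeff a = 0 := by linear_combination x * h2 - z * h1
    rcases top_ne hA hAa with h5 | h5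
    · exact h5 ((mul_eq_zero.1 h3).resolve_left hdet)
    · exact h5 ((mul_eq_zero.1 h4).resolve_left hdet)
  have hA1d : A1.natDegree = a :=
    le_antisymm (natDegree_lin_le hAa _ _) (le_natDegree_of_ne_zero hA1a)
  have hB1le : B1.natDegree ≤ a := natDegree_lin_le hAa _ _
  have hB10 : B1 ≠ 0 := by
    intro h0
    rw [h0] at hAB1
    have h1 := natDegree_eq_zero_of_isUnit (isCoprime_zero_right.1 hAB1)
    omega
  have hB1lt : B1.natDegree < a := by
    refine lt_of_le_of_ne hB1le fun h => ?_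
    rw [← h] at hB1a
    exact hB10 (leadingCoeff_eq_zero.1 hB1a)
  obtain ⟨α, hα1, hαa, hαB⟩ : ∃ α, 1 ≤ α ∧ α ≤ a ∧ B1.natDegree = a - α :=
    ⟨a - B1.natDegree, by omega, by omega, by omega⟩
  -- the conjugate decomposition
  have hσinj : Function.Injective σ := σ.injective
  have mP1 : P1.map σ = P1 := by
    rw [hP1, Polynomial.map_add, Polynomial.map_mul, Polynomial.map_mul, map_C, map_C, hσx', hσy,
      hσP, hσQ]
  have mQ1 : Q1.map σ = Q1 := by
    rw [hQ1, Polynomial.map_add, Polynomial.map_mul, Polynomial.map_mul, map_C, map_C, hσz, hσw,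
      hσP, hσQ]
  have eP1' : P1 = C (σ l) * hom a (A1.map σ) (hom m (dickson 1 (1 : K) m) (p.map σ) (q.map σ))
      ((q.map σ) ^ m) := by
    have h1 := congrArg (Polynomial.map σ) eP1
    rw [mP1, Polynomial.map_mul, map_C, hom_map, hM, hom_map, map_dickson, map_one,
      Polynomial.map_pow] at h1
    exact h1
  have eQ1' : Q1 = C (σ l) * hom a (B1.map σ) (hom m (dickson 1 (1 : K) m) (p.map σ) (q.map σ))
      ((q.map σ) ^ m) := by
    have h1 := congrArg (Polynomial.map σ) eQ1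
    rw [mQ1, Polynomial.map_mul, map_C, hom_map, hM, hom_map, map_dickson, map_one,
      Polynomial.map_pow] at h1
    exact h1
  have hgσ : IsCoprime (p.map σ) (q.map σ) := (Polynomial.isCoprime_map σ).2 hg
  have hgbσ : max (p.map σ).natDegree (q.map σ).natDegree = b := by
    rw [natDegree_map, natDegree_map]; exact hgb
  have hqσ : (q.map σ).Monic := hq.map σ
  have hxσ : (q.map σ).eval x0 = 0 := by
    rw [← hσx, eval_map, eval₂_at_apply, hx0, map_zero]
  have hwr := wr_eq (x0 := x0) hα1 hαa hb hm hPQ1 ((_root_.map_ne_zero σ).2 hl) hl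
    (by rw [natDegree_map, hA1d]) (by rw [natDegree_map, hαB])
    ((Polynomial.map_ne_zero_iff hσinj).2 hB10) hA1d hαB hB10 hgσ hgbσ hqσ.ne_zero hxσ hg hgb
    hq.ne_zero hx0 eP1' eQ1' eP1 eQ1
  have hfin : ∀ ε : K[X], ε * ε = 1 → p.map σ * q = ε * (p * q.map σ) →
      q.map σ = q ∧ p.map σ = ε * p := by
    intro ε hε h
    have d1 : q ∣ q.map σ := by
      refine IsCoprime.dvd_of_dvd_mul_left hg.symm (?_ : q ∣ p * q.map σ)
      refine ⟨ε * p.map σ, ?_⟩
      linear_combination (-(p * q.map σ)) * hε - ε * h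
    have d2 : q.map σ ∣ q := by
      refine IsCoprime.dvd_of_dvd_mul_left hgσ.symm (?_ : q.map σ ∣ p.map σ * q)
      refine ⟨ε * p, ?_⟩
      rw [h]; ring
    have e1 : q.map σ = q := eq_of_monic_of_associated hqσ hq (associated_of_dvd_dvd d2 d1)
    refine ⟨e1, ?_⟩
    rw [e1] at h
    apply mul_right_cancel₀ hq.ne_zero
    rw [h]; ring
  rcases integr hqσ.ne_zero hq.ne_zero (wr_ne hb hgσ hgbσ) (wr_ne hb hg hgb) hwr with h | h | h
  · left
    obtain ⟨e1, e2⟩ := hfin 1 (one_mul 1) (by rw [one_mul]; exact h)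
    exact ⟨e1, Or.inl (by rw [e2, one_mul])⟩
  · left
    obtain ⟨e1, e2⟩ := hfin (-1) (by ring) (by rw [h]; ring)
    exact ⟨e1, Or.inr (by rw [e2, neg_one_mul])⟩
  · exact Or.inr h

end Pool.Agent.Lib.P62c
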