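import Pool.Agent.Lib.P62g.Core
import Pool.Agent.Lib.P62c.HtB

/-!
# The geometry of `P62g.Build` with its height (adapted from `exists_geo_core`)
-/

namespace Pool.Agent.Lib.P62c

open Polynomial IsDedekindDomain WithZero Pool.Agent.Lib.P62g Pool.Agent.Lib.P62g.BuildAux

theorem geo_core_pol {F L : Type*} [Field F] [IsAlgClosed F] [CharZero F] [Field L]
    [Algebra F L] [Algebra F[X] L] [Algebra (RatFunc F) L] [IsScalarTower F[X] (RatFunc F) L]
    [IsScalarTower F (RatFunc F) L] [FiniteDimensional (RatFunc F) L]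
    (pb : PowerBasis (RatFunc F) L) (hpb : InfInt (algebraMap (RatFunc F) L) pb.gen)
    (hdisc : (Algebra.discr (RatFunc F) pb.basis).intDegree = 0) :
    ∃ G : Geo F L, (∀ x, x ∈ G.Inf ↔ InfInt (algebraMap (RatFunc F) L) x) ∧
      (∀ x, G.h x = pol F x) ∧
      (G.κ : ℤ) ≤ 2 * (Module.finrank (RatFunc F) L : ℤ) ^ 3 * G.h pb.gen := by
  obtain ⟨s, hs0, hsB, hsdeg⟩ := exists_s (F := F) (L := L) pb.gen
  have hsK : algebraMap F[X] (RatFunc F) s ≠ 0 :=
    (map_ne_zero_iff _ (IsFractionRing.injective F[X] (RatFunc F))).2 hs0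
  obtain ⟨pb', hgen, hdim, hD⟩ := scale_pb pb (algebraMap F[X] (RatFunc F) s) hsK
  have hint : IsIntegral F[X] pb'.gen := by
    rw [hgen, ← IsScalarTower.algebraMap_apply F[X] (RatFunc F) L]
    exact hsB
  have hn : pb.dim = Module.finrank (RatFunc F) L := pb.finrank.symm
  set n := Module.finrank (RatFunc F) L with hndef
  set m : ℕ := n * (n - 1) * s.natDegree with hm
  have hm' : m = pb.dim * (pb.dim - 1) * s.natDegree := by rw [hm, hn]
  set D := Algebra.discr (RatFunc F) pb'.basis with hDdef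
  have hD0 : D ≠ 0 := Algebra.discr_not_zero_of_basis (RatFunc F) pb'.basis
  have hdisc0 : Algebra.discr (RatFunc F) pb.basis ≠ 0 :=
    Algebra.discr_not_zero_of_basis (RatFunc F) pb.basis
  have hDdeg : D.intDegree = m := by
    rw [hD, RatFunc.intDegree_mul (pow_ne_zero _ hsK) hdisc0, intDegree_pow hsK, hdisc,
      RatFunc.intDegree_polynomial, hm', add_zero]
    push_cast
    rfl
  obtain ⟨δ, hδ, hδker⟩ := exists_der (F := F) (L := L)
  have hDL : algebraMap (RatFunc F) L D ≠ 0 :=
    (map_ne_zero_iff _ (algebraMap (RatFunc F) L).injective).2 hD0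
  let θ : Derivation F L L := (algebraMap (RatFunc F) L D) ^ 2 • δ
  have hθ : ∀ x, θ x = (algebraMap (RatFunc F) L D) ^ 2 * δ x := fun x => rfl
  have hθB : ∀ b ∈ integralClosure F[X] L, θ b ∈ integralClosure F[X] L := by
    intro b hb
    exact disc_der (R := F[X]) (K := RatFunc F) pb' hint (δ.restrictScalars ℤ)
      (fun r => ⟨derivative r, hδ r⟩) b hb
  have hX0 : (RatFunc.X : RatFunc F) ≠ 0 := RatFunc.X_ne_zero
  have hXL : algebraMap (RatFunc F) L (RatFunc.X ^ (2 * m)) ≠ 0 :=
    (map_ne_zero_iff _ (algebraMap (RatFunc F) L).injective).2 (pow_ne_zero _ hX0)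
  have hXpow : (RatFunc.X ^ (2 * m) : RatFunc F) =
      algebraMap F[X] (RatFunc F) (X ^ (2 * m)) := by
    rw [map_pow, RatFunc.algebraMap_X]
  have hδX : δ (algebraMap (RatFunc F) L (RatFunc.X ^ (2 * m))) =
      algebraMap (RatFunc F) L (algebraMap F[X] (RatFunc F) (derivative (X ^ (2 * m)))) := by
    rw [hXpow, ← IsScalarTower.algebraMap_apply F[X] (RatFunc F) L, hδ,
      ← IsScalarTower.algebraMap_apply F[X] (RatFunc F) L]
  refine ⟨{
    Pl := HeightOneSpectrum (integralClosure F[X] L)
    v := fun p => p.valuation L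
    θ := θ
    Inf := infSub (algebraMap (RatFunc F) L)
    U := algebraMap (RatFunc F) L (RatFunc.X ^ (2 * m))
    κ := 2 * n * m
    v_const := fun p c hc => v_const p c hc
    v_fin := fun x hx => val_finite x hx
    θ_ker := ?_
    θ_v := fun p x => (val_der (θ.restrictScalars ℤ) hθB p x).1
    θ_int := fun p x hx => (val_der (θ.restrictScalars ℤ) hθB p x).2 hx
    Inf_const := ?_
    Inf_θ := ?_
    Inf_U := ?_
    U_ne := hXL
    tot_Inf := ?_
    tot_U := ?_
    const_of := ?_ }, fun x => Iff.rfl, fun x => ?_, ?_⟩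
  · intro x hx
    rw [hθ] at hx
    rcases mul_eq_zero.1 hx with h | h
    · exact absurd h (pow_ne_zero 2 hDL)
    · exact hδker x h
  · intro c
    rw [mem_infSub, const_eq]
    exact infInt_base _ (by rw [RatFunc.intDegree_C])
  · intro x hx
    refine ⟨algebraMap (RatFunc F) L (D ^ 2 / RatFunc.X ^ (2 * m)) * δ x, ?_, ?_⟩
    · refine infInt_mul _ (infInt_base _ ?_) (infInt_der δ hδ pb hpb hdisc hx)
      rw [RatFunc.intDegree_div (pow_ne_zero 2 hD0) (pow_ne_zero _ hX0), intDegree_pow hD0,
        intDegree_pow hX0, hDdeg, RatFunc.intDegree_X]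
      push_cast
      omega
    · have h1 : algebraMap (RatFunc F) L (D ^ 2 / RatFunc.X ^ (2 * m)) =
          algebraMap (RatFunc F) L D ^ 2 / algebraMap (RatFunc F) L (RatFunc.X ^ (2 * m)) := by
        rw [map_div₀, map_pow (algebraMap (RatFunc F) L) D 2]
      rw [hθ, h1, ← mul_assoc, mul_div_cancel₀ _ hXL]
  · refine ⟨algebraMap (RatFunc F) L (D ^ 2 * algebraMap F[X] (RatFunc F)
      (derivative (X ^ (2 * m))) / (RatFunc.X ^ (2 * m)) ^ 2), infInt_base _ ?_, ?_⟩
    · by_cases hm0 : m = 0
      · rw [hm0, mul_zero, pow_zero, derivative_one, map_zero, mul_zero, zero_div,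
          RatFunc.intDegree_zero]
      · have hd0 : derivative (X ^ (2 * m) : F[X]) ≠ 0 := by
          rw [derivative_X_pow]
          refine mul_ne_zero ?_ (pow_ne_zero _ X_ne_zero)
          rw [Ne, C_eq_zero]
          have : 2 * m ≠ 0 := by omega
          exact_mod_cast this
        have hd1 : algebraMap F[X] (RatFunc F) (derivative (X ^ (2 * m))) ≠ 0 :=
          (map_ne_zero_iff _ (IsFractionRing.injective F[X] (RatFunc F))).2 hd0
        have hd2 : (derivative (X ^ (2 * m) : F[X])).natDegree ≤ 2 * m - 1 := by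
          refine (natDegree_derivative_le _).trans ?_
          rw [natDegree_X_pow]
        rw [RatFunc.intDegree_div (mul_ne_zero (pow_ne_zero 2 hD0) hd1)
          (pow_ne_zero 2 (pow_ne_zero _ hX0)),
          RatFunc.intDegree_mul (pow_ne_zero 2 hD0) hd1, intDegree_pow hD0,
          intDegree_pow (pow_ne_zero _ hX0),
          intDegree_pow hX0, hDdeg, RatFunc.intDegree_X, RatFunc.intDegree_polynomial]
        push_cast
        omega
    · rw [hθ, hδX]
      set E := algebraMap F[X] (RatFunc F) (derivative (X ^ (2 * m))) with hE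
      have h1 : algebraMap (RatFunc F) L (D ^ 2 * E / (RatFunc.X ^ (2 * m)) ^ 2) =
          algebraMap (RatFunc F) L D ^ 2 * algebraMap (RatFunc F) L E /
            (algebraMap (RatFunc F) L (RatFunc.X ^ (2 * m)) *
              algebraMap (RatFunc F) L (RatFunc.X ^ (2 * m))) := by
        rw [map_div₀, map_mul, map_pow (algebraMap (RatFunc F) L) D 2, pow_two (RatFunc.X ^ (2 * m)),
          map_mul (algebraMap (RatFunc F) L) (RatFunc.X ^ (2 * m))]
      rw [h1, mul_div_cancel₀ _ (mul_ne_zero hXL hXL)]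
  · intro x hx hx0
    rw [sum_ord x hx0]
    exact infInt_norm hx
  · rw [sum_ord _ hXL, Algebra.norm_algebraMap, intDegree_pow (pow_ne_zero _ hX0),
      intDegree_pow hX0, RatFunc.intDegree_X, ← hndef]
    push_cast
    apply le_of_eq
    ring
  · intro x hx hv
    obtain ⟨r, hr⟩ := HeightOneSpectrum.mem_integers_of_valuation_le_one
      (R := integralClosure F[X] L) L x hv
    have hxB : x ∈ integralClosure F[X] L := by
      rw [← hr]
      exact r.2
    obtain ⟨c, hc⟩ := infInt_const hx hxB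
    exact ⟨c, hc.trans (const_eq c).symm⟩
  · change ∑ᶠ p : HeightOneSpectrum (integralClosure F[X] L),
        max 0 (-(-(WithZero.log (p.valuation L x)))) = pol F x
    simp only [neg_neg]
    rfl
  · have hh : (s.natDegree : ℤ) ≤ ∑ᶠ p : HeightOneSpectrum (integralClosure F[X] L),
        max 0 (-(-(WithZero.log (p.valuation L pb.gen)))) := by
      simpa only [neg_neg] using hsdeg
    change ((2 * n * m : ℕ) : ℤ) ≤ 2 * (n : ℤ) ^ 3 *
      ∑ᶠ p : HeightOneSpectrum (integralClosure F[X] L),
        max 0 (-(-(WithZero.log (p.valuation L pb.gen))))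
    refine le_trans ?_ (mul_le_mul_of_nonneg_left hh (by positivity))
    have h1 : 2 * n * m ≤ 2 * n ^ 3 * s.natDegree := by
      rw [hm]
      calc 2 * n * (n * (n - 1) * s.natDegree) ≤ 2 * n * (n * n * s.natDegree) := by
            gcongr
            omega
        _ = 2 * n ^ 3 * s.natDegree := by ring
    exact_mod_cast h1

end Pool.Agent.Lib.P62c
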