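import Pool.Agent.Lib.P62g.Prod

/-!
# Number of poles in a finite extension (Dedekind form)
-/

namespace Pool.Agent.Lib.P62c

open Polynomial IsDedekindDomain WithZero

namespace HtAux

variable {A B L M : Type*} [CommRing A] [IsDedekindDomain A] [CommRing B] [IsDedekindDomain B]
  [Algebra A B] [Module.IsTorsionFree A B] [Module.Finite A B]

/-- the place below -/
def below (A : Type*) {B : Type*} [CommRing A] [IsDedekindDomain A] [CommRing B]
    [IsDedekindDomain B] [Algebra A B] [Module.Finite A B] (q : HeightOneSpectrum B) :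
    HeightOneSpectrum A :=
  ⟨q.asIdeal.under A, inferInstance, fun h => q.ne_bot (Ideal.eq_bot_of_comap_eq_bot h)⟩

variable [Field L] [Field M] [Algebra L M] [Algebra A L] [IsFractionRing A L] [Algebra A M]
  [IsScalarTower A L M] [Algebra B M] [IsFractionRing B M] [IsScalarTower A B M]

theorem val_below (q : HeightOneSpectrum B) (x : L) :
    (below A q).valuation L x ^ ((below A q).asIdeal.ramificationIdx' q.asIdeal) =
      q.valuation M (algebraMap L M x) := by
  have : q.asIdeal.LiesOver (below A q).asIdeal := Ideal.over_under q.asIdeal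
  exact HeightOneSpectrum.valuation_liesOver M (below A q) q x

theorem pol_ext_aux
    (hf : ∀ (p : Ideal A) (q : Ideal B) [p.IsMaximal] [q.IsMaximal] [q.LiesOver p],
      p.inertiaDeg' q = 1)
    (x : L) (hx : x ≠ 0) (hA : {p : HeightOneSpectrum A | p.valuation L x ≠ 1}.Finite)
    (hB : {q : HeightOneSpectrum B | q.valuation M (algebraMap L M x) ≠ 1}.Finite) :
    ∑ᶠ q : HeightOneSpectrum B, max 0 (log (q.valuation M (algebraMap L M x))) =
      (Module.finrank L M : ℤ) *
        ∑ᶠ p : HeightOneSpectrum A, max 0 (log (p.valuation L x)) := by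
  classical
  have hxM : algebraMap L M x ≠ 0 := (map_ne_zero_iff _ (algebraMap L M).injective).2 hx
  have hpow : ∀ q : HeightOneSpectrum B, max 0 (log (q.valuation M (algebraMap L M x))) =
      ((below A q).asIdeal.ramificationIdx' q.asIdeal : ℤ) *
        max 0 (log ((below A q).valuation L x)) := by
    intro q
    rw [← val_below (A := A) q x, log_pow, nsmul_eq_mul, mul_max_of_nonneg _ _ (by positivity),
      mul_zero]
  have hne : ∀ q : HeightOneSpectrum B, (below A q).valuation L x ≠ 1 →
      q.valuation M (algebraMap L M x) ≠ 1 := by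
    intro q h h1
    rw [← val_below (A := A) q x] at h1
    have hl : q.asIdeal.LiesOver (below A q).asIdeal := Ideal.over_under q.asIdeal
    have he : (below A q).asIdeal.ramificationIdx' q.asIdeal ≠ 0 :=
      Ideal.IsDedekindDomain.ramificationIdx'_ne_zero_of_liesOver q.asIdeal (below A q).ne_bot
    have h0 : (below A q).valuation L x ≠ 0 := (Valuation.ne_zero_iff _).2 hx
    have h2 := congrArg log h1
    rw [log_pow, log_one, nsmul_eq_mul, mul_eq_zero] at h2
    rcases h2 with h2 | h2
    · exact he (by exact_mod_cast h2)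
    · apply h
      rw [← exp_log h0, h2, exp_zero]
  set SA := hA.toFinset with hSA
  set SB := hB.toFinset with hSB
  have e1 : ∑ᶠ q : HeightOneSpectrum B, max 0 (log (q.valuation M (algebraMap L M x))) =
      ∑ q ∈ SB, max 0 (log (q.valuation M (algebraMap L M x))) := by
    refine finsum_eq_sum_of_support_subset _ fun q hq => ?_
    rw [hSB, Set.Finite.coe_toFinset]
    intro h1
    rw [Function.mem_support, h1, log_one] at hq
    exact hq (by simp)
  have e2 : ∑ᶠ p : HeightOneSpectrum A, max 0 (log (p.valuation L x)) =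
      ∑ p ∈ SA, max 0 (log (p.valuation L x)) := by
    refine finsum_eq_sum_of_support_subset _ fun q hq => ?_
    rw [hSA, Set.Finite.coe_toFinset]
    intro h1
    rw [Function.mem_support, h1, log_one] at hq
    exact hq (by simp)
  have hmaps : ∀ q ∈ SB, below A q ∈ SA := by
    intro q hq
    rw [hSB, Set.Finite.mem_toFinset] at hq
    rw [hSA, Set.Finite.mem_toFinset]
    intro h
    apply hq
    show q.valuation M (algebraMap L M x) = 1
    rw [← val_below (A := A) q x, h, one_pow]
  rw [e1, e2, ← Finset.sum_fiberwise_of_maps_to hmaps, Finset.mul_sum]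
  refine Finset.sum_congr rfl fun p hp => ?_
  have e3 : ∑ q ∈ SB.filter (fun q => below A q = p),
      max 0 (log (q.valuation M (algebraMap L M x))) =
      ∑ q ∈ SB.filter (fun q => below A q = p),
        (p.asIdeal.ramificationIdx' q.asIdeal : ℤ) * max 0 (log (p.valuation L x)) := by
    refine Finset.sum_congr rfl fun q hq => ?_
    rw [Finset.mem_filter] at hq
    rw [hpow q, hq.2]
  rw [e3, ← Finset.sum_mul]
  congr 1
  have hpm : p.asIdeal.IsMaximal := p.isMaximal
  have hid := Ideal.sum_ramification_inertia B L M (p := p.asIdeal) p.ne_bot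
  rw [← hid]
  push_cast
  refine Finset.sum_bij (fun q _ => q.asIdeal) ?_ ?_ ?_ ?_
  · intro q hq
    rw [Finset.mem_filter] at hq
    rw [IsDedekindDomain.mem_primesOverFinset_iff p.ne_bot]
    refine ⟨inferInstance, ⟨?_⟩⟩
    rw [← hq.2]
    rfl
  · intro q _ q' _ h
    exact HeightOneSpectrum.ext h
  · intro Q hQ
    rw [IsDedekindDomain.mem_primesOverFinset_iff p.ne_bot] at hQ
    obtain ⟨hQ1, hQ2⟩ := hQ
    have hQ0 : Q ≠ ⊥ := Ideal.ne_bot_of_liesOver_of_ne_bot p.ne_bot Q
    refine ⟨⟨Q, hQ1, hQ0⟩, ?_, rfl⟩
    have hb : below A (⟨Q, hQ1, hQ0⟩ : HeightOneSpectrum B) = p :=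
      HeightOneSpectrum.ext hQ2.over.symm
    rw [Finset.mem_filter]
    refine ⟨?_, hb⟩
    rw [hSB, Set.Finite.mem_toFinset]
    apply hne
    rw [hb]
    rw [hSA, Set.Finite.mem_toFinset] at hp
    exact hp
  · intro q hq
    rw [Finset.mem_filter] at hq
    have hl : q.asIdeal.LiesOver p.asIdeal := by
      rw [← hq.2]; exact Ideal.over_under q.asIdeal
    have hqm : q.asIdeal.IsMaximal := q.isMaximal
    rw [hf p.asIdeal q.asIdeal]
    simp

end HtAux

end Pool.Agent.Lib.P62c
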