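import Pool.Agent.Lib.P62c.GeoC

/-!
# Choice of the point at infinity, with the exceptional set (adapted from `P62g.Infty`)
-/

namespace Pool.Agent.Lib.P62c

open Polynomial IntermediateField Pool.Agent.Lib.P62g Pool.Agent.Lib.P62g.InftyAux

theorem infty_c {F L : Type*} [Field F] [IsAlgClosed F] [CharZero F] [Field L] [Algebra F L]
    (u : L) (hu : Transcendental F u) (hpos : 0 < Module.finrank F⟮u⟯ L) (ξ : L)
    (hgen : IntermediateField.adjoin F {u, ξ} = ⊤) (W : Finset L) :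
    ∃ S : Finset F, ∀ c ∉ S, ∀ φ : RatFunc F →+* L, (∀ a : F, φ (RatFunc.C a) = algebraMap F L a) →
      φ RatFunc.X = (u - algebraMap F L c)⁻¹ → φ.fieldRange = F⟮u⟯.toSubfield →
      (∀ w ∈ W, InfInt φ w) ∧ InfInt φ ξ ∧
      ∀ (_ : Algebra (RatFunc F) L), algebraMap (RatFunc F) L = φ →
        FiniteDimensional (RatFunc F) L ∧
        Module.finrank (RatFunc F) L = Module.finrank F⟮u⟯ L ∧
        ∃ pb : PowerBasis (RatFunc F) L, pb.gen = ξ ∧
          (Algebra.discr (RatFunc F) pb.basis).intDegree = 0 := by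
  classical
  haveI hfin : FiniteDimensional F⟮u⟯ L := Module.finite_of_finrank_pos hpos
  have halg : ∀ w : L, IsAlgebraic F⟮u⟯ w := fun w => Algebra.IsAlgebraic.isAlgebraic w
  -- the power basis over `K = F⟮u⟯`
  have htop : (IntermediateField.adjoin F⟮u⟯ {ξ}) = ⊤ := by
    have h1 := IntermediateField.adjoin_adjoin_left F {u} ({ξ} : Set L)
    have h2 : ({u} ∪ {ξ} : Set L) = {u, ξ} := by
      ext; simp [or_comm]
    rw [h2, hgen] at h1
    ext w
    simp only [IntermediateField.mem_top, iff_true]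
    have : w ∈ (IntermediateField.adjoin F⟮u⟯ {ξ}).restrictScalars F := by
      rw [h1]; exact IntermediateField.mem_top
    exact this
  have hint : IsIntegral F⟮u⟯ ξ := Algebra.IsIntegral.isIntegral ξ
  have hadj : Algebra.adjoin F⟮u⟯ {ξ} = ⊤ := by
    have h1 := IntermediateField.adjoin_simple_toSubalgebra_of_isAlgebraic (halg ξ)
    rw [← h1, htop]
    rfl
  obtain ⟨pbK, hpbK⟩ : ∃ pb : PowerBasis F⟮u⟯ L, pb.gen = ξ :=
    ⟨PowerBasis.ofAdjoinEqTop hint hadj, PowerBasis.ofAdjoinEqTop_gen hint hadj⟩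
  set d : F⟮u⟯ := Algebra.discr F⟮u⟯ pbK.basis with hd
  have hd0 : d ≠ 0 := Algebra.discr_not_zero_of_basis F⟮u⟯ pbK.basis
  -- the exceptional sets
  have hex : ∀ w : L, ∃ S : Finset F, ∀ c ∉ S, ∀ φ : RatFunc F →+* L,
      (∀ a : F, φ (RatFunc.C a) = algebraMap F L a) →
      φ RatFunc.X = (u - algebraMap F L c)⁻¹ → InfInt φ w :=
    fun w => generic_infInt u hu w (halg w)
  choose S hS using hex
  set W' : Finset L := insert ξ (insert (d : L) (insert ((d : L)⁻¹) W)) with hW'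
  refine ⟨W'.biUnion S, fun c hc φ hC hX hr => ?_⟩
  have hcw : ∀ w ∈ W', c ∉ S w := by
    intro w hw h
    exact hc (Finset.mem_biUnion.2 ⟨w, hw, h⟩)
  have hinf : ∀ w ∈ W', InfInt φ w := fun w hw => hS w c (hcw w hw) φ hC hX
  refine ⟨fun w hw => hinf w (by simp [hW', hw]), hinf ξ (by simp [hW']), fun alg hφ => ?_⟩
  obtain ⟨e, he⟩ := exists_equiv u φ hr
  have hcomp : (algebraMap F⟮u⟯ L).comp (e : RatFunc F →+* F⟮u⟯) = algebraMap (RatFunc F) L := by
    rw [hφ]
    exact RingHom.ext (fun r => he r)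
  have hcomp' : ∀ r, algebraMap F⟮u⟯ L (e r) = algebraMap (RatFunc F) L r :=
    fun r => RingHom.congr_fun hcomp r
  have hsm : ∀ (k : F⟮u⟯) (x : L), e.symm k • x = k • x := by
    intro k x
    rw [Algebra.smul_def, Algebra.smul_def, ← hcomp', e.apply_symm_apply]
  let B : Module.Basis (Fin pbK.dim) (RatFunc F) L := pbK.basis.mapCoeffs e.symm hsm
  have hB : (B : Fin pbK.dim → L) = pbK.basis := Module.Basis.coe_mapCoeffs _ _ _
  let pb : PowerBasis (RatFunc F) L :=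
    { gen := ξ
      dim := pbK.dim
      basis := B
      basis_eq_pow := fun i => by
        rw [hB, pbK.basis_eq_pow, hpbK] }
  have hfr : Module.finrank (RatFunc F) L = Module.finrank F⟮u⟯ L := by
    rw [PowerBasis.finrank pb, PowerBasis.finrank pbK]
  have hdisc : e (Algebra.discr (RatFunc F) pb.basis) = d := by
    rw [discr_transport e hcomp]
    have : (pb.basis : Fin pbK.dim → L) = pbK.basis := hB
    rw [hd]
    exact congrArg (Algebra.discr F⟮u⟯) this
  have hφd : φ (Algebra.discr (RatFunc F) pb.basis) = (d : L) := by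
    rw [← he, hdisc]
  refine ⟨pb.finite, hfr, pb, rfl, ?_⟩
  have h1 : (Algebra.discr (RatFunc F) pb.basis).intDegree ≤ 0 := by
    rw [← infInt_base_iff φ, hφd]
    exact hinf _ (by simp [hW'])
  have h2 : ((Algebra.discr (RatFunc F) pb.basis)⁻¹).intDegree ≤ 0 := by
    rw [← infInt_base_iff φ, map_inv₀, hφd]
    exact hinf _ (by simp [hW'])
  rw [RatFunc.intDegree_inv] at h2
  omega

/-- The geometry for all but finitely many points at infinity (adapted from `exists_geo`). -/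
theorem geo_c {F L : Type*} [Field F] [IsAlgClosed F] [CharZero F] [Field L]
    [Algebra F L] (u : L) (hu : Transcendental F u) {n : ℕ}
    (hpos : 0 < Module.finrank F⟮u⟯ L) (hn : Module.finrank F⟮u⟯ L ≤ n) (Z : Finset L)
    (h0 : (0 : L) ∉ Z) (hgen : IntermediateField.adjoin F (insert u (Z : Set L)) = ⊤)
    (W : Finset L) :
    ∃ S : Finset F, ∀ c ∉ S, ∀ φ : RatFunc F →+* L, (∀ a : F, φ (RatFunc.C a) = algebraMap F L a) →
      φ RatFunc.X = (u - algebraMap F L c)⁻¹ → φ.fieldRange = F⟮u⟯.toSubfield →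
      ∀ (_ : Algebra (RatFunc F) L) (_ : Algebra F[X] L) (_ : IsScalarTower F[X] (RatFunc F) L),
        algebraMap (RatFunc F) L = φ →
        ∃ (_ : FiniteDimensional (RatFunc F) L) (G : Geo F L), (∀ w ∈ W, w ∈ G.Inf) ∧
          (∀ x, G.h x = pol F x) ∧
          ∀ R : ℤ, 0 ≤ R → (∀ z ∈ Z, G.h z ≤ R) → (G.κ : ℤ) ≤ ((2 * n ^ 4 : ℕ) : ℤ) * R := by
  classical
  obtain ⟨T, c, hTZ, hTn, hprim⟩ := exists_primitive_combination (F := F) u hpos hn (Z : Set L) hgen
  set ξ := ∑ z ∈ T, algebraMap F L (c z) * z with hξ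
  obtain ⟨S, hS⟩ := infty_c u hu hpos ξ hprim W
  refine ⟨S, fun c' hc' φ hφC hX hr inst1 inst2 inst3 hφ => ?_⟩
  obtain ⟨hφW, hφξ, hall⟩ := hS c' hc' φ hφC hX hr
  obtain ⟨hfin, hrank, pb, hpb, hdisc⟩ := hall inst1 hφ
  have hst : IsScalarTower F (RatFunc F) L := by
    refine IsScalarTower.of_algebraMap_eq fun a => ?_
    rw [hφ]
    exact (hφC a).symm
  obtain ⟨G, hG1, hGp, hG2⟩ := geo_core_pol pb (by rw [hφ, hpb]; exact hφξ) hdisc
  refine ⟨hfin, G, fun w hw => (hG1 w).2 (by rw [hφ]; exact hφW w hw), hGp, ?_⟩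
  intro R hR hZR
  rw [hpb, hrank] at hG2
  have h1 : G.h ξ ≤ n * R := by
    refine (h_sum_le G T c fun z hz h => h0 (by rw [← h]; exact_mod_cast hTZ hz)).trans ?_
    have h2 : ∑ z ∈ T, G.h z ≤ ∑ z ∈ T, R :=
      Finset.sum_le_sum fun z hz => hZR z (by exact_mod_cast hTZ hz)
    refine h2.trans ?_
    rw [Finset.sum_const, nsmul_eq_mul]
    exact mul_le_mul_of_nonneg_right (by exact_mod_cast hTn) hR
  have hn' : (Module.finrank F⟮u⟯ L : ℤ) ≤ n := by exact_mod_cast hn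
  have h3 : (Module.finrank F⟮u⟯ L : ℤ) ^ 3 ≤ (n : ℤ) ^ 3 :=
    pow_le_pow_left₀ (by positivity) hn' 3
  have h4 : 0 ≤ G.h ξ := Geo.h_nonneg ξ
  calc (G.κ : ℤ) ≤ 2 * (Module.finrank F⟮u⟯ L : ℤ) ^ 3 * G.h ξ := hG2
    _ ≤ 2 * (n : ℤ) ^ 3 * G.h ξ := by
        apply mul_le_mul_of_nonneg_right _ h4
        linarith
    _ ≤ 2 * (n : ℤ) ^ 3 * (n * R) := by
        apply mul_le_mul_of_nonneg_left h1
        positivity
    _ = _ := by push_cast; ring

end Pool.Agent.Lib.P62c
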