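import Pool.Agent.Lib.P62h.Fin1

/-!
# Preperiodic points when the decomposition is defined over a field of degree at most `r`
-/

namespace Pool.Agent.Lib.P62c

open Polynomial IntermediateField Pool.Agent.Lib.P62a0c3 Pool.Agent.Lib.P62g Pool.Agent.Lib.P62h

universe u w

theorem keyE {F : Type w} {k K : Type u} [Field F] [IsAlgClosed F] [CharZero F] [Field k]
    [CharZero k] [Field K] [IsAlgClosed K] [CharZero K] [Algebra F k] [Algebra k K] [Algebra F K]
    [IsScalarTower F k K] {a b m n r : ℕ} (ha : 1 ≤ a) (hb : 1 ≤ b)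
    (hm : 2 * (217 * (a * b) ^ 2) ^ 5 * (2 * (r * n) ^ 4 + 4) < m) {P Q : k[X]}
    (hPQ : IsCoprime P Q) (hd : max P.natDegree Q.natDegree = a * (m * b))
    (E : IntermediateField k K) (hE0 : 0 < Module.finrank k E) (hE1 : Module.finrank k E ≤ r)
    {PA QA Pg Qg : E[X]} (hA : IsCoprime PA QA) (hAa : max PA.natDegree QA.natDegree = a)
    (hg : IsCoprime Pg Qg) (hgb : max Pg.natDegree Qg.natDegree = b)
    (hf : ∀ x : OnePoint K, rm (P.map (algebraMap k K)) (Q.map (algebraMap k K)) (a * (m * b)) x =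
      rm (PA.map (algebraMap E K)) (QA.map (algebraMap E K)) a (rm (X ^ m) 1 m
        (rm (Pg.map (algebraMap E K)) (Qg.map (algebraMap E K)) b x)))
    (hniso : ¬ IsoC (F := F) (a * (m * b))
      (rm (P.map (algebraMap k K)) (Q.map (algebraMap k K)) (a * (m * b)))) :
    ∃ T : Finset (OnePoint K), T.card ≤ bound (a * b) m ∧
      ∀ (M : IntermediateField k K), (∃ u : M, Transcendental F u ∧
        0 < Module.finrank F⟮u⟯ M ∧ Module.finrank F⟮u⟯ M ≤ n) →
        ∀ y : OnePoint M, (Set.range fun i : ℕ =>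
          (rm (P.map (algebraMap k K)) (Q.map (algebraMap k K)) (a * (m * b)))^[i]
            (OnePoint.map (algebraMap M K) y)).Finite → OnePoint.map (algebraMap M K) y ∈ T := by
  classical
  have hab : 1 ≤ a * b := Nat.mul_pos ha hb
  have hm2 : 2 * (a * b) < m := by
    refine lt_of_le_of_lt ?_ hm
    have h1 : a * b ≤ (217 * (a * b) ^ 2) ^ 5 := by
      calc a * b ≤ (a * b) ^ 10 := Nat.le_self_pow (by norm_num) _
        _ ≤ 217 ^ 5 * (a * b) ^ 10 := Nat.le_mul_of_pos_left _ (by norm_num)
        _ = (217 * (a * b) ^ 2) ^ 5 := by ring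
    calc 2 * (a * b) ≤ 2 * (217 * (a * b) ^ 2) ^ 5 * 1 := by omega
      _ ≤ _ := Nat.mul_le_mul_left _ (by omega)
  have hcK : IsCoprime (P.map (algebraMap k K)) (Q.map (algebraMap k K)) :=
    (Polynomial.isCoprime_map _).2 hPQ
  have hdK : max (P.map (algebraMap k K)).natDegree (Q.map (algebraMap k K)).natDegree =
      a * (m * b) := by
    rw [natDegree_map, natDegree_map]; exact hd
  have hd2 : 2 ≤ a * (m * b) := by
    have : a * (m * b) = m * (a * b) := by ring
    rw [this]
    calc 2 ≤ m * 1 := by omega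
      _ ≤ m * (a * b) := Nat.mul_le_mul_left _ hab
  obtain ⟨T, hT1, hT2⟩ := rm_closing hd2 hcK hdK (2 * c0 (a * b) m + 4)
  refine ⟨T, ?_, ?_⟩
  · rw [bound]
    have : a * (m * b) = a * b * m := by ring
    rw [this] at hT2
    exact hT2
  intro M hM y hfin
  apply hT1
  set L : IntermediateField k K := M ⊔ E with hL
  have hgonL := gonality_supN (F := F) M E hE0 hE1 hM
  set φ : E →+* L := (IntermediateField.inclusion (le_sup_right : E ≤ M ⊔ E)).toRingHom with hφ
  set ψ : M →+* L := (IntermediateField.inclusion (le_sup_left : M ≤ M ⊔ E)).toRingHom with hψ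
  have hφK : (algebraMap L K).comp φ = algebraMap E K := rfl
  have hψK : (algebraMap L K).comp ψ = algebraMap M K := rfl
  have hy : OnePoint.map (algebraMap M K) y =
      OnePoint.map (algebraMap L K) (OnePoint.map ψ y) := by
    induction y using OnePoint.rec with
    | infty => rfl
    | coe z => rfl
  rw [hy] at hfin ⊢
  refine orbit_closes (F := F) ha hb hm L (PA := PA.map φ) (QA := QA.map φ) (Pg := Pg.map φ)
    (Qg := Qg.map φ) ((Polynomial.isCoprime_map φ).2 hA) ?_
    ((Polynomial.isCoprime_map φ).2 hg) ?_ _ ?_ hniso hgonL (OnePoint.map ψ y) hfin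
  · rw [natDegree_map, natDegree_map]; exact hAa
  · rw [natDegree_map, natDegree_map]; exact hgb
  · intro x
    rw [Polynomial.map_map, Polynomial.map_map, Polynomial.map_map, Polynomial.map_map, hφK]
    exact hf x

end Pool.Agent.Lib.P62c
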