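import Pool.Agent.Lib.P62c.DefU

/-!
# Module P62c.Ode: the differential equation of the homogenised Chebyshev polynomial

`M_m = hom m T_m p q` satisfies `M_(m+2) = p M_(m+1) - q^2 M_m`; with `V_0 = 0`, `V_1 = 1`,
`V_(m+2) = p V_(m+1) - q^2 V_m` one has `M_(m+1) = p V_(m+1) - 2 q^2 V_m`,
`M_m^2 - (p^2 - 4 q^2) V_m^2 = 4 q^(2m)` and `q M_m' - m q' M_m = m V_m (p' q - p q')`.
-/

namespace Pool.Agent.Lib.P62c

open Polynomial Pool.Agent.Lib.P62a0c3 Pool.Agent.Lib.P62h

theorem ode_hom_sub {K : Type*} [Field K] (d : ℕ) (P Q A B : K[X]) :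
    hom d (P - Q) A B = hom d P A B - hom d Q A B := by
  unfold hom
  rw [← Finset.sum_sub_distrib]
  refine Finset.sum_congr rfl fun i _ => ?_
  rw [coeff_sub, C_sub]; ring

theorem ode_hom_X {K : Type*} [Field K] (d : ℕ) (P A B : K[X]) :
    hom (d + 1) (X * P) A B = A * hom d P A B := by
  unfold hom
  rw [Finset.sum_range_succ', coeff_X_mul_zero, C_0, zero_mul, zero_mul, add_zero, Finset.mul_sum]
  refine Finset.sum_congr rfl fun i _ => ?_
  rw [coeff_X_mul, Nat.add_sub_add_right, pow_succ]; ring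

theorem ode_hom_up {K : Type*} [Field K] {d : ℕ} {P : K[X]} (h : P.natDegree ≤ d) (A B : K[X]) :
    hom (d + 1) P A B = B * hom d P A B := by
  unfold hom
  rw [Finset.sum_range_succ, coeff_eq_zero_of_natDegree_lt (by omega), C_0, zero_mul, zero_mul,
    add_zero, Finset.mul_sum]
  refine Finset.sum_congr rfl fun i hi => ?_
  have hi' : i ≤ d := Nat.lt_succ_iff.1 (Finset.mem_range.1 hi)
  rw [show d + 1 - i = (d - i) + 1 by omega, pow_succ]; ring

theorem ode_rec (K : Type*) [Field K] (n : ℕ) : dickson 1 (1 : K) (n + 2) =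
    X * dickson 1 (1 : K) (n + 1) - dickson 1 (1 : K) n := by
  rw [dickson_add_two, C_1, one_mul]

theorem ode_zero (K : Type*) [Field K] : dickson 1 (1 : K) 0 = 2 := by
  rw [dickson_zero]; norm_num

theorem ode_deg (K : Type*) [Field K] (n : ℕ) :
    (dickson 1 (1 : K) n).natDegree ≤ n ∧ (dickson 1 (1 : K) (n + 1)).natDegree ≤ n + 1 := by
  induction n with
  | zero =>
    refine ⟨?_, ?_⟩
    · rw [ode_zero]
      exact (natDegree_ofNat 2).le
    · rw [zero_add, dickson_one]; exact natDegree_X.le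
  | succ n ih =>
    refine ⟨ih.2, ?_⟩
    rw [ode_rec]
    refine (natDegree_sub_le _ _).trans (max_le ?_ ?_)
    · refine natDegree_mul_le.trans ?_
      rw [natDegree_X]
      have := ih.2
      omega
    · have := ih.1
      omega

/-- `hom m T_m p q` -/
noncomputable def oM {K : Type*} [Field K] (p q : K[X]) (m : ℕ) : K[X] :=
  hom m (dickson 1 (1 : K) m) p q

/-- the homogenised Chebyshev polynomial of the second kind -/
noncomputable def oV {K : Type*} [Field K] (p q : K[X]) : ℕ → K[X]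
  | 0 => 0
  | 1 => 1
  | n + 2 => p * oV p q (n + 1) - q ^ 2 * oV p q n

theorem oM_zero {K : Type*} [Field K] (p q : K[X]) : oM p q 0 = 2 := by
  unfold oM hom
  rw [ode_zero]
  simp only [Finset.range_one, zero_add, Finset.sum_singleton, coeff_ofNat_zero, pow_zero,
    mul_one, Nat.sub_zero]
  exact map_ofNat C 2

theorem oM_one {K : Type*} [Field K] (p q : K[X]) : oM p q 1 = p := by
  unfold oM hom
  rw [dickson_one, Finset.sum_range_succ, Finset.sum_range_one]
  simp

theorem oM_rec {K : Type*} [Field K] (p q : K[X]) (m : ℕ) :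
    oM p q (m + 2) = p * oM p q (m + 1) - q ^ 2 * oM p q m := by
  have hd := (ode_deg K m).1
  unfold oM
  rw [ode_rec, ode_hom_sub, ode_hom_X, ode_hom_up (hd.trans (Nat.le_succ m)), ode_hom_up hd]
  ring

theorem oV_rec {K : Type*} [Field K] (p q : K[X]) (m : ℕ) :
    oV p q (m + 2) = p * oV p q (m + 1) - q ^ 2 * oV p q m := rfl

theorem oM_oV {K : Type*} [Field K] (p q : K[X]) (m : ℕ) :
    oM p q (m + 1) = p * oV p q (m + 1) - 2 * q ^ 2 * oV p q m ∧
      oM p q (m + 2) = p * oV p q (m + 2) - 2 * q ^ 2 * oV p q (m + 1) := by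
  have h1 : oV p q 1 = 1 := rfl
  have h0 : oV p q 0 = 0 := rfl
  induction m with
  | zero =>
    refine ⟨?_, ?_⟩
    · rw [zero_add, oM_one, h1, h0]; ring
    · rw [oM_rec, oV_rec, zero_add, oM_one, oM_zero, h1, h0]; ring
  | succ m ih =>
    refine ⟨ih.2, ?_⟩
    rw [oM_rec, ih.1, ih.2, oV_rec p q (m + 1), oV_rec p q m]
    ring

theorem oV_cassini {K : Type*} [Field K] (p q : K[X]) (m : ℕ) :
    oV p q (m + 1) ^ 2 - p * oV p q (m + 1) * oV p q m + q ^ 2 * oV p q m ^ 2 =
      (q ^ m) ^ 2 := by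
  induction m with
  | zero =>
    have h1 : oV p q 1 = 1 := rfl
    have h0 : oV p q 0 = 0 := rfl
    rw [zero_add, h1, h0]; ring
  | succ m ih =>
    rw [oV_rec, pow_succ q m, mul_pow, ← ih]
    ring

theorem oM_pell {K : Type*} [Field K] (p q : K[X]) (m : ℕ) :
    oM p q (m + 1) ^ 2 - 4 * (q ^ (m + 1)) ^ 2 = (p ^ 2 - 4 * q ^ 2) * oV p q (m + 1) ^ 2 := by
  rw [(oM_oV p q m).1, pow_succ q m, mul_pow, ← oV_cassini p q m]
  ring

theorem oE {K : Type*} [Field K] (p q : K[X]) (m : ℕ) :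
    (q * derivative (oM p q m) - (m : K[X]) * derivative q * oM p q m =
      (m : K[X]) * oV p q m * wr p q) ∧
    (q * derivative (oM p q (m + 1)) - ((m + 1 : ℕ) : K[X]) * derivative q * oM p q (m + 1) =
      ((m + 1 : ℕ) : K[X]) * oV p q (m + 1) * wr p q) := by
  induction m with
  | zero =>
    have h1 : oV p q 1 = 1 := rfl
    refine ⟨?_, ?_⟩
    · rw [oM_zero]; simp
    · rw [zero_add, oM_one, h1, wr]
      push_cast; ring
  | succ m ih =>
    refine ⟨ih.2, ?_⟩
    obtain ⟨e1, e2⟩ := ih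
    have e3 := (oM_oV p q m).1
    rw [oM_rec, oV_rec]
    simp only [derivative_sub, derivative_mul, derivative_pow]
    push_cast at e1 e2 ⊢
    simp only [wr] at e1 e2 ⊢
    simp only [pow_one, C_ofNat]
    linear_combination p * e2 - q ^ 2 * e1 + (derivative p * q - p * derivative q) * e3

theorem ode_hom {K : Type*} [Field K] (m : ℕ) (p q : K[X]) :
    rr p q * wr (hom m (dickson 1 (1 : K) m) p q) (q ^ m) ^ 2 =
      (m : K[X]) ^ 2 * (q ^ m) ^ 2 * ((hom m (dickson 1 (1 : K) m) p q) ^ 2 - 4 * (q ^ m) ^ 2) *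
        wr p q ^ 2 := by
  change rr p q * wr (oM p q m) (q ^ m) ^ 2 =
      (m : K[X]) ^ 2 * (q ^ m) ^ 2 * ((oM p q m) ^ 2 - 4 * (q ^ m) ^ 2) * wr p q ^ 2
  rcases m with _ | m
  · rw [oM_zero]
    simp [wr]
  · have e := (oE p q m).2
    have hw : wr (oM p q (m + 1)) (q ^ (m + 1)) =
        q ^ m * (((m + 1 : ℕ) : K[X]) * oV p q (m + 1) * wr p q) := by
      rw [← e, wr, derivative_pow, Nat.add_sub_cancel, C_eq_natCast]
      ring
    rw [hw, oM_pell, rr]
    ring

end Pool.Agent.Lib.P62c
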