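import Mathlib
import Pool.Agent.Lib.P62c.DefU
import Pool.Agent.Lib.P62c.Integ

/-!
# Polynomials with vanishing Wronskian
-/

namespace Pool.Agent.Lib.P62c

open Polynomial Pool.Agent.Lib.P62a0c3 Pool.Agent.Lib.P62h

theorem wr_zero {K : Type*} [Field K] [CharZero K] {F G : K[X]} (hG : G ≠ 0) (h : wr F G = 0) :
    ∃ c : K, F = C c * G := by
  obtain ⟨c, hc⟩ := IntegAux.th_ker (f := algebraMap K[X] (RatFunc K) F /
    algebraMap K[X] (RatFunc K) G) (by rw [IntegAux.th_div _ _ hG, h, map_zero, zero_div])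
  refine ⟨c, ?_⟩
  rw [div_eq_iff (IntegAux.phi_ne hG), ← RatFunc.algebraMap_C, ← map_mul] at hc
  exact RatFunc.algebraMap_injective K hc

end Pool.Agent.Lib.P62c
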