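import Pool.Agent.Lib.P62c.PowEq
import Pool.Agent.Lib.P62c.WrZero
import Pool.Agent.Lib.P62c.DescO
import Pool.Agent.Lib.P62c.KeyE
import Pool.Agent.Lib.P62c.GalT
import Pool.Agent.Lib.P62c.GalP
import Pool.Agent.Lib.P62h.DescB

/-!
# Descent of a decomposition through a power map to a field of degree at most `2 e`
-/

namespace Pool.Agent.Lib.P62c

open Polynomial IntermediateField Pool.Agent.Lib.P62a0c3 Pool.Agent.Lib.P62h
  Pool.Agent.Lib.P62h.HomAAux

theorem eq_C_mul_of_dvd {K : Type*} [Field K] {q r : K[X]} (hr : r ≠ 0) (h : q ∣ r)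
    (hd : r.natDegree = q.natDegree) : ∃ c : K, c ≠ 0 ∧ r = C c * q := by
  obtain ⟨s, rfl⟩ := h
  have hs : s ≠ 0 := right_ne_zero_of_mul hr
  have hq : q ≠ 0 := left_ne_zero_of_mul hr
  rw [natDegree_mul hq hs] at hd
  have h1 : s.natDegree = 0 := by omega
  have h2 := eq_C_of_natDegree_eq_zero h1
  refine ⟨s.coeff 0, fun h0 => hs (by rw [h2, h0, C_0]), ?_⟩
  rw [mul_comm, ← h2]

theorem galPow {K : Type*} [Field K] [CharZero K] {a b m : ℕ} (ha : 1 ≤ a)
    (hb : 1 ≤ b) (hm : 4 * b < m) {P Q : K[X]} (hPQ : IsCoprime P Q) {PA QA p q : K[X]} {l : K}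
    (hl : l ≠ 0) (hA : IsCoprime PA QA) (hAa : max PA.natDegree QA.natDegree = a)
    (hg : IsCoprime p q) (hgb : max p.natDegree q.natDegree = b) (hp : p ≠ 0) (hq : q ≠ 0)
    (hP : P = C l * hom a PA (p ^ m) (q ^ m)) (hQ : Q = C l * hom a QA (p ^ m) (q ^ m)) {x0 : K}
    (hx0 : q.eval x0 = 0) (σ : K →+* K) (hσP : P.map σ = P) (hσQ : Q.map σ = Q)
    (hσx : σ x0 = x0) :
    (∃ c : K, c ≠ 0 ∧ p.map σ = C c * p) ∧ ∃ c : K, c ≠ 0 ∧ q.map σ = C c * q := by
  classical
  have hm1 : 1 ≤ m := by omega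
  set M := p ^ m with hM
  have hMN : IsCoprime M (q ^ m) := hg.pow
  have hN0 : (q ^ m).eval x0 = 0 := by
    rw [eval_pow, hx0, zero_pow (by omega)]
  have hM0 : M.eval x0 ≠ 0 := (not_both M (q ^ m) hMN x0).resolve_right (fun h => h hN0)
  set u := P.eval x0 with hu
  set v := Q.eval x0 with hv
  have hσu : σ u = u := by
    rw [hu]
    have h1 : (P.map σ).eval (σ x0) = σ (P.eval x0) := by
      rw [eval_map, eval₂_at_apply]
    rw [← h1, hσP, hσx]
  have hσv : σ v = v := by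
    rw [hv]
    have h1 : (Q.map σ).eval (σ x0) = σ (Q.eval x0) := by
      rw [eval_map, eval₂_at_apply]
    rw [← h1, hσQ, hσx]
  obtain ⟨x, y, z, w, hσx', hσy, hσz, hσw, hdet, hzw⟩ : ∃ x y z w : K, σ x = x ∧ σ y = y ∧
      σ z = z ∧ σ w = w ∧ x * w - y * z ≠ 0 ∧ z * u + w * v = 0 := by
    by_cases h0 : v = 0
    · exact ⟨1, 0, 0, 1, map_one σ, map_zero σ, map_zero σ, map_one σ, by simp, by simp [h0]⟩
    · exact ⟨0, 1, v, -u, map_zero σ, map_one σ, hσv, by rw [map_neg, hσu], by simpa using h0,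
        by ring⟩
  set P1 := C x * P + C y * Q with hP1
  set Q1 := C z * P + C w * Q with hQ1
  set A1 := C x * PA + C y * QA with hA1
  set B1 := C z * PA + C w * QA with hB1
  have hPQ1 : IsCoprime P1 Q1 := coprime_lin hdet hPQ
  have hAB1 : IsCoprime A1 B1 := coprime_lin hdet hA
  have eP1 : P1 = C l * hom a A1 M (q ^ m) := by
    rw [hP1, hA1, hom_lin, hP, hQ]; ring
  have eQ1 : Q1 = C l * hom a B1 M (q ^ m) := by
    rw [hQ1, hB1, hom_lin, hP, hQ]; ring
  have hB1a : B1.coeff a = 0 := by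
    have h1 : Q1.eval x0 = 0 := by
      rw [hQ1, eval_add, eval_mul, eval_mul, eval_C, eval_C]
      exact hzw
    rw [eQ1, eval_mul, eval_C, eval_hom, hN0, H_zero] at h1
    have h2 := (mul_eq_zero.1 h1).resolve_left hl
    exact (mul_eq_zero.1 h2).resolve_right (pow_ne_zero _ hM0)
  have hA1a : A1.coeff a ≠ 0 := by
    intro h0
    have h1 : x * PA.coeff a + y * QA.coeff a = 0 := by
      rw [hA1, coeff_add, coeff_C_mul, coeff_C_mul] at h0; exact h0
    have h2 : z * PA.coeff a + w * QA.coeff a = 0 := by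
      rw [hB1, coeff_add, coeff_C_mul, coeff_C_mul] at hB1a; exact hB1a
    have h3 : (x * w - y * z) * PA.coeff a = 0 := by linear_combination w * h1 - y * h2
    have h4 : (x * w - y * z) * QA.coeff a = 0 := by linear_combination x * h2 - z * h1
    rcases top_ne hA hAa with h5 | h5
    · exact h5 ((mul_eq_zero.1 h3).resolve_left hdet)
    · exact h5 ((mul_eq_zero.1 h4).resolve_left hdet)
  have hA1d : A1.natDegree = a :=
    le_antisymm (natDegree_lin_le hAa _ _) (le_natDegree_of_ne_zero hA1a)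
  have hB1le : B1.natDegree ≤ a := natDegree_lin_le hAa _ _
  have hB10 : B1 ≠ 0 := by
    intro h0
    rw [h0] at hAB1
    have h1 := natDegree_eq_zero_of_isUnit (isCoprime_zero_right.1 hAB1)
    omega
  have hB1lt : B1.natDegree < a := by
    refine lt_of_le_of_ne hB1le fun h => ?_
    rw [← h] at hB1a
    exact hB10 (leadingCoeff_eq_zero.1 hB1a)
  obtain ⟨α, hα1, hαa, hαB⟩ : ∃ α, 1 ≤ α ∧ α ≤ a ∧ B1.natDegree = a - α :=
    ⟨a - B1.natDegree, by omega, by omega, by omega⟩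
  have hσinj : Function.Injective σ := σ.injective
  have mP1 : P1.map σ = P1 := by
    rw [hP1, Polynomial.map_add, Polynomial.map_mul, Polynomial.map_mul, map_C, map_C, hσx', hσy,
      hσP, hσQ]
  have mQ1 : Q1.map σ = Q1 := by
    rw [hQ1, Polynomial.map_add, Polynomial.map_mul, Polynomial.map_mul, map_C, map_C, hσz, hσw,
      hσP, hσQ]
  have eP1' : P1 = C (σ l) * hom a (A1.map σ) ((p.map σ) ^ m) ((q.map σ) ^ m) := by
    have h1 := congrArg (Polynomial.map σ) eP1
    rw [mP1, Polynomial.map_mul, map_C, hom_map, hM, Polynomial.map_pow,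
      Polynomial.map_pow] at h1
    exact h1
  have eQ1' : Q1 = C (σ l) * hom a (B1.map σ) ((p.map σ) ^ m) ((q.map σ) ^ m) := by
    have h1 := congrArg (Polynomial.map σ) eQ1
    rw [mQ1, Polynomial.map_mul, map_C, hom_map, hM, Polynomial.map_pow,
      Polynomial.map_pow] at h1
    exact h1
  have hgσ : IsCoprime (p.map σ) (q.map σ) := (Polynomial.isCoprime_map σ).2 hg
  have hgbσ : max (p.map σ).natDegree (q.map σ).natDegree = b := by
    rw [natDegree_map, natDegree_map]; exact hgb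
  have hpσ : p.map σ ≠ 0 := (Polynomial.map_ne_zero_iff hσinj).2 hp
  have hqσ : q.map σ ≠ 0 := (Polynomial.map_ne_zero_iff hσinj).2 hq
  have hxσ : (q.map σ).eval x0 = 0 := by
    rw [← hσx, eval_map, eval₂_at_apply, hx0, map_zero]
  have hwr := pow_wr_eq (x0 := x0) hα1 hαa hb hm hPQ1 ((_root_.map_ne_zero σ).2 hl) hl
    (by rw [natDegree_map, hA1d]) (by rw [natDegree_map, hαB])
    ((Polynomial.map_ne_zero_iff hσinj).2 hB10) hA1d hαB hB10 hgσ hgbσ hpσ hqσ hxσ hg hgb
    hp hq hx0 eP1' eQ1' eP1 eQ1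
  obtain ⟨c, hc⟩ := wr_zero (F := p.map σ * q) (G := p * q.map σ) (mul_ne_zero hp hqσ) (by
    have h1 : wr (p.map σ * q) (p * q.map σ) =
        p * q * wr (p.map σ) (q.map σ) - p.map σ * q.map σ * wr p q := by
      unfold wr
      rw [derivative_mul, derivative_mul]
      ring
    rw [h1, hwr, sub_self])
  have hc0 : c ≠ 0 := by
    rintro rfl
    rw [C_0, zero_mul] at hc
    exact mul_ne_zero hpσ hq hc
  have hCc : IsUnit (C c : K[X]) := isUnit_C.2 (isUnit_iff_ne_zero.2 hc0)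
  have d1 : q ∣ q.map σ := by
    have h1 : q ∣ C c * (p * q.map σ) := ⟨p.map σ, by rw [← hc, mul_comm]⟩
    exact IsCoprime.dvd_of_dvd_mul_left hg.symm ((hCc.dvd_mul_left).1 h1)
  have d2 : p ∣ p.map σ := by
    have h1 : p ∣ p.map σ * q := by
      rw [hc]
      exact ⟨C c * q.map σ, by ring⟩
    exact IsCoprime.dvd_of_dvd_mul_right hg h1
  exact ⟨eq_C_mul_of_dvd hpσ d2 (natDegree_map σ), eq_C_mul_of_dvd hqσ d1 (natDegree_map σ)⟩

theorem lift_scaled {E0 K : Type*} [Field E0] [Field K] [Algebra E0 K] [IsGalois E0 K] {q : K[X]}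
    (hq : q ≠ 0) (h : ∀ σ : K ≃ₐ[E0] K, ∃ c : K, c ≠ 0 ∧ q.map (σ : K →+* K) = C c * q) :
    ∃ (t : K) (q0 : E0[X]), t ≠ 0 ∧ q = C t * q0.map (algebraMap E0 K) := by
  set t : K := q.leadingCoeff with ht
  have ht0 : t ≠ 0 := leadingCoeff_ne_zero.2 hq
  obtain ⟨q0, hq0⟩ := lift_fixed (E0 := E0) (q := C t⁻¹ * q) (fun σ i => by
    obtain ⟨c, hc, h1⟩ := h σ
    have h2 : ∀ j, σ (q.coeff j) = c * q.coeff j := by
      intro j
      have h3 := congrArg (fun f : K[X] => f.coeff j) h1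
      simp only [coeff_map, coeff_C_mul] at h3
      exact h3
    have h4 : σ t = c * t := h2 _
    rw [coeff_C_mul, map_mul, map_inv₀, h4, h2]
    field_simp)
  refine ⟨t, q0, ht0, ?_⟩
  rw [← hq0, ← mul_assoc, ← C_mul, mul_inv_cancel₀ ht0, C_1, one_mul]

theorem descP1 {k K : Type*} [Field k] [CharZero k] [Field K] [Algebra k K] [IsAlgClosed K]
    [Algebra.IsAlgebraic k K] {a b m : ℕ} (ha : 1 ≤ a) (hb : 1 ≤ b) (hm : 4 * (a * b) < m)
    {P Q : k[X]} (hPQ : IsCoprime P Q) (hd : max P.natDegree Q.natDegree = a * (m * b))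
    {PA QA Pg Qg : K[X]} (hA : IsCoprime PA QA) (hAa : max PA.natDegree QA.natDegree = a)
    (hg : IsCoprime Pg Qg) (hgb : max Pg.natDegree Qg.natDegree = b)
    (hf : ∀ x : OnePoint K, rm (P.map (algebraMap k K)) (Q.map (algebraMap k K)) (a * (m * b)) x =
      rm PA QA a (rm (X ^ m) 1 m (rm Pg Qg b x)))
    (x0 : K) (hx0 : Qg.eval x0 = 0) :
    ∃ E : IntermediateField k K, 0 < Module.finrank k E ∧
      Module.finrank k E ≤ 2 * (a * b) ∧
      ∃ PA' QA' Pg' Qg' : E[X], IsCoprime PA' QA' ∧ max PA'.natDegree QA'.natDegree = a ∧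
        IsCoprime Pg' Qg' ∧ max Pg'.natDegree Qg'.natDegree = b ∧
        ∀ x : OnePoint K, rm (P.map (algebraMap k K)) (Q.map (algebraMap k K)) (a * (m * b)) x =
          rm (PA'.map (algebraMap E K)) (QA'.map (algebraMap E K)) a (rm (X ^ m) 1 m
            (rm (Pg'.map (algebraMap E K)) (Qg'.map (algebraMap E K)) b x)) := by
  classical
  have : CharZero K := charZero_of_injective_algebraMap (FaithfulSMul.algebraMap_injective k K)
  have hab : b ≤ a * b := Nat.le_mul_of_pos_left b ha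
  have hm1 : 1 ≤ m := by omega
  have hPg0 : Pg ≠ 0 := by
    rintro rfl
    have h1 : IsUnit Qg := isCoprime_zero_left.1 hg
    rw [natDegree_eq_zero_of_isUnit h1, natDegree_zero] at hgb
    simp at hgb
    omega
  have hQg0 : Qg ≠ 0 := by
    rintro rfl
    have h1 : IsUnit Pg := isCoprime_zero_right.1 hg
    rw [natDegree_eq_zero_of_isUnit h1, natDegree_zero] at hgb
    simp at hgb
    omega
  obtain ⟨l, hl, eP, eQ⟩ := dA_compose hPQ hA hAa hg hgb hf
  obtain ⟨hint, hdeg⟩ := zero_degree ha hb (by omega) hPQ hd hA hAa hg hgb hf x0 (Or.inr hx0)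
  have hPQK : IsCoprime (P.map (algebraMap k K)) (Q.map (algebraMap k K)) :=
    (Polynomial.isCoprime_map _).2 hPQ
  set E0 : IntermediateField k K := k⟮x0⟯ with hE0
  have hfr : Module.finrank k E0 = (minpoly k x0).natDegree :=
    IntermediateField.adjoin.finrank hint
  have halg : Algebra.IsAlgebraic E0 K := Algebra.IsAlgebraic.tower_top (K := k) E0
  have hclo : IsAlgClosure E0 K := ⟨inferInstance, halg⟩
  have hsep : Algebra.IsSeparable E0 K := inferInstance
  have hnor : Normal E0 K := IsAlgClosure.normal E0 K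
  have hgal : IsGalois E0 K := ⟨⟩
  have hσk : ∀ (σ : K ≃ₐ[E0] K) (c : k), σ (algebraMap k K c) = algebraMap k K c := by
    intro σ c
    have h1 : algebraMap k K c = algebraMap E0 K (algebraMap k E0 c) := rfl
    rw [h1]
    exact σ.commutes _
  have hσP : ∀ (σ : K ≃ₐ[E0] K) (F : k[X]),
      (F.map (algebraMap k K)).map (σ : K →+* K) = F.map (algebraMap k K) := by
    intro σ F
    rw [Polynomial.map_map]
    congr 1
    exact RingHom.ext fun c => hσk σ c
  have hσx : ∀ σ : K ≃ₐ[E0] K, (σ : K →+* K) x0 = x0 := by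
    intro σ
    have h1 : x0 = algebraMap E0 K ⟨x0, IntermediateField.mem_adjoin_simple_self k x0⟩ := rfl
    change σ x0 = x0
    conv_lhs => rw [h1]
    rw [σ.commutes]
    rfl
  have hall := fun σ : K ≃ₐ[E0] K => galPow ha hb (by omega) hPQK hl hA hAa hg hgb hPg0 hQg0 eP eQ
    hx0 (σ : K →+* K) (hσP σ P) (hσP σ Q) (hσx σ)
  obtain ⟨s, P1, hs, eP1⟩ := lift_scaled (E0 := E0) hPg0 fun σ => (hall σ).1
  obtain ⟨t, Q1, ht, eQ1⟩ := lift_scaled (E0 := E0) hQg0 fun σ => (hall σ).2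
  refine ⟨E0, by rw [hfr]; exact minpoly.natDegree_pos hint, by rw [hfr]; exact hdeg, ?_⟩
  exact descent_of ha hb hm1 hPQ hA hAa hg hgb hf E0 hs ht eP1 eQ1

theorem inv_toP1 {L : Type*} [Field L] {u v : L} (h : u ≠ 0 ∨ v ≠ 0) :
    rm (1 : L[X]) X 1 (toP1 u v) = toP1 v u := by
  by_cases hv : v = 0
  · subst hv
    have hu : u ≠ 0 := h.resolve_right (fun h => h rfl)
    have h1 : toP1 u (0 : L) = OnePoint.infty := by unfold toP1; rw [if_pos rfl]
    rw [h1, rm_infty, coeff_X_one, coeff_one, if_neg (by omega)]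
    unfold toP1
    rw [if_neg one_ne_zero, zero_div, if_neg hu, zero_div]
  · have h1 : toP1 u v = ((u / v : L) : OnePoint L) := by unfold toP1; rw [if_neg hv]
    rw [h1, rm_some, eval_one, eval_X]
    unfold toP1
    by_cases hu : u = 0
    · rw [hu, zero_div, if_pos rfl, if_pos rfl]
    · rw [if_neg (div_ne_zero hu hv), if_neg hu, one_div_div]

theorem swap_dec {L : Type*} [Field L] {a b m : ℕ} (hm : 1 ≤ m) {PA QA Pg Qg : L[X]}
    (hA : IsCoprime PA QA) (hAa : max PA.natDegree QA.natDegree = a) (hg : IsCoprime Pg Qg)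
    (hgb : max Pg.natDegree Qg.natDegree = b) (x : OnePoint L) :
    rm PA QA a (rm (X ^ m) 1 m (rm Pg Qg b x)) =
      rm (hom a PA 1 X) (hom a QA 1 X) a (rm (X ^ m) 1 m (rm Qg Pg b x)) := by
  obtain ⟨u, v, huv, h1, h2⟩ : ∃ u v : L, (u ≠ 0 ∨ v ≠ 0) ∧ rm Pg Qg b x = toP1 u v ∧
      rm Qg Pg b x = toP1 v u := by
    induction x using OnePoint.rec with
    | infty => exact ⟨_, _, top_ne hg hgb, rfl, rfl⟩
    | coe z => exact ⟨_, _, not_both Pg Qg hg z, rfl, rfl⟩
  have hX : IsCoprime (1 : L[X]) X := isCoprime_one_left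
  have hXd : max (1 : L[X]).natDegree (X : L[X]).natDegree = 1 := by simp
  have h3 := rm_comp hA hAa hX hXd (rm (X ^ m) 1 m (rm Qg Pg b x))
  rw [mul_one] at h3
  rw [h3, h1, h2, iT_pow_toP1 hm, iT_pow_toP1 hm, inv_toP1]
  rcases huv with h | h
  · exact Or.inr (pow_ne_zero m h)
  · exact Or.inl (pow_ne_zero m h)

theorem descP {k K : Type*} [Field k] [CharZero k] [Field K] [Algebra k K] [IsAlgClosed K]
    [Algebra.IsAlgebraic k K] {a b m : ℕ} (ha : 1 ≤ a) (hb : 1 ≤ b) (hm : 4 * (a * b) < m)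
    {P Q : k[X]} (hPQ : IsCoprime P Q) (hd : max P.natDegree Q.natDegree = a * (m * b))
    {PA QA Pg Qg : K[X]} (hA : IsCoprime PA QA) (hAa : max PA.natDegree QA.natDegree = a)
    (hg : IsCoprime Pg Qg) (hgb : max Pg.natDegree Qg.natDegree = b)
    (hf : ∀ x : OnePoint K, rm (P.map (algebraMap k K)) (Q.map (algebraMap k K)) (a * (m * b)) x =
      rm PA QA a (rm (X ^ m) 1 m (rm Pg Qg b x))) :
    ∃ E : IntermediateField k K, 0 < Module.finrank k E ∧
      Module.finrank k E ≤ 2 * (a * b) ∧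
      ∃ PA' QA' Pg' Qg' : E[X], IsCoprime PA' QA' ∧ max PA'.natDegree QA'.natDegree = a ∧
        IsCoprime Pg' Qg' ∧ max Pg'.natDegree Qg'.natDegree = b ∧
        ∀ x : OnePoint K, rm (P.map (algebraMap k K)) (Q.map (algebraMap k K)) (a * (m * b)) x =
          rm (PA'.map (algebraMap E K)) (QA'.map (algebraMap E K)) a (rm (X ^ m) 1 m
            (rm (Pg'.map (algebraMap E K)) (Qg'.map (algebraMap E K)) b x)) := by
  have hm1 : 1 ≤ m := by omega
  by_cases hroot : ∃ x0, Qg.eval x0 = 0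
  · obtain ⟨x0, hx0⟩ := hroot
    exact descP1 ha hb hm hPQ hd hA hAa hg hgb hf x0 hx0
  · have hnd : ∀ F : K[X], (¬ ∃ x0, F.eval x0 = 0) → F.natDegree = 0 := by
      intro F hF
      by_contra h
      apply hF
      obtain ⟨x0, hx0⟩ := IsAlgClosed.exists_root F (fun h0 => h (by
        rw [natDegree_eq_zero_iff_degree_le_zero, h0]))
      exact ⟨x0, hx0⟩
    have hQd := hnd Qg hroot
    have hPr : ∃ x0, Pg.eval x0 = 0 := by
      by_contra h
      have hPd := hnd Pg h
      rw [hPd, hQd] at hgb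
      simp at hgb
      omega
    obtain ⟨x0, hx0⟩ := hPr
    have hX : IsCoprime (1 : K[X]) X := isCoprime_one_left
    have hXd : max (1 : K[X]).natDegree (X : K[X]).natDegree = 1 := by simp
    have hdA := hom_degree hA hAa hX hXd
    rw [mul_one] at hdA
    refine descP1 ha hb hm hPQ hd (hom_coprime hA hAa hX) hdA hg.symm
      (by rw [max_comm]; exact hgb) ?_ x0 hx0
    intro x
    rw [hf x]
    exact swap_dec hm1 hA hAa hg hgb x

end Pool.Agent.Lib.P62c
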