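import Pool.Agent.Lib.P62c.Star

/-!
# Module P62c.WrEq: two decompositions have proportional quadratic differentials

If `[P : Q]` factors through `T_m` in two ways with inner factors `[p1 : q1]`, `[p2 : q2]` which have a
common pole `x0`, then `wr p1 q1 ^ 2 * rr p2 q2 = wr p2 q2 ^ 2 * rr p1 q1`.
-/

namespace Pool.Agent.Lib.P62c

open Polynomial Pool.Agent.Lib.P62a0c3 Pool.Agent.Lib.P62h

namespace WrEqAux

variable {K : Type*} [Field K]

theorem coprime_of_eval {x0 : K} {S : K[X]} (h : S.eval x0 ≠ 0) : IsCoprime (X - C x0) S := by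
  rw [(irreducible_X_sub_C x0).coprime_iff_not_dvd, dvd_iff_isRoot]
  exact h

/-- the local form of `Q` at a zero `x0` of `q` -/
theorem local_form {a α m : ℕ} (hαa : α ≤ a) (hm : 1 ≤ m) {Q : K[X]} {x0 : K}
    {QA p q : K[X]} {l : K} (hl : l ≠ 0) (hQA : QA.natDegree = a - α) (hQA' : QA ≠ 0)
    (hpq : IsCoprime p q) (hq : q ≠ 0) (hx : q.eval x0 = 0)
    (hQ : Q = C l * hom a QA (hom m (dickson 1 (1 : K) m) p q) (q ^ m)) :
    ∃ (j : ℕ) (s R : K[X]), 1 ≤ j ∧ q ^ m = (X - C x0) ^ (j * m) * s ∧ R.eval x0 ≠ 0 ∧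
      Q = R * (X - C x0) ^ (j * m * α) := by
  have hcop : IsCoprime (hom m (dickson 1 (1 : K) m) p q) (q ^ m) := by
    have h := hom_coprime (P := dickson 1 (1 : K) m) (Q := 1) isCoprime_one_right
      (dickson_pair_degree hm) hpq
    rwa [iT_hom_const] at h
  set M : K[X] := hom m (dickson 1 (1 : K) m) p q with hM
  obtain ⟨q', hq', hnd⟩ := exists_eq_pow_rootMultiplicity_mul_and_not_dvd q hq x0
  set j := q.rootMultiplicity x0 with hj
  have hj1 : 1 ≤ j := (rootMultiplicity_pos hq).2 hx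
  have hq'x : q'.eval x0 ≠ 0 := fun h => hnd (dvd_iff_isRoot.2 h)
  have hN : q ^ m = (X - C x0) ^ (j * m) * q' ^ m := by
    conv_lhs => rw [hq']
    rw [mul_pow, ← pow_mul]
  have hNx : (q ^ m).eval x0 = 0 := by rw [eval_pow, hx, zero_pow (by omega)]
  have hMx : M.eval x0 ≠ 0 := by
    intro h0
    obtain ⟨u, v, huv⟩ := hcop
    have h1 := congrArg (eval x0) huv
    rw [eval_add, eval_mul, eval_mul, h0, hNx, mul_zero, mul_zero, add_zero, eval_one] at h1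
    exact zero_ne_one h1
  obtain ⟨u, hu⟩ := StarAux.hom_top hαa QA M (q ^ m)
    (fun i hi => coeff_eq_zero_of_natDegree_lt (by omega))
  have hd : QA.coeff (a - α) ≠ 0 := by
    rw [← hQA]; exact leadingCoeff_ne_zero.2 hQA'
  refine ⟨j, q' ^ m, C l * (q' ^ m) ^ α * (C (QA.coeff (a - α)) * M ^ (a - α) + q ^ m * u), hj1, hN,
    ?_, ?_⟩
  · rw [eval_mul, eval_mul, eval_C, eval_add, eval_mul, eval_C, eval_mul, hNx, zero_mul, add_zero,
      eval_pow, eval_pow, eval_pow]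
    exact mul_ne_zero (mul_ne_zero hl (pow_ne_zero _ (pow_ne_zero _ hq'x)))
      (mul_ne_zero hd (pow_ne_zero _ hMx))
  · have h1 : hom a QA M (q ^ m) =
        (q ^ m) ^ α * (C (QA.coeff (a - α)) * M ^ (a - α) + q ^ m * u) := by
      linear_combination hu
    have h2 : (q ^ m) ^ α = (X - C x0) ^ (j * m * α) * (q' ^ m) ^ α := by
      rw [hN, mul_pow, ← pow_mul]
    rw [hQ, h1]
    rw [h2]
    ring

theorem wr_degree {b : ℕ} (hb : 1 ≤ b) {p q : K[X]} (h : max p.natDegree q.natDegree = b) :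
    (wr p q).natDegree ≤ 2 * b - 1 := by
  have hp : p.natDegree ≤ b := by rw [← h]; exact le_max_left _ _
  have hq : q.natDegree ≤ b := by rw [← h]; exact le_max_right _ _
  unfold wr
  have dp := natDegree_derivative_le p
  have dq := natDegree_derivative_le q
  refine (natDegree_sub_le _ _).trans (max_le ?_ ?_)
  · refine natDegree_mul_le.trans ?_
    omega
  · refine natDegree_mul_le.trans ?_
    omega

theorem rr_degree {b : ℕ} {p q : K[X]} (h : max p.natDegree q.natDegree = b) :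
    (rr p q).natDegree ≤ 4 * b := by
  have hp : p.natDegree ≤ b := by rw [← h]; exact le_max_left _ _
  have hq : q.natDegree ≤ b := by rw [← h]; exact le_max_right _ _
  have hp2 : (p ^ 2).natDegree ≤ 2 * b := natDegree_pow_le.trans (by omega)
  have hq2 : (q ^ 2).natDegree ≤ 2 * b := natDegree_pow_le.trans (by omega)
  unfold rr
  refine natDegree_mul_le.trans ?_
  have h4 : (4 * q ^ 2 : K[X]).natDegree ≤ 2 * b := by
    have h5 : (4 * q ^ 2 : K[X]) = C 4 * q ^ 2 := by rw [map_ofNat]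
    rw [h5]
    exact (natDegree_C_mul_le _ _).trans hq2
  have h6 := (natDegree_sub_le (p ^ 2) (4 * q ^ 2)).trans (max_le hp2 h4)
  omega

end WrEqAux

open WrEqAux in
theorem wr_eq {K : Type*} [Field K] [CharZero K] {a b α m : ℕ} (hα : 1 ≤ α) (hαa : α ≤ a)
    (hb : 1 ≤ b) (hm : 8 * b < m) {P Q : K[X]} (hPQ : IsCoprime P Q) {x0 : K}
    {PA1 QA1 p1 q1 PA2 QA2 p2 q2 : K[X]} {l1 l2 : K} (hl1 : l1 ≠ 0) (hl2 : l2 ≠ 0)
    (hPA1 : PA1.natDegree = a) (hQA1 : QA1.natDegree = a - α) (hQA1' : QA1 ≠ 0)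
    (hPA2 : PA2.natDegree = a) (hQA2 : QA2.natDegree = a - α) (hQA2' : QA2 ≠ 0)
    (h1 : IsCoprime p1 q1) (h1b : max p1.natDegree q1.natDegree = b) (h1q : q1 ≠ 0)
    (h1x : q1.eval x0 = 0) (h2 : IsCoprime p2 q2) (h2b : max p2.natDegree q2.natDegree = b)
    (h2q : q2 ≠ 0) (h2x : q2.eval x0 = 0)
    (hP1 : P = C l1 * hom a PA1 (hom m (dickson 1 (1 : K) m) p1 q1) (q1 ^ m))
    (hQ1 : Q = C l1 * hom a QA1 (hom m (dickson 1 (1 : K) m) p1 q1) (q1 ^ m))
    (hP2 : P = C l2 * hom a PA2 (hom m (dickson 1 (1 : K) m) p2 q2) (q2 ^ m))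
    (hQ2 : Q = C l2 * hom a QA2 (hom m (dickson 1 (1 : K) m) p2 q2) (q2 ^ m)) :
    wr p1 q1 ^ 2 * rr p2 q2 = wr p2 q2 ^ 2 * rr p1 q1 := by
  have hm1 : 1 ≤ m := by omega
  obtain ⟨j, s1, R1, hj, hN1, hR1, e1⟩ := local_form hαa hm1 hl1 hQA1 hQA1' h1 h1q h1x hQ1
  obtain ⟨j2, s2, R2, -, hN2, hR2, e2⟩ := local_form hαa hm1 hl2 hQA2 hQA2' h2 h2q h2x hQ2
  have hR10 : R1 ≠ 0 := by rintro rfl; exact hR1 (by rw [eval_zero])
  have hR20 : R2 ≠ 0 := by rintro rfl; exact hR2 (by rw [eval_zero])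
  have hjj : j2 = j := by
    have k1 : Q.rootMultiplicity x0 = j * m * α := by
      rw [e1, rootMultiplicity_mul_X_sub_C_pow hR10, rootMultiplicity_eq_zero hR1, zero_add]
    have k2 : Q.rootMultiplicity x0 = j2 * m * α := by
      rw [e2, rootMultiplicity_mul_X_sub_C_pow hR20, rootMultiplicity_eq_zero hR2, zero_add]
    rw [k1] at k2
    have k3 := Nat.eq_of_mul_eq_mul_right (by omega : 0 < α) k2
    exact (Nat.eq_of_mul_eq_mul_right (by omega : 0 < m) k3).symm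
  rw [hjj] at hN2
  have hQx : Q.eval x0 = 0 := by
    rw [e1, eval_mul, eval_pow, eval_sub, eval_X, eval_C, sub_self, zero_pow, mul_zero]
    exact Nat.mul_ne_zero (Nat.mul_ne_zero (by omega) (by omega)) (by omega)
  have hPx : P.eval x0 ≠ 0 := by
    intro h0
    obtain ⟨u, v, huv⟩ := hPQ
    have h3 := congrArg (eval x0) huv
    rw [eval_add, eval_mul, eval_mul, h0, hQx, mul_zero, mul_zero, add_zero, eval_one] at h3
    exact zero_ne_one h3
  have s1' := star hα hαa hm1 hPA1.le hQA1.le h1 h1q hP1 hQ1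
  have s2' := star hα hαa hm1 hPA2.le hQA2.le h2 h2q hP2 hQ2
  set π : K[X] := X - C x0 with hπ
  have d1 : π ^ (j * m * (2 * α + 1)) ∣ rr p1 q1 * wr P Q ^ 2 -
      (α : K[X]) ^ 2 * (m : K[X]) ^ 2 * (P * Q) ^ 2 * wr p1 q1 ^ 2 := by
    refine dvd_trans ?_ s1'
    rw [hN1, mul_pow, ← pow_mul]
    exact Dvd.intro _ rfl
  have d2 : π ^ (j * m * (2 * α + 1)) ∣ rr p2 q2 * wr P Q ^ 2 -
      (α : K[X]) ^ 2 * (m : K[X]) ^ 2 * (P * Q) ^ 2 * wr p2 q2 ^ 2 := by
    refine dvd_trans ?_ s2'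
    rw [hN2, mul_pow, ← pow_mul]
    exact Dvd.intro _ rfl
  set D : K[X] := wr p1 q1 ^ 2 * rr p2 q2 - wr p2 q2 ^ 2 * rr p1 q1 with hD
  have d3 : π ^ (j * m * (2 * α + 1)) ∣
      π ^ (j * m * α * 2) * ((α : K[X]) ^ 2 * (m : K[X]) ^ 2 * P ^ 2 * R1 ^ 2 * D) := by
    have h3 := dvd_sub (d2.mul_left (rr p1 q1)) (d1.mul_left (rr p2 q2))
    have h4 : rr p1 q1 * (rr p2 q2 * wr P Q ^ 2 -
          (α : K[X]) ^ 2 * (m : K[X]) ^ 2 * (P * Q) ^ 2 * wr p2 q2 ^ 2) -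
        rr p2 q2 * (rr p1 q1 * wr P Q ^ 2 -
          (α : K[X]) ^ 2 * (m : K[X]) ^ 2 * (P * Q) ^ 2 * wr p1 q1 ^ 2) =
        π ^ (j * m * α * 2) * ((α : K[X]) ^ 2 * (m : K[X]) ^ 2 * P ^ 2 * R1 ^ 2 * D) := by
      have h5 : (P * Q) ^ 2 = π ^ (j * m * α * 2) * (P ^ 2 * R1 ^ 2) := by
        rw [e1, pow_mul π (j * m * α) 2]; ring
      rw [h5, hD]; ring
    rw [h4] at h3
    exact h3
  have hπ0 : π ^ (j * m * α * 2) ≠ 0 := pow_ne_zero _ (X_sub_C_ne_zero x0)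
  have hexp : j * m * (2 * α + 1) = j * m * α * 2 + j * m := by ring
  rw [hexp, pow_add] at d3
  have d4 := (mul_dvd_mul_iff_left hπ0).1 d3
  have hcopS : IsCoprime (π ^ (j * m)) ((α : K[X]) ^ 2 * (m : K[X]) ^ 2 * P ^ 2 * R1 ^ 2) := by
    apply IsCoprime.pow_left
    apply coprime_of_eval
    rw [eval_mul, eval_mul, eval_mul, eval_pow, eval_pow, eval_pow, eval_pow, eval_natCast,
      eval_natCast]
    refine mul_ne_zero (mul_ne_zero (mul_ne_zero ?_ ?_) ?_) ?_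
    · exact pow_ne_zero _ (Nat.cast_ne_zero.2 (by omega))
    · exact pow_ne_zero _ (Nat.cast_ne_zero.2 (by omega))
    · exact pow_ne_zero _ hPx
    · exact pow_ne_zero _ hR1
  have d5 : π ^ (j * m) ∣ D := hcopS.dvd_of_dvd_mul_left d4
  have hdegD : D.natDegree ≤ 8 * b := by
    have w1 := wr_degree hb h1b
    have w2 := wr_degree hb h2b
    have r1 := rr_degree h1b
    have r2 := rr_degree h2b
    have w1' : (wr p1 q1 ^ 2).natDegree ≤ 2 * (2 * b - 1) :=
      natDegree_pow_le.trans (by omega)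
    have w2' : (wr p2 q2 ^ 2).natDegree ≤ 2 * (2 * b - 1) :=
      natDegree_pow_le.trans (by omega)
    rw [hD]
    refine (natDegree_sub_le _ _).trans (max_le ?_ ?_)
    · refine natDegree_mul_le.trans ?_
      omega
    · refine natDegree_mul_le.trans ?_
      omega
  have hD0 : D = 0 := by
    apply eq_zero_of_dvd_of_natDegree_lt d5
    rw [natDegree_pow, hπ, natDegree_X_sub_C, mul_one]
    have : m ≤ j * m := Nat.le_mul_of_pos_left m (by omega)
    omega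
  exact sub_eq_zero.1 hD0

end Pool.Agent.Lib.P62c
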