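import Pool.Agent.Lib.P62c.StarA

/-!
# Module P62c.PowStar: a congruence for the composition with `x ^ m`

`P = l PA(p^m, q^m)`, `Q = l QA(p^m, q^m)` (homogeneous forms of degree `a`), where `QA` has degree at
most `a - α`.  Modulo `(q ^ m) ^ (α + 1)`: `p q (P' Q - P Q') = α m P Q (p' q - p q')`.
-/

namespace Pool.Agent.Lib.P62c

open Polynomial Pool.Agent.Lib.P62a0c3 Pool.Agent.Lib.P62h

theorem wr_pow {K : Type*} [Field K] (p q : K[X]) (m : ℕ) :
    p * q * (derivative (p ^ m) * q ^ m - p ^ m * derivative (q ^ m)) =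
      (m : K[X]) * (p ^ m * q ^ m) * wr p q := by
  have h1 := StarAux.mul_der_pow p m
  have h2 := StarAux.mul_der_pow q m
  unfold wr
  linear_combination (q * q ^ m) * h1 - (p * p ^ m) * h2

open StarAux in
theorem pow_star {K : Type*} [Field K] {a α m : ℕ} (hα : 1 ≤ α) (hαa : α ≤ a) (hm : 1 ≤ m)
    {PA QA p q P Q : K[X]} {l : K} (hPA : PA.natDegree ≤ a) (hQA : QA.natDegree ≤ a - α)
    (hp : p ≠ 0) (hq : q ≠ 0)
    (hP : P = C l * hom a PA (p ^ m) (q ^ m)) (hQ : Q = C l * hom a QA (p ^ m) (q ^ m)) :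
    (q ^ m) ^ (α + 1) ∣ p * q * wr P Q - (α : K[X]) * (m : K[X]) * (P * Q) * wr p q := by
  have hMN0 : p ^ m * q ^ m ≠ 0 := mul_ne_zero (pow_ne_zero m hp) (pow_ne_zero m hq)
  have hw := wr_pow p q m
  set M : K[X] := p ^ m with hM
  set N : K[X] := q ^ m with hN
  have dP := hom_der a PA M N
  have dQ := hom_der a QA M N
  obtain ⟨X1, hX1⟩ := cross hαa PA QA M N hPA hQA
  set HP := hom a PA M N with hHP
  set H1 := hom a (X * derivative PA) M N with hH1
  set HQ := hom a QA M N with hHQ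
  set H2 := hom a (X * derivative QA) M N with hH2
  set w : K[X] := derivative M * N - M * derivative N with hwd
  have e0 : wr P Q = C l ^ 2 * (derivative HP * HQ - HP * derivative HQ) := by
    rw [hP, hQ]
    unfold wr
    rw [der_C_mul, der_C_mul]; ring
  refine ⟨(m : K[X]) * C l ^ 2 * X1 * wr p q, ?_⟩
  apply mul_left_cancel₀ hMN0
  rw [e0, hP, hQ]
  linear_combination (C l ^ 2 * p * q * HQ) * dP - (C l ^ 2 * p * q * HP) * dQ +
    (C l ^ 2 * p * q * w) * hX1 +
    (C l ^ 2 * ((α : K[X]) * (HP * HQ) + N ^ (α + 1) * X1)) * hw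

end Pool.Agent.Lib.P62c
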