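import Mathlib

/-!
# Module P62c.ResH: homogeneity of a resultant

In the Leibniz formula for the Sylvester determinant every term is a product of `N` coefficients of
`G` and `d` coefficients of `H`.
-/

namespace Pool.Agent.Lib.P62c

open Polynomial

/-- All coefficients are homogeneous of degree `n`. -/
def CHom {k σ : Type*} [CommRing k] (n : ℕ) (p : Polynomial (MvPolynomial σ k)) : Prop :=
  ∀ j, (p.coeff j).IsHomogeneous n

theorem CHom.mul {k σ : Type*} [CommRing k] {n m : ℕ} {p q : Polynomial (MvPolynomial σ k)}
    (hp : CHom n p) (hq : CHom m q) : CHom (n + m) (p * q) := by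
  intro j
  rw [coeff_mul]
  exact MvPolynomial.IsHomogeneous.sum _ _ _ fun x _ => (hp x.1).mul (hq x.2)

theorem CHom.one {k σ : Type*} [CommRing k] : CHom 0 (1 : Polynomial (MvPolynomial σ k)) := by
  intro j
  rw [coeff_one]
  split_ifs
  · exact MvPolynomial.isHomogeneous_one _ _
  · exact MvPolynomial.isHomogeneous_zero _ _ _

theorem CHom.zero {k σ : Type*} [CommRing k] (n : ℕ) :
    CHom n (0 : Polynomial (MvPolynomial σ k)) := by
  intro j
  rw [coeff_zero]
  exact MvPolynomial.isHomogeneous_zero _ _ _

theorem CHom.neg {k σ : Type*} [CommRing k] {n : ℕ} {p : Polynomial (MvPolynomial σ k)}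
    (hp : CHom n p) : CHom n (-p) := by
  intro j
  rw [coeff_neg]
  exact (hp j).neg

theorem CHom.sum {k σ ι : Type*} [CommRing k] {n : ℕ} (s : Finset ι)
    (f : ι → Polynomial (MvPolynomial σ k)) (h : ∀ i ∈ s, CHom n (f i)) :
    CHom n (∑ i ∈ s, f i) := by
  intro j
  rw [finsetSum_coeff]
  exact MvPolynomial.IsHomogeneous.sum _ _ _ fun i hi => h i hi j

theorem CHom.prod {k σ ι : Type*} [CommRing k] {n : ℕ} (s : Finset ι)
    (f : ι → Polynomial (MvPolynomial σ k)) (h : ∀ i ∈ s, CHom n (f i)) :
    CHom (s.card * n) (∏ i ∈ s, f i) := by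
  classical
  induction s using Finset.induction_on with
  | empty =>
    rw [Finset.card_empty, zero_mul, Finset.prod_empty]
    exact CHom.one
  | insert a s ha ih =>
    rw [Finset.prod_insert ha, Finset.card_insert_of_notMem ha, add_mul, one_mul, add_comm]
    exact (h a (Finset.mem_insert_self a s)).mul
      (ih fun i hi => h i (Finset.mem_insert_of_mem hi))

theorem resultant_hom {k : Type*} [CommRing k] {σ : Type*} {N d : ℕ}
    (H G : Polynomial (Polynomial (MvPolynomial σ k)))
    (hH : ∀ i j, ((H.coeff i).coeff j).IsHomogeneous 1)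
    (hG : ∀ i j, ((G.coeff i).coeff j).IsHomogeneous 0) (j : ℕ) :
    ((resultant H G N d).coeff j).IsHomogeneous d := by
  revert j
  change CHom d (resultant H G N d)
  unfold resultant
  rw [Matrix.det_apply]
  refine CHom.sum _ _ fun τ _ => ?_
  have key : CHom d (∏ i, sylvester H G N d (τ i) i) := by
    rw [Fin.prod_univ_add]
    have h1 : CHom (0 : ℕ) (∏ i : Fin N, sylvester H G N d (τ (Fin.castAdd d i))
        (Fin.castAdd d i)) := by
      have := CHom.prod (n := 0) Finset.univ
        (fun i : Fin N => sylvester H G N d (τ (Fin.castAdd d i)) (Fin.castAdd d i))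
        (fun i _ => by
          rw [sylvester, Matrix.of_apply, Fin.addCases_left]
          split_ifs
          · exact hG _
          · exact CHom.zero 0)
      rwa [mul_zero] at this
    have h2 : CHom d (∏ i : Fin d, sylvester H G N d (τ (Fin.natAdd N i)) (Fin.natAdd N i)) := by
      have := CHom.prod (n := 1) Finset.univ
        (fun i : Fin d => sylvester H G N d (τ (Fin.natAdd N i)) (Fin.natAdd N i))
        (fun i _ => by
          rw [sylvester, Matrix.of_apply, Fin.addCases_right]
          split_ifs
          · exact hH _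
          · exact CHom.zero 1)
      rwa [Finset.card_univ, Fintype.card_fin, mul_one] at this
    have := h1.mul h2
    rwa [zero_add] at this
  rcases Int.units_eq_one_or (Equiv.Perm.sign τ) with h | h
  · rw [h, one_smul]; exact key
  · rw [h, Units.neg_smul, one_smul]; exact key.neg

end Pool.Agent.Lib.P62c
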