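import Mathlib

/-!
# Module P62c.ResP: the resultant of a product of `N` polynomials of degree at most `1`
-/

namespace Pool.Agent.Lib.P62c

open Polynomial

theorem resultant_prod1 {S : Type*} [CommRing S] [IsDomain S] {N d : ℕ} (f : Fin N → S[X])
    (hf : ∀ i, f i ≠ 0) (hf1 : ∀ i, (f i).natDegree ≤ 1) (G : S[X]) (hG : G.natDegree ≤ d) :
    resultant (∏ i, f i) G N d = ∏ i, resultant (f i) G 1 d := by
  classical
  have hlc : ∏ i ∈ Finset.univ, (f i).leadingCoeff ≠ 0 :=
    Finset.prod_ne_zero_iff.2 fun i _ => leadingCoeff_ne_zero.2 (hf i)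
  have hdeg : (∏ i, f i).natDegree = ∑ i, (f i).natDegree := natDegree_prod _ _ fun i _ => hf i
  have hone : ∀ i, resultant (f i) G 1 d =
      ((-1) ^ d * G.coeff d) ^ (1 - (f i).natDegree) * resultant (f i) G (f i).natDegree d := by
    intro i
    have h1 : (f i).natDegree + (1 - (f i).natDegree) = 1 := by have := hf1 i; omega
    have h2 := resultant_add_left_deg (f i) G (f i).natDegree d (1 - (f i).natDegree) le_rfl
    rw [h1] at h2
    rw [h2, mul_pow, ← pow_mul]
  have hsum : (∑ i, (f i).natDegree) + ∑ i, (1 - (f i).natDegree) = N := by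
    rw [← Finset.sum_add_distrib]
    have h3 : ∀ i ∈ Finset.univ, (f i).natDegree + (1 - (f i).natDegree) = 1 := by
      intro i _
      have := hf1 i
      omega
    rw [Finset.sum_congr rfl h3]
    simp
  have h4 := resultant_add_left_deg (∏ i, f i) G (∑ i, (f i).natDegree) d
    (∑ i, (1 - (f i).natDegree)) hdeg.le
  rw [hsum] at h4
  have h5 := resultant_prod_left Finset.univ f G d hlc hG
  rw [hdeg] at h5
  rw [h4, h5, Finset.prod_congr rfl fun i _ => hone i, Finset.prod_mul_distrib,
    Finset.prod_pow_eq_pow_sum, mul_pow, ← pow_mul]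

end Pool.Agent.Lib.P62c
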