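import Pool.Agent.Lib.P62c.StarA
import Pool.Agent.Lib.P62c.Ode

/-!
# Module P62c.Star: a congruence for the composition with `T_m`

`star_of` (module StarA) with the differential equation of `T_m` (module Ode).
-/

namespace Pool.Agent.Lib.P62c

open Polynomial Pool.Agent.Lib.P62a0c3 Pool.Agent.Lib.P62h

theorem star {K : Type*} [Field K] {a α m : ℕ} (hα : 1 ≤ α) (hαa : α ≤ a) (hm : 1 ≤ m)
    {PA QA p q P Q : K[X]} {l : K} (hPA : PA.natDegree ≤ a) (hQA : QA.natDegree ≤ a - α)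
    (hpq : IsCoprime p q) (hq : q ≠ 0)
    (hP : P = C l * hom a PA (hom m (dickson 1 (1 : K) m) p q) (q ^ m))
    (hQ : Q = C l * hom a QA (hom m (dickson 1 (1 : K) m) p q) (q ^ m)) :
    (q ^ m) ^ (2 * α + 1) ∣ rr p q * wr P Q ^ 2 -
      (α : K[X]) ^ 2 * (m : K[X]) ^ 2 * (P * Q) ^ 2 * wr p q ^ 2 :=
  star_of hα hαa hm hPA hQA hpq hq hP hQ (ode_hom m p q)

end Pool.Agent.Lib.P62c
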