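import Pool.Agent.Lib.P62c.DefU
import Pool.Agent.Lib.P62c.IsoTT

/-!
# Module P62c.StarA: a congruence for the composition with `T_m`

`M = T_m(p, q)`, `N = q^m` (homogeneous forms), `P = l PA(M, N)`, `Q = l QA(M, N)` of degree `a`, where
`QA` has degree at most `a - α`.  Modulo `N ^ (2 α + 1)`:
`q² (p² - 4 q²) (P' Q - P Q')² = α² m² (P Q)² (p' q - p q')²`.
-/

namespace Pool.Agent.Lib.P62c

open Polynomial Pool.Agent.Lib.P62a0c3 Pool.Agent.Lib.P62h

namespace StarAux

variable {K : Type*} [Field K]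

theorem mul_der_pow (M : K[X]) (i : ℕ) :
    M * derivative (M ^ i) = (i : K[X]) * M ^ i * derivative M := by
  cases i with
  | zero => simp
  | succ i =>
    rw [derivative_pow_succ, map_add, map_natCast, map_one]
    push_cast
    ring

theorem coeff_X_der (G : K[X]) (i : ℕ) :
    (X * derivative G).coeff i = (i : K) * G.coeff i := by
  cases i with
  | zero => simp
  | succ i =>
    rw [coeff_X_mul, coeff_derivative]
    push_cast
    ring

theorem hom_der (a : ℕ) (G M N : K[X]) :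
    M * N * derivative (hom a G M N) =
      hom a (X * derivative G) M N * (derivative M * N - M * derivative N) +
        (a : K[X]) * hom a G M N * (M * derivative N) := by
  have h : ∀ i ∈ Finset.range (a + 1),
      M * N * derivative (C (G.coeff i) * M ^ i * N ^ (a - i)) =
        C ((X * derivative G).coeff i) * M ^ i * N ^ (a - i) *
            (derivative M * N - M * derivative N) +
          (a : K[X]) * (C (G.coeff i) * M ^ i * N ^ (a - i)) * (M * derivative N) := by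
    intro i hi
    obtain ⟨j, hj⟩ : ∃ j, a = i + j := ⟨a - i, by have := Finset.mem_range.1 hi; omega⟩
    have e1 : a - i = j := by omega
    rw [e1, coeff_X_der, C_mul, derivative_mul, derivative_mul, derivative_C, zero_mul, zero_add,
      C_eq_natCast]
    have h1 := mul_der_pow M i
    have h2 := mul_der_pow N j
    have h3 : (a : K[X]) = (i : K[X]) + (j : K[X]) := by rw [hj]; push_cast; ring
    rw [h3]
    linear_combination (C (G.coeff i) * N ^ j * N) * h1 + (C (G.coeff i) * M ^ i * M) * h2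
  unfold hom
  rw [derivative_sum, Finset.mul_sum, Finset.sum_congr rfl h, Finset.sum_add_distrib,
    Finset.sum_mul, Finset.mul_sum, Finset.sum_mul]

theorem hom_top {a β : ℕ} (hβ : β ≤ a) (G M N : K[X]) (hG : ∀ i, a - β < i → G.coeff i = 0) :
    N ^ (β + 1) ∣ hom a G M N - C (G.coeff (a - β)) * M ^ (a - β) * N ^ β := by
  have hmem : a - β ∈ Finset.range (a + 1) := by rw [Finset.mem_range]; omega
  unfold hom
  rw [← Finset.add_sum_erase _ _ hmem]
  have e1 : a - (a - β) = β := by omega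
  rw [e1, add_sub_cancel_left]
  refine Finset.dvd_sum fun i hi => ?_
  obtain ⟨h1, h2⟩ := Finset.mem_erase.1 hi
  rcases lt_or_gt_of_ne h1 with h3 | h3
  · exact (pow_dvd_pow N (by omega)).mul_left _
  · rw [hG i h3]
    simp

theorem hom_dvd_pow {a β : ℕ} (hβ : β ≤ a) (G M N : K[X]) (hG : ∀ i, a - β < i → G.coeff i = 0) :
    N ^ β ∣ hom a G M N := by
  have h1 := hom_top hβ G M N hG
  have h2 : N ^ β ∣ hom a G M N - C (G.coeff (a - β)) * M ^ (a - β) * N ^ β :=
    (pow_dvd_pow N (Nat.le_succ β)).trans h1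
  have h3 : N ^ β ∣ C (G.coeff (a - β)) * M ^ (a - β) * N ^ β := dvd_mul_left _ _
  have h4 := dvd_add h2 h3
  rwa [sub_add_cancel] at h4

/-- the cross term -/
theorem cross {a α : ℕ} (hαa : α ≤ a) (PA QA M N : K[X]) (hPA : PA.natDegree ≤ a)
    (hQA : QA.natDegree ≤ a - α) :
    N ^ (α + 1) ∣ hom a (X * derivative PA) M N * hom a QA M N -
      hom a PA M N * hom a (X * derivative QA) M N -
        (α : K[X]) * (hom a PA M N * hom a QA M N) := by
  have hP : ∀ i, a - 0 < i → PA.coeff i = 0 := fun i hi =>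
    coeff_eq_zero_of_natDegree_lt (by omega)
  have hQ : ∀ i, a - α < i → QA.coeff i = 0 := fun i hi =>
    coeff_eq_zero_of_natDegree_lt (by omega)
  obtain ⟨u1, h1⟩ := hom_top (Nat.zero_le a) PA M N hP
  obtain ⟨u2, h2⟩ := hom_top (Nat.zero_le a) (X * derivative PA) M N
    (fun i hi => by rw [coeff_X_der, hP i hi, mul_zero])
  obtain ⟨u3, h3⟩ := hom_top hαa QA M N hQ
  obtain ⟨u4, h4⟩ := hom_top hαa (X * derivative QA) M N
    (fun i hi => by rw [coeff_X_der, hQ i hi, mul_zero])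
  rw [coeff_X_der, C_mul, C_eq_natCast] at h2 h4
  rw [Nat.sub_zero] at h1 h2
  rw [zero_add, pow_one, pow_zero] at h1 h2
  have hcast : (a : K[X]) = ((a - α : ℕ) : K[X]) + (α : K[X]) := by
    rw [← Nat.cast_add]; congr 1; omega
  rw [hcast] at h2
  set c := C (PA.coeff a)
  set d := C (QA.coeff (a - α))
  set t : K[X] := ((a - α : ℕ) : K[X])
  set s : K[X] := (α : K[X])
  set HP := hom a PA M N
  set H1 := hom a (X * derivative PA) M N
  set HQ := hom a QA M N
  set H2 := hom a (X * derivative QA) M N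
  have k1 : HP = c * M ^ a + N * u1 := by linear_combination h1
  have k2 : H1 = (t + s) * c * M ^ a + N * u2 := by linear_combination h2
  have k3 : HQ = d * M ^ (a - α) * N ^ α + N ^ (α + 1) * u3 := by linear_combination h3
  have k4 : H2 = t * d * M ^ (a - α) * N ^ α + N ^ (α + 1) * u4 := by linear_combination h4
  refine ⟨(u2 - s * u1) * (d * M ^ (a - α)) + (H1 - s * HP) * u3 - u1 * (t * d * M ^ (a - α)) -
    HP * u4, ?_⟩
  have e : H1 * HQ - HP * H2 - s * (HP * HQ) = (H1 - s * HP) * HQ - HP * H2 := by ring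
  rw [e]
  have e2 : (H1 - s * HP) * HQ - HP * H2 =
      (H1 - s * HP) * (d * M ^ (a - α) * N ^ α) - HP * (t * d * M ^ (a - α) * N ^ α) +
        N ^ (α + 1) * ((H1 - s * HP) * u3 - HP * u4) := by
    rw [k3, k4]; ring
  rw [e2]
  have e3 : (H1 - s * HP) * (d * M ^ (a - α) * N ^ α) - HP * (t * d * M ^ (a - α) * N ^ α) =
      N ^ (α + 1) * ((u2 - s * u1) * (d * M ^ (a - α)) - u1 * (t * d * M ^ (a - α))) := by
    rw [k1, k2]; ring
  rw [e3]
  ring

theorem der_C_mul (l : K) (H : K[X]) : derivative (C l * H) = C l * derivative H := by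
  rw [derivative_mul, derivative_C, zero_mul, zero_add]

end StarAux

open StarAux in
theorem star_of {K : Type*} [Field K] {a α m : ℕ} (hα : 1 ≤ α) (hαa : α ≤ a) (hm : 1 ≤ m)
    {PA QA p q P Q : K[X]} {l : K} (hPA : PA.natDegree ≤ a) (hQA : QA.natDegree ≤ a - α)
    (hpq : IsCoprime p q) (hq : q ≠ 0)
    (hP : P = C l * hom a PA (hom m (dickson 1 (1 : K) m) p q) (q ^ m))
    (hQ : Q = C l * hom a QA (hom m (dickson 1 (1 : K) m) p q) (q ^ m))
    (ode : rr p q * wr (hom m (dickson 1 (1 : K) m) p q) (q ^ m) ^ 2 =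
      (m : K[X]) ^ 2 * (q ^ m) ^ 2 *
        ((hom m (dickson 1 (1 : K) m) p q) ^ 2 - 4 * (q ^ m) ^ 2) * wr p q ^ 2) :
    (q ^ m) ^ (2 * α + 1) ∣ rr p q * wr P Q ^ 2 -
      (α : K[X]) ^ 2 * (m : K[X]) ^ 2 * (P * Q) ^ 2 * wr p q ^ 2 := by
  have hcop : IsCoprime (hom m (dickson 1 (1 : K) m) p q) (q ^ m) := by
    have h := hom_coprime (P := dickson 1 (1 : K) m) (Q := 1) isCoprime_one_right
      (dickson_pair_degree hm) hpq
    rwa [iT_hom_const] at h
  have hN0 : q ^ m ≠ 0 := pow_ne_zero m hq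
  set M : K[X] := hom m (dickson 1 (1 : K) m) p q with hM
  set N : K[X] := q ^ m with hN
  have dP := hom_der a PA M N
  have dQ := hom_der a QA M N
  obtain ⟨X1, hX1⟩ := cross hαa PA QA M N hPA hQA
  obtain ⟨Q1, hQ1⟩ := hom_dvd_pow hαa QA M N (fun i hi =>
    coeff_eq_zero_of_natDegree_lt (by omega))
  set HP := hom a PA M N with hHP
  set H1 := hom a (X * derivative PA) M N with hH1
  set HQ := hom a QA M N with hHQ
  set H2 := hom a (X * derivative QA) M N with hH2
  set w : K[X] := derivative M * N - M * derivative N with hw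
  have hwr : wr M N = w := rfl
  have e1 : M * N * wr P Q = ((α : K[X]) * (P * Q) + C l ^ 2 * N ^ (α + 1) * X1) * w := by
    have h1 : wr P Q = C l ^ 2 * (derivative HP * HQ - HP * derivative HQ) := by
      rw [hP, hQ]
      unfold wr
      rw [der_C_mul, der_C_mul]; ring
    rw [h1, hP, hQ]
    linear_combination (C l ^ 2 * HQ) * dP - (C l ^ 2 * HP) * dQ + (C l ^ 2 * w) * hX1
  have hQ2 : Q = N ^ α * (C l * Q1) := by rw [hQ, hQ1]; ring
  rw [hwr] at ode
  set Y : K[X] := (α : K[X]) * (P * Q) + C l ^ 2 * N ^ (α + 1) * X1 with hY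
  have e2 : rr p q * (M * wr P Q) ^ 2 =
      Y ^ 2 * ((m : K[X]) ^ 2 * (M ^ 2 - 4 * N ^ 2) * wr p q ^ 2) := by
    have hN2 : N ^ 2 ≠ 0 := pow_ne_zero 2 hN0
    apply mul_left_cancel₀ hN2
    linear_combination (rr p q) * (M * N * wr P Q + Y * w) * e1 + Y ^ 2 * ode
  have e3 : N ^ (2 * α + 1) ∣ M ^ 2 * (rr p q * wr P Q ^ 2 -
      (α : K[X]) ^ 2 * (m : K[X]) ^ 2 * (P * Q) ^ 2 * wr p q ^ 2) := by
    refine ⟨(m : K[X]) ^ 2 * wr p q ^ 2 *
      ((2 * (α : K[X]) * P * (C l * Q1) * (C l ^ 2 * X1) + C l ^ 4 * N * X1 ^ 2) *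
        (M ^ 2 - 4 * N ^ 2) - 4 * N * (α : K[X]) ^ 2 * P ^ 2 * (C l * Q1) ^ 2), ?_⟩
    have e4 : M ^ 2 * (rr p q * wr P Q ^ 2 -
        (α : K[X]) ^ 2 * (m : K[X]) ^ 2 * (P * Q) ^ 2 * wr p q ^ 2) =
        rr p q * (M * wr P Q) ^ 2 -
          M ^ 2 * ((α : K[X]) ^ 2 * (m : K[X]) ^ 2 * (P * Q) ^ 2 * wr p q ^ 2) := by ring
    rw [e4, e2, hY, hQ2]
    ring
  exact (hcop.symm.pow (m := 2 * α + 1) (n := 2)).dvd_of_dvd_mul_left e3

end Pool.Agent.Lib.P62c
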