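import Mathlib

/-!
# The map from `N`-tuples of points of `ℙ¹` to `ℙ^N`
-/

namespace Pool.Agent.Lib.P62c

open Polynomial

/-- The linear form vanishing at a point of `ℙ¹`. -/
noncomputable def linf {K : Type*} [Field K] : OnePoint K → K[X]
  | OnePoint.infty => 1
  | OnePoint.some z => X - C z

/-- The product of the linear forms. -/
noncomputable def prodf {K : Type*} [Field K] {N : ℕ} (y : Fin N → OnePoint K) : K[X] :=
  ∏ i, linf (y i)

theorem linf_infty {K : Type*} [Field K] : linf (OnePoint.infty : OnePoint K) = 1 := rfl

theorem linf_coe {K : Type*} [Field K] (z : K) : linf (z : OnePoint K) = X - C z := rfl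

theorem linf_ne {K : Type*} [Field K] (p : OnePoint K) : linf p ≠ 0 := by
  induction p using OnePoint.rec with
  | infty => exact one_ne_zero
  | coe z => exact X_sub_C_ne_zero z

theorem linf_deg {K : Type*} [Field K] (p : OnePoint K) : (linf p).natDegree ≤ 1 := by
  induction p using OnePoint.rec with
  | infty => rw [linf_infty, natDegree_one]; omega
  | coe z => rw [linf_coe, natDegree_X_sub_C]

theorem prodf_ne {K : Type*} [Field K] {N : ℕ} (y : Fin N → OnePoint K) : prodf y ≠ 0 :=
  Finset.prod_ne_zero_iff.2 fun i _ => linf_ne (y i)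

theorem prodf_deg {K : Type*} [Field K] {N : ℕ} (y : Fin N → OnePoint K) :
    (prodf y).natDegree ≤ N := by
  refine (natDegree_prod_le _ _).trans ?_
  refine (Finset.sum_le_card_nsmul _ _ 1 fun i _ => linf_deg (y i)).trans ?_
  simp

theorem coeffs_ne {K : Type*} [Field K] {N : ℕ} (y : Fin N → OnePoint K) :
    (fun j : Fin (N + 1) => (prodf y).coeff j) ≠ 0 := by
  intro h
  apply prodf_ne y
  ext n
  by_cases hn : n < N + 1
  · exact congrFun h ⟨n, hn⟩
  · rw [coeff_zero]
    exact coeff_eq_zero_of_natDegree_lt (lt_of_le_of_lt (prodf_deg y) (by omega))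

/-- The point of `ℙ^N` whose homogeneous coordinates are the coefficients of the product of the
linear forms of the points `y i`. -/
noncomputable def sym {K : Type*} [Field K] {N : ℕ} (y : Fin N → OnePoint K) :
    Projectivization K (Fin (N + 1) → K) :=
  Projectivization.mk K (fun j : Fin (N + 1) => (prodf y).coeff j) (coeffs_ne y)

end Pool.Agent.Lib.P62c
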