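import Mathlib
import Pool.Agent.Lib.P62c.SymD
import Pool.Agent.Lib.P62g.GonSup

/-!
# The field of a point of a tuple is of small degree over the field of its symmetric point
-/

namespace Pool.Agent.Lib.P62c

open Polynomial IntermediateField

theorem SymFAux.gon_adjoin {F k K : Type*} [Field F] [Field k] [Field K] [Algebra k K]
    [Algebra F k] [Algebra F K] [IsScalarTower F k K]
    (A : IntermediateField k K) {N : ℕ} (t : K) (htA : IsIntegral A t)
    (hdeg : (minpoly A t).natDegree ≤ N)
    {D : ℕ} (hA : ∃ y : A, Transcendental F y ∧ 0 < Module.finrank F⟮y⟯ A ∧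
      Module.finrank F⟮y⟯ A ≤ D) :
    ∃ M : IntermediateField k K, t ∈ M ∧ ∃ y : M, Transcendental F y ∧
      0 < Module.finrank F⟮y⟯ M ∧ Module.finrank F⟮y⟯ M ≤ N * D := by
  obtain ⟨y, hyt, hy0, hyD⟩ := hA
  have hfinM : Module.finrank A (A⟮t⟯) ≤ N := by
    rw [IntermediateField.adjoin.finrank htA]
    exact hdeg
  have hposM : 0 < Module.finrank A (A⟮t⟯) := by
    rw [IntermediateField.adjoin.finrank htA]
    exact minpoly.natDegree_pos htA
  set M : IntermediateField k K := restrictScalars k (A⟮t⟯) with hM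
  have hmem : ∀ x : K, x ∈ (A⟮t⟯) ↔ x ∈ M := fun x => Iff.rfl
  have hle : A ≤ M := fun x hx => (A⟮t⟯).algebraMap_mem ⟨x, hx⟩
  let : Algebra A M := (IntermediateField.inclusion hle).toRingHom.toAlgebra
  have : IsScalarTower F A M := by
    refine IsScalarTower.of_algebraMap_eq ?_
    intro x
    rfl
  let e : (A⟮t⟯) ≃+* M :=
    { toFun := fun x => ⟨x.1, (hmem _).1 x.2⟩
      invFun := fun x => ⟨x.1, (hmem _).2 x.2⟩
      left_inv := fun x => rfl
      right_inv := fun x => rfl
      map_mul' := fun x z => rfl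
      map_add' := fun x z => rfl }
  have hfr : Module.finrank A M = Module.finrank A (A⟮t⟯) := by
    symm
    refine Algebra.finrank_eq_of_equiv_equiv (RingEquiv.refl A) e ?_
    ext x
    rfl
  have htow := P62g.GonSupAux.finrank_tower (F := F) (A := A) (L := M) y
  refine ⟨M, (hmem t).1 (mem_adjoin_simple_self A t), algebraMap A M y, ?_, ?_, ?_⟩
  · rw [transcendental_algebraMap_iff (algebraMap A M).injective]
    exact hyt
  · rw [htow, hfr]
    exact Nat.mul_pos hy0 hposM
  · rw [htow, hfr]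
    calc Module.finrank F⟮y⟯ A * Module.finrank A (A⟮t⟯) ≤ D * N := Nat.mul_le_mul hyD hfinM
      _ = N * D := Nat.mul_comm _ _

theorem sym_field {F k K : Type*} [Field F] [Field k] [CharZero k] [Field K] [Algebra k K]
    [Algebra F k] [Algebra F K] [IsScalarTower F k K] {N D : ℕ} (y : Fin N → OnePoint K)
    (x : Projectivization K (Fin (N + 1) → K)) (hx : sym y = x)
    (hgon : ∃ u : IntermediateField.adjoin k {z : K | ∃ i j, z = x.rep i / x.rep j},
      Transcendental F u ∧
      0 < Module.finrank F⟮u⟯ (IntermediateField.adjoin k {z : K | ∃ i j, z = x.rep i / x.rep j}) ∧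
      Module.finrank F⟮u⟯ (IntermediateField.adjoin k {z : K | ∃ i j, z = x.rep i / x.rep j}) ≤ D)
    (i : Fin N) :
    ∃ M : IntermediateField k K, (∃ u : M, Transcendental F u ∧ 0 < Module.finrank F⟮u⟯ M ∧
      Module.finrank F⟮u⟯ M ≤ N * D) ∧ ∃ z : OnePoint M, OnePoint.map (algebraMap M K) z = y i := by
  classical
  set A := IntermediateField.adjoin k {z : K | ∃ i j, z = x.rep i / x.rep j} with hA
  rcases hyi : y i with _ | t
  · refine ⟨A, ?_, OnePoint.infty, ?_⟩
    · obtain ⟨u, h1, h2, h3⟩ := hgon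
      refine ⟨u, h1, h2, h3.trans ?_⟩
      exact Nat.le_mul_of_pos_left D (Nat.zero_lt_of_lt i.2)
    · exact OnePoint.map_infty _
  · obtain ⟨c, hc⟩ : ∃ c : Kˣ, c • x.rep = fun j : Fin (N + 1) => (prodf y).coeff j := by
      rw [← Projectivization.mk_eq_mk_iff K _ _ (coeffs_ne y) x.rep_nonzero, x.mk_rep]
      exact hx
    obtain ⟨j0, hj0⟩ := Function.ne_iff.1 x.rep_nonzero
    have hj0' : x.rep j0 ≠ 0 := hj0
    have hmemA : ∀ j, x.rep j / x.rep j0 ∈ A := fun j => subset_adjoin k _ ⟨j, j0, rfl⟩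
    let β : ℕ → A := fun n => if h : n < N + 1 then ⟨x.rep ⟨n, h⟩ / x.rep j0, hmemA _⟩ else 0
    set q : A[X] := ∑ n ∈ Finset.range (N + 1), monomial n (β n) with hq
    set a : K := ((c : K) * x.rep j0)⁻¹ with ha
    have ha0 : a ≠ 0 := inv_ne_zero (mul_ne_zero c.ne_zero hj0')
    have hqm : q.map (algebraMap A K) = C a * prodf y := by
      have h1 := (prodf y).as_sum_range' (N + 1) (Nat.lt_succ_of_le (prodf_deg y))
      conv_rhs => rw [h1]
      rw [hq, Polynomial.map_sum, Finset.mul_sum]
      refine Finset.sum_congr rfl fun n hn => ?_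
      have hn' : n < N + 1 := Finset.mem_range.1 hn
      rw [map_monomial, C_mul_monomial]
      congr 1
      have h2 : β n = ⟨x.rep ⟨n, hn'⟩ / x.rep j0, hmemA _⟩ := dif_pos hn'
      have h3 := congrFun hc ⟨n, hn'⟩
      have h4 : (c : K) * x.rep ⟨n, hn'⟩ = (prodf y).coeff n := h3
      rw [h2, ← h4, ha]
      change x.rep ⟨n, hn'⟩ / x.rep j0 = _
      have := c.ne_zero
      field_simp
    have hq0 : q ≠ 0 := by
      intro h
      rw [h, Polynomial.map_zero] at hqm
      exact mul_ne_zero (C_ne_zero.2 ha0) (prodf_ne y) hqm.symm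
    have hqd : q.natDegree ≤ N := by
      rw [← natDegree_map (algebraMap A K), hqm, natDegree_C_mul ha0]
      exact prodf_deg y
    have hqt : aeval t q = 0 := by
      have h1 : (prodf y).eval t = 0 := by
        rw [prodf, eval_prod]
        refine Finset.prod_eq_zero (Finset.mem_univ i) ?_
        rw [hyi]
        change (X - C t : K[X]).eval t = 0
        simp
      rw [aeval_def, ← eval_map, hqm, eval_mul, h1, mul_zero]
    have htA : IsIntegral A t := IsAlgebraic.isIntegral ⟨q, hq0, hqt⟩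
    have hdeg : (minpoly A t).natDegree ≤ N :=
      (natDegree_le_of_dvd (minpoly.dvd A t hqt) hq0).trans hqd
    obtain ⟨M, htM, hM⟩ := SymFAux.gon_adjoin (F := F) A t htA hdeg hgon
    refine ⟨M, hM, ((⟨t, htM⟩ : M) : OnePoint M), ?_⟩
    exact OnePoint.map_some _ _

end Pool.Agent.Lib.P62c
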