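import Pool.Agent.Lib.P62c.SymD

/-!
# Module P62c.SymO: orbits in the symmetric power

The point `sym y` of `ℙ^N` determines the set of the points `y i`; a finite orbit of `sym y` under
the symmetric power of `f` gives a finite orbit of each `y i` under `f`.
-/

namespace Pool.Agent.Lib.P62c

open Polynomial

theorem prodf_eval_eq_zero {K : Type*} [Field K] {N : ℕ} (y : Fin N → OnePoint K) (z : K) :
    (prodf y).eval z = 0 ↔ (z : OnePoint K) ∈ Set.range y := by
  unfold prodf
  rw [eval_prod, Finset.prod_eq_zero_iff]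
  constructor
  · rintro ⟨i, -, hi⟩
    refine ⟨i, ?_⟩
    revert hi
    generalize y i = p
    intro hi
    induction p using OnePoint.rec with
    | infty => rw [linf_infty, eval_one] at hi; exact absurd hi one_ne_zero
    | coe w =>
      rw [linf_coe, eval_sub, eval_X, eval_C, sub_eq_zero] at hi
      rw [hi]
  · rintro ⟨i, hi⟩
    refine ⟨i, Finset.mem_univ i, ?_⟩
    rw [hi, linf_coe, eval_sub, eval_X, eval_C, sub_self]

theorem prodf_coeff_eq_zero {K : Type*} [Field K] {N : ℕ} (y : Fin N → OnePoint K) :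
    (prodf y).coeff N = 0 ↔ (OnePoint.infty : OnePoint K) ∈ Set.range y := by
  have h := coeff_prod_of_natDegree_le (s := (Finset.univ : Finset (Fin N)))
    (fun i => linf (y i)) 1 (fun i _ => linf_deg (y i))
  rw [Finset.card_univ, Fintype.card_fin, mul_one] at h
  unfold prodf
  rw [h, Finset.prod_eq_zero_iff]
  constructor
  · rintro ⟨i, -, hi⟩
    refine ⟨i, ?_⟩
    revert hi
    generalize y i = p
    intro hi
    induction p using OnePoint.rec with
    | infty => rfl
    | coe w =>
      rw [linf_coe, coeff_sub, coeff_X_one, coeff_C, if_neg one_ne_zero, sub_zero] at hi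
      exact absurd hi one_ne_zero
  · rintro ⟨i, hi⟩
    refine ⟨i, Finset.mem_univ i, ?_⟩
    rw [hi, linf_infty, coeff_one, if_neg one_ne_zero]

theorem sym_prodf {K : Type*} [Field K] {N : ℕ} {y y' : Fin N → OnePoint K} (h : sym y = sym y') :
    ∃ a : K, a ≠ 0 ∧ prodf y = C a * prodf y' := by
  unfold sym at h
  rw [Projectivization.mk_eq_mk_iff'] at h
  obtain ⟨a, ha⟩ := h
  have h1 : prodf y = C a * prodf y' := by
    ext n
    rw [coeff_C_mul]
    by_cases hn : n < N + 1
    · exact (congrFun ha ⟨n, hn⟩).symm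
    · rw [coeff_eq_zero_of_natDegree_lt (lt_of_le_of_lt (prodf_deg y) (by omega)),
        coeff_eq_zero_of_natDegree_lt (lt_of_le_of_lt (prodf_deg y') (by omega)), mul_zero]
  refine ⟨a, ?_, h1⟩
  rintro rfl
  apply prodf_ne y
  rw [h1, C_0, zero_mul]

theorem sym_range {K : Type*} [Field K] {N : ℕ} {y y' : Fin N → OnePoint K} (h : sym y = sym y') :
    Set.range y = Set.range y' := by
  obtain ⟨a, ha, h1⟩ := sym_prodf h
  ext p
  induction p using OnePoint.rec with
  | infty =>
    rw [← prodf_coeff_eq_zero, ← prodf_coeff_eq_zero, h1, coeff_C_mul, mul_eq_zero]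
    exact ⟨fun h2 => h2.resolve_left ha, Or.inr⟩
  | coe z =>
    rw [← prodf_eval_eq_zero, ← prodf_eval_eq_zero, h1, eval_mul, eval_C, mul_eq_zero]
    exact ⟨fun h2 => h2.resolve_left ha, Or.inr⟩

theorem orbit_sym {K : Type*} [Field K] {N : ℕ} (f : OnePoint K → OnePoint K)
    (F : Projectivization K (Fin (N + 1) → K) → Projectivization K (Fin (N + 1) → K))
    (hF : ∀ y : Fin N → OnePoint K, F (sym y) = sym fun i => f (y i)) (y : Fin N → OnePoint K)
    (hfin : (Set.range fun n : ℕ => F^[n] (sym y)).Finite) (i : Fin N) :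
    (Set.range fun n : ℕ => f^[n] (y i)).Finite := by
  classical
  have hit : ∀ n : ℕ, F^[n] (sym y) = sym fun i => f^[n] (y i) := by
    intro n
    induction n with
    | zero => rfl
    | succ n ih =>
      rw [Function.iterate_succ_apply', ih, hF]
      congr 1
      funext j
      rw [Function.iterate_succ_apply']
  have hch : ∀ p : Projectivization K (Fin (N + 1) → K), ∃ c : ℕ,
      (p ∈ Set.range fun n : ℕ => F^[n] (sym y)) → F^[c] (sym y) = p := by
    intro p
    by_cases hp : p ∈ Set.range fun n : ℕ => F^[n] (sym y)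
    · obtain ⟨c, hc⟩ := hp
      exact ⟨c, fun _ => hc⟩
    · exact ⟨0, fun h => absurd h hp⟩
  choose c hc using hch
  refine (hfin.biUnion (t := fun p => Set.range fun j : Fin N => f^[c p] (y j))
    (fun p _ => Set.finite_range _)).subset ?_
  rintro _ ⟨n, rfl⟩
  have hp : F^[n] (sym y) ∈ Set.range fun n : ℕ => F^[n] (sym y) := ⟨n, rfl⟩
  refine Set.mem_biUnion hp ?_
  have h1 : sym (fun j => f^[n] (y j)) = sym (fun j => f^[c (F^[n] (sym y))] (y j)) := by
    rw [← hit, ← hit, hc _ hp]
  have h2 := sym_range h1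
  change f^[n] (y i) ∈ Set.range fun j : Fin N => f^[c (F^[n] (sym y))] (y j)
  rw [← h2]
  exact ⟨i, rfl⟩

end Pool.Agent.Lib.P62c
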