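import Pool.Agent.Lib.P62c.SymS
import Pool.Agent.Lib.P62c.SymO
import Pool.Agent.Lib.P62c.SymF

/-!
# Preperiodic points of symmetric powers
-/

namespace Pool.Agent.Lib.P62c

open Polynomial IntermediateField

theorem sym_bound {F k K : Type*} [Field F] [Field k] [CharZero k] [Field K] [IsAlgClosed K]
    [Algebra k K] [Algebra F k] [Algebra F K] [IsScalarTower F k K] {N D B : ℕ}
    (f : OnePoint K → OnePoint K)
    (Fm : Projectivization K (Fin (N + 1) → K) → Projectivization K (Fin (N + 1) → K))
    (hF : ∀ y : Fin N → OnePoint K, Fm (sym y) = sym fun i => f (y i)) (T : Finset (OnePoint K))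
    (hB : T.card ≤ B)
    (hT : ∀ (M : IntermediateField k K), (∃ u : M, Transcendental F u ∧
        0 < Module.finrank F⟮u⟯ M ∧ Module.finrank F⟮u⟯ M ≤ N * D) →
        ∀ z : OnePoint M, (Set.range fun i : ℕ => f^[i] (OnePoint.map (algebraMap M K) z)).Finite →
          OnePoint.map (algebraMap M K) z ∈ T)
    (S : Set (Projectivization K (Fin (N + 1) → K)))
    (hS : ∀ x ∈ S, (Set.range fun n : ℕ => Fm^[n] x).Finite ∧
      ∃ u : IntermediateField.adjoin k {z : K | ∃ i j, z = x.rep i / x.rep j},
        Transcendental F u ∧ 0 < Module.finrank F⟮u⟯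
          (IntermediateField.adjoin k {z : K | ∃ i j, z = x.rep i / x.rep j}) ∧
        Module.finrank F⟮u⟯
          (IntermediateField.adjoin k {z : K | ∃ i j, z = x.rep i / x.rep j}) ≤ D) :
    S.Finite ∧ S.ncard ≤ B ^ N := by
  classical
  set T' : Finset (Projectivization K (Fin (N + 1) → K)) :=
    (Fintype.piFinset fun _ : Fin N => T).image sym with hT'
  have hsub : S ⊆ T' := by
    intro x hx
    obtain ⟨h1, h2⟩ := hS x hx
    obtain ⟨y, hy⟩ := sym_surj x
    rw [hT', Finset.mem_coe, Finset.mem_image]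
    refine ⟨y, ?_, hy⟩
    rw [Fintype.mem_piFinset]
    intro i
    obtain ⟨M, hM, z, hz⟩ := sym_field (F := F) y x hy h2 i
    have h3 := orbit_sym f Fm hF y (by rw [hy]; exact h1) i
    rw [← hz] at h3 ⊢
    exact hT M hM z h3
  have hcard : T'.card ≤ B ^ N := by
    refine Finset.card_image_le.trans ?_
    rw [Fintype.card_piFinset_const]
    exact Nat.pow_le_pow_left hB N
  refine ⟨T'.finite_toSet.subset hsub, ?_⟩
  have h4 := Set.ncard_le_ncard hsub T'.finite_toSet
  rw [Set.ncard_coe_finset] at h4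
  exact h4.trans hcard

end Pool.Agent.Lib.P62c
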