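import Pool.Agent.Lib.P62c.SymD

/-!
# Module P62c.SymS: every point of `ℙ^N` is the image of an `N`-tuple of points of `ℙ¹`
-/

namespace Pool.Agent.Lib.P62c

open Polynomial

theorem prodf_cons {K : Type*} [Field K] {N : ℕ} (p : OnePoint K) (y : Fin N → OnePoint K) :
    prodf (Fin.cons p y : Fin (N + 1) → OnePoint K) = linf p * prodf y := by
  unfold prodf
  rw [Fin.prod_univ_succ, Fin.cons_zero]
  simp only [Fin.cons_succ]

/-- Every nonzero polynomial of degree at most `N` is a constant times a product of `N` linear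
forms. -/
theorem exists_prodf {K : Type*} [Field K] [IsAlgClosed K] :
    ∀ (N : ℕ) (F : K[X]), F ≠ 0 → F.natDegree ≤ N →
      ∃ (y : Fin N → OnePoint K) (c : K), c ≠ 0 ∧ prodf y = C c * F := by
  intro N
  induction N with
  | zero =>
    intro F hF hd
    have h1 : F = C (F.coeff 0) := eq_C_of_natDegree_eq_zero (by omega)
    have h2 : F.coeff 0 ≠ 0 := by
      intro h0
      apply hF
      rw [h1, h0, C_0]
    refine ⟨fun i => i.elim0, (F.coeff 0)⁻¹, inv_ne_zero h2, ?_⟩
    rw [prodf, Finset.univ_eq_empty, Finset.prod_empty]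
    conv_rhs => rw [h1]
    rw [coeff_C_zero, ← C_mul, inv_mul_cancel₀ h2, C_1]
  | succ N ih =>
    intro F hF hd
    by_cases hN : F.natDegree ≤ N
    · obtain ⟨y, c, hc, hy⟩ := ih F hF hN
      exact ⟨Fin.cons OnePoint.infty y, c, hc, by rw [prodf_cons, linf_infty, one_mul, hy]⟩
    · have hd' : F.natDegree = N + 1 := by omega
      have hdeg : F.degree ≠ 0 := by
        rw [degree_eq_natDegree hF, hd']
        exact_mod_cast Nat.succ_ne_zero N
      obtain ⟨z, hz⟩ := IsAlgClosed.exists_root F hdeg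
      obtain ⟨F1, hF1⟩ := dvd_iff_isRoot.2 hz
      have hF10 : F1 ≠ 0 := by
        rintro rfl
        exact hF (by rw [hF1, mul_zero])
      have hd1 : F1.natDegree ≤ N := by
        have h3 := congrArg natDegree hF1
        rw [natDegree_mul (X_sub_C_ne_zero z) hF10, natDegree_X_sub_C, hd'] at h3
        omega
      obtain ⟨y, c, hc, hy⟩ := ih F1 hF10 hd1
      refine ⟨Fin.cons (z : OnePoint K) y, c, hc, ?_⟩
      rw [prodf_cons, linf_coe, hy, hF1]
      ring

theorem sym_surj {K : Type*} [Field K] [IsAlgClosed K] {N : ℕ}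
    (x : Projectivization K (Fin (N + 1) → K)) : ∃ y : Fin N → OnePoint K, sym y = x := by
  classical
  set v : Fin (N + 1) → K := x.rep with hv
  have hv0 : v ≠ 0 := x.rep_nonzero
  set F : K[X] := ∑ j : Fin (N + 1), C (v j) * X ^ (j : ℕ) with hF
  have hco : ∀ j : Fin (N + 1), F.coeff (j : ℕ) = v j := by
    intro j
    rw [hF, finsetSum_coeff, Finset.sum_eq_single j]
    · rw [coeff_C_mul, coeff_X_pow, if_pos rfl, mul_one]
    · intro i _ hi
      rw [coeff_C_mul, coeff_X_pow, if_neg (fun h => hi (Fin.ext h.symm)), mul_zero]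
    · intro h; exact absurd (Finset.mem_univ j) h
  have hF0 : F ≠ 0 := by
    intro h0
    apply hv0
    funext j
    rw [← hco j, h0, coeff_zero, Pi.zero_apply]
  have hFd : F.natDegree ≤ N := by
    rw [hF]
    refine natDegree_sum_le_of_forall_le _ _ fun j _ => ?_
    refine (natDegree_C_mul_X_pow_le _ _).trans ?_
    have := j.isLt
    omega
  obtain ⟨y, c, hc, hy⟩ := exists_prodf N F hF0 hFd
  refine ⟨y, ?_⟩
  rw [sym, ← x.mk_rep, Projectivization.mk_eq_mk_iff']
  refine ⟨c, ?_⟩
  funext j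
  rw [hy, coeff_C_mul, hco j, Pi.smul_apply, smul_eq_mul]

end Pool.Agent.Lib.P62c
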