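import Pool.Agent.Lib.P62c.SymX
import Pool.Agent.Lib.P62c.SymS
import Pool.Agent.Lib.P62h.IsoT
import Pool.Agent.Lib.P62h.Fin1

/-!
# Symmetric powers: action on points, isotriviality
-/

namespace Pool.Agent.Lib.P62c

open Polynomial Pool.Agent.Lib.P62a0c3 Pool.Agent.Lib.P62h

/-- The self-map of `ℙ^N(K)` given by forms. -/
noncomputable def actL {K : Type*} [Field K] {N : ℕ}
    (Φ : Fin (N + 1) → MvPolynomial (Fin (N + 1)) K)
    (x : Projectivization K (Fin (N + 1) → K)) : Projectivization K (Fin (N + 1) → K) :=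
  open Classical in
  if h : (fun i => MvPolynomial.eval x.rep (Φ i)) ≠ 0 then Projectivization.mk K _ h else x

theorem rep_sym {K : Type*} [Field K] {N : ℕ} (y : Fin N → OnePoint K) :
    ∃ c : K, c ≠ 0 ∧ ∀ j : Fin (N + 1), (sym y).rep j = c * (prodf y).coeff j := by
  have h1 : sym y = Projectivization.mk K (sym y).rep (sym y).rep_nonzero :=
    (Projectivization.mk_rep _).symm
  have h2 : Projectivization.mk K (sym y).rep (sym y).rep_nonzero =
    Projectivization.mk K (fun j : Fin (N + 1) => (prodf y).coeff j) (coeffs_ne y) := h1.symm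
  rw [Projectivization.mk_eq_mk_iff'] at h2
  obtain ⟨c, hc⟩ := h2
  refine ⟨c, ?_, fun j => ?_⟩
  · rintro rfl
    apply (sym y).rep_nonzero
    rw [← hc, zero_smul]
  · rw [← hc, Pi.smul_apply, smul_eq_mul]

theorem actL_sym {k K : Type*} [Field k] [Field K] [Algebra k K] {N d : ℕ} {P Q : k[X]}
    (hPQ : IsCoprime P Q) (hd : max P.natDegree Q.natDegree = d) (y : Fin N → OnePoint K) :
    actL (fun j => MvPolynomial.map (algebraMap k K) (symF N d P Q j)) (sym y) =
      sym fun i => rm (P.map (algebraMap k K)) (Q.map (algebraMap k K)) d (y i) := by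
  obtain ⟨c, hc, h⟩ := rep_sym y
  obtain ⟨c', hc', h'⟩ := symF_eval (k := k) hPQ hd y _ c h
  set z : Fin N → OnePoint K :=
    fun i => rm (P.map (algebraMap k K)) (Q.map (algebraMap k K)) d (y i) with hz
  have e1 : (fun j : Fin (N + 1) => MvPolynomial.eval (sym y).rep
      (MvPolynomial.map (algebraMap k K) (symF N d P Q j))) =
      (c ^ d * c') • fun j : Fin (N + 1) => (prodf z).coeff j := by
    funext j
    rw [h' j, Pi.smul_apply, smul_eq_mul, mul_assoc]
  have hne : (fun j : Fin (N + 1) => MvPolynomial.eval (sym y).rep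
      (MvPolynomial.map (algebraMap k K) (symF N d P Q j))) ≠ 0 := by
    rw [e1]
    exact smul_ne_zero (mul_ne_zero (pow_ne_zero _ hc) hc') (coeffs_ne z)
  rw [actL, dif_pos hne]
  exact (Projectivization.mk_eq_mk_iff' K _ _ _ _).2 ⟨c ^ d * c', e1.symm⟩

theorem symF_ne {k K : Type*} [Field k] [Field K] [IsAlgClosed K] [Algebra k K] {N d : ℕ}
    {P Q : k[X]} (hPQ : IsCoprime P Q) (hd : max P.natDegree Q.natDegree = d)
    (v : Fin (N + 1) → K)
    (hv : ∀ j, MvPolynomial.eval v (MvPolynomial.map (algebraMap k K) (symF N d P Q j)) = 0) :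
    v = 0 := by
  by_contra hne
  obtain ⟨y, hy⟩ := sym_surj (Projectivization.mk K v hne)
  rw [sym, eq_comm, Projectivization.mk_eq_mk_iff'] at hy
  obtain ⟨c, hc⟩ := hy
  have hc0 : c ≠ 0 := by
    rintro rfl
    apply hne
    rw [← hc, zero_smul]
  obtain ⟨c', hc', h'⟩ := symF_eval (k := k) hPQ hd y v c fun j => by
    rw [← hc, Pi.smul_apply, smul_eq_mul]
  apply coeffs_ne fun i => rm (P.map (algebraMap k K)) (Q.map (algebraMap k K)) d (y i)
  funext j
  have h1 := h' j
  rw [hv j, eq_comm, mul_eq_zero, mul_eq_zero] at h1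
  exact (h1.resolve_left (pow_ne_zero _ hc0)).resolve_left hc'

theorem linear_eq {K : Type*} [Field K] {σ : Type*} [Fintype σ] [DecidableEq σ]
    (L : MvPolynomial σ K) (hL : L.IsHomogeneous 1) :
    ∑ j, MvPolynomial.C (L.coeff (Finsupp.single j 1)) * MvPolynomial.X j = L := by
  ext m
  rw [MvPolynomial.coeff_sum]
  by_cases hm : m.degree = 1
  · have h1 : m ∈ Set.range (fun a : σ => Finsupp.single a 1) := by
      rw [Finsupp.range_single_one]; exact hm
    obtain ⟨a, rfl⟩ := h1
    rw [Finset.sum_eq_single a]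
    · rw [MvPolynomial.coeff_C_mul, MvPolynomial.coeff_X, if_pos rfl, mul_one]
    · intro b _ hb
      rw [MvPolynomial.coeff_C_mul, MvPolynomial.coeff_X, if_neg, mul_zero]
      intro h
      exact hb (Finsupp.single_left_injective one_ne_zero h)
    · intro h; exact absurd (Finset.mem_univ a) h
  · have h0 : L.coeff m = 0 := by
      by_contra h
      apply hm
      have h1 : Finsupp.weight 1 m = 1 := hL h
      rw [Finsupp.degree_eq_weight_one]
      exact h1
    rw [h0]
    refine Finset.sum_eq_zero fun b _ => ?_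
    rw [MvPolynomial.coeff_C_mul, MvPolynomial.coeff_X, if_neg, mul_zero]
    rintro rfl
    apply hm
    simp

theorem iso_sym {F K : Type*} [Field F] [IsAlgClosed F] [Field K] [IsAlgClosed K] [Algebra F K]
    {N d : ℕ} (f : OnePoint K → OnePoint K) (hf : IsoC (F := F) d f)
    (Fm : Projectivization K (Fin (N + 1) → K) → Projectivization K (Fin (N + 1) → K))
    (hF : ∀ y : Fin N → OnePoint K, Fm (sym y) = sym fun i => f (y i)) :
    ∃ M : Matrix (Fin (N + 1)) (Fin (N + 1)) K, M.det ≠ 0 ∧
      ∃ Φ₀ : Fin (N + 1) → MvPolynomial (Fin (N + 1)) F,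
        ((∀ i, (Φ₀ i).IsHomogeneous d) ∧
          ∀ v : Fin (N + 1) → F, (∀ i, MvPolynomial.eval v (Φ₀ i) = 0) → v = 0) ∧
        ∀ x, Fm (actL (fun i => ∑ j, MvPolynomial.C (M i j) * MvPolynomial.X j) x) =
          actL (fun i => ∑ j, MvPolynomial.C (M i j) * MvPolynomial.X j)
            (actL (fun i => MvPolynomial.map (algebraMap F K) (Φ₀ i)) x) := by
  classical
  obtain ⟨α, β, γ, δ, P1, Q1, hdet, hcop, hdeg, hall⟩ := hf
  have hc1 := iT_mob_coprime hdet
  have hd1 := iT_mob_degree hdet
  set L : Fin (N + 1) → MvPolynomial (Fin (N + 1)) K :=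
    symF N 1 (C α * X + C β) (C γ * X + C δ) with hL
  have hLh : ∀ i, (L i).IsHomogeneous 1 := fun i => symF_hom N 1 _ _ i
  have hLid : ∀ i, MvPolynomial.map (algebraMap K K) (L i) = L i := fun i => by
    rw [Algebra.algebraMap_self, MvPolynomial.map_id]
  set M : Matrix (Fin (N + 1)) (Fin (N + 1)) K :=
    Matrix.of fun i j => (L i).coeff (Finsupp.single j 1) with hM
  have hML : (fun i => ∑ j, MvPolynomial.C (M i j) * MvPolynomial.X j) = L :=
    funext fun i => linear_eq (L i) (hLh i)
  refine ⟨M, ?_, symF N d P1 Q1, ⟨fun i => symF_hom N d P1 Q1 i, fun v hv => ?_⟩, fun x => ?_⟩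
  · intro h0
    obtain ⟨v, hv0, hv⟩ := Matrix.exists_mulVec_eq_zero_iff.2 h0
    apply hv0
    refine symF_ne (k := K) hc1 hd1 v fun j => ?_
    have h1 := congrFun hv j
    rw [← hL, hLid, ← hML]
    rw [Matrix.mulVec, dotProduct] at h1
    simpa using h1
  · refine symF_ne (k := F) hcop hdeg v fun j => ?_
    rw [Algebra.algebraMap_self, MvPolynomial.map_id]
    exact hv j
  · obtain ⟨y, rfl⟩ := sym_surj x
    have hlin : ∀ y : Fin N → OnePoint K, actL L (sym y) =
        sym fun i => rm (C α * X + C β) (C γ * X + C δ) 1 (y i) := by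
      intro y
      have h1 := actL_sym (k := K) (K := K) hc1 hd1 y
      rw [← hL] at h1
      simp only [hLid] at h1
      rw [h1]
      simp only [Algebra.algebraMap_self, Polynomial.map_id]
    rw [hML, hlin, hF, actL_sym (k := F) hcop hdeg y, hlin]
    congr 1
    funext i
    exact hall (y i)

end Pool.Agent.Lib.P62c
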