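import Pool.Agent.Lib.P62c.ResH
import Pool.Agent.Lib.P62c.ResP
import Pool.Agent.Lib.P62c.SymD
import Pool.Agent.Lib.P62h.HomA

/-!
# The symmetric powers of an endomorphism of `ℙ¹` are endomorphisms of `ℙ^N`
-/

namespace Pool.Agent.Lib.P62c

open Polynomial Pool.Agent.Lib.P62a0c3 Pool.Agent.Lib.P62h

theorem linf_toP1 {K : Type*} [Field K] {p q : K} (h : p ≠ 0 ∨ q ≠ 0) :
    ∃ c : K, c ≠ 0 ∧ X * C q - C p = C c * linf (toP1 p q) := by
  by_cases hq : q = 0
  · have hp : p ≠ 0 := h.resolve_right (not_not.2 hq)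
    refine ⟨-p, neg_ne_zero.2 hp, ?_⟩
    have h1 : toP1 p q = OnePoint.infty := by rw [toP1, if_pos hq]
    rw [h1, linf_infty, hq, C_0, mul_zero, zero_sub, mul_one, C_neg]
  · refine ⟨q, hq, ?_⟩
    have h1 : toP1 p q = ((p / q : K) : OnePoint K) := by rw [toP1, if_neg hq]
    rw [h1, linf_coe, mul_sub, ← C_mul, mul_div_cancel₀ _ hq, mul_comm]

/-- The polynomial `Q(x) Z - P(x)`. -/
noncomputable def relG {K : Type*} [CommRing K] (P Q : K[X]) : K[X][X] :=
  C X * Q.map C - P.map C

theorem relG_deg {K : Type*} [Field K] {P Q : K[X]} {d : ℕ}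
    (hd : max P.natDegree Q.natDegree = d) : (relG P Q).natDegree ≤ d := by
  have hP : P.natDegree ≤ d := hd ▸ le_max_left _ _
  have hQ : Q.natDegree ≤ d := hd ▸ le_max_right _ _
  refine (natDegree_sub_le _ _).trans (max_le ?_ (natDegree_map_le.trans hP))
  refine (natDegree_C_mul_le _ _).trans (natDegree_map_le.trans hQ)

theorem res_linf {K : Type*} [Field K] {d : ℕ} {P Q : K[X]} (hPQ : IsCoprime P Q)
    (hd : max P.natDegree Q.natDegree = d) (y : OnePoint K) :
    ∃ c : K, c ≠ 0 ∧ resultant ((linf y).map C) (relG P Q) 1 d = C c * linf (rm P Q d y) := by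
  induction y using OnePoint.rec with
  | infty =>
    obtain ⟨c, hc, h⟩ := linf_toP1 (HomAAux.top_ne hPQ hd)
    refine ⟨(-1) ^ d * c, mul_ne_zero (pow_ne_zero _ (neg_ne_zero.2 one_ne_zero)) hc, ?_⟩
    rw [linf_infty, Polynomial.map_one, resultant_one_left, rm_infty, C_mul, mul_assoc, ← h]
    simp [relG]
  | coe z =>
    obtain ⟨c, hc, h⟩ := linf_toP1 (HomAAux.not_both P Q hPQ z)
    refine ⟨c, hc, ?_⟩
    rw [linf_coe, Polynomial.map_sub, map_X, map_C, resultant_X_sub_C_left _ _ _ (relG_deg hd),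
      rm_some, ← h]
    simp [relG, eval_map, eval₂_at_apply]

theorem res_prodf {K : Type*} [Field K] {N d : ℕ} {P Q : K[X]} (hPQ : IsCoprime P Q)
    (hd : max P.natDegree Q.natDegree = d) (y : Fin N → OnePoint K) :
    ∃ c : K, c ≠ 0 ∧ resultant ((prodf y).map C) (relG P Q) N d =
      C c * prodf fun i => rm P Q d (y i) := by
  choose c hc h using fun i => res_linf hPQ hd (y i)
  refine ⟨∏ i, c i, Finset.prod_ne_zero_iff.2 fun i _ => hc i, ?_⟩
  rw [prodf, Polynomial.map_prod, resultant_prod1 _ _ _ _ (relG_deg hd), prodf, map_prod,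
    ← Finset.prod_mul_distrib]
  · exact Finset.prod_congr rfl fun i _ => h i
  · intro i
    rw [Ne, Polynomial.map_eq_zero_iff (C_injective)]
    exact linf_ne _
  · intro i
    exact natDegree_map_le.trans (linf_deg _)

/-- The generic polynomial of degree `N`. -/
noncomputable def genH (k : Type*) [Field k] (N : ℕ) : (MvPolynomial (Fin (N + 1)) k)[X][X] :=
  ∑ i : Fin (N + 1), C (C (MvPolynomial.X i)) * X ^ (i : ℕ)

/-- The polynomial `Q(x) Z - P(x)`. -/
noncomputable def genG {k : Type*} [Field k] (N : ℕ) (P Q : k[X]) :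
    (MvPolynomial (Fin (N + 1)) k)[X][X] :=
  C X * Q.map (C.comp MvPolynomial.C) - P.map (C.comp MvPolynomial.C)

/-- The forms of the symmetric power. -/
noncomputable def symF {k : Type*} [Field k] (N d : ℕ) (P Q : k[X]) (j : Fin (N + 1)) :
    MvPolynomial (Fin (N + 1)) k :=
  (resultant (genH k N) (genG N P Q) N d).coeff j

theorem symF_hom {k : Type*} [Field k] (N d : ℕ) (P Q : k[X]) (j : Fin (N + 1)) :
    (symF N d P Q j).IsHomogeneous d := by
  refine resultant_hom _ _ ?_ ?_ _
  · intro i l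
    rw [genH, finsetSum_coeff, finsetSum_coeff]
    refine MvPolynomial.IsHomogeneous.sum _ _ _ fun s _ => ?_
    rw [coeff_C_mul, coeff_X_pow]
    split_ifs with h1
    · rw [mul_one, coeff_C]
      split_ifs with h2
      · exact MvPolynomial.isHomogeneous_X _ _
      · exact MvPolynomial.isHomogeneous_zero _ _ _
    · rw [mul_zero, coeff_zero]
      exact MvPolynomial.isHomogeneous_zero _ _ _
  · intro i l
    rw [genG, coeff_sub, coeff_C_mul, coeff_map, coeff_map, coeff_sub, RingHom.comp_apply,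
      RingHom.comp_apply, coeff_C, coeff_mul_C, coeff_X]
    refine MvPolynomial.IsHomogeneous.sub ?_ ?_
    · split_ifs
      · rw [one_mul]; exact MvPolynomial.isHomogeneous_C _ _
      · rw [zero_mul]; exact MvPolynomial.isHomogeneous_zero _ _ _
    · split_ifs
      · exact MvPolynomial.isHomogeneous_C _ _
      · exact MvPolynomial.isHomogeneous_zero _ _ _

theorem symF_eval {k K : Type*} [Field k] [Field K] [Algebra k K] {N d : ℕ} {P Q : k[X]}
    (hPQ : IsCoprime P Q) (hd : max P.natDegree Q.natDegree = d) (y : Fin N → OnePoint K)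
    (v : Fin (N + 1) → K) (c : K) (hv : ∀ j : Fin (N + 1), v j = c * (prodf y).coeff j) :
    ∃ c' : K, c' ≠ 0 ∧ ∀ j : Fin (N + 1),
      MvPolynomial.eval v (MvPolynomial.map (algebraMap k K) (symF N d P Q j)) =
        c ^ d * (c' * (prodf fun i => rm (P.map (algebraMap k K)) (Q.map (algebraMap k K)) d
          (y i)).coeff j) := by
  have hcK : IsCoprime (P.map (algebraMap k K)) (Q.map (algebraMap k K)) :=
    (Polynomial.isCoprime_map _).2 hPQ
  have hdK : max (P.map (algebraMap k K)).natDegree (Q.map (algebraMap k K)).natDegree = d := by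
    rw [natDegree_map, natDegree_map]; exact hd
  obtain ⟨c', hc', h⟩ := res_prodf (N := N) hcK hdK y
  refine ⟨c', hc', fun j => ?_⟩
  set φ : MvPolynomial (Fin (N + 1)) k →+* K := MvPolynomial.eval₂Hom (algebraMap k K) v with hφ
  have e1 : MvPolynomial.eval v (MvPolynomial.map (algebraMap k K) (symF N d P Q j)) =
      φ (symF N d P Q j) := by
    rw [MvPolynomial.eval_map]; rfl
  have e2 : (resultant (genH k N) (genG N P Q) N d).map φ =
      resultant ((genH k N).map (mapRingHom φ)) ((genG N P Q).map (mapRingHom φ)) N d := by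
    rw [resultant_map_map]; rfl
  have e3 : (genH k N).map (mapRingHom φ) = C (C c) * (prodf y).map C := by
    have h1 : prodf y = ∑ i : Fin (N + 1), C ((prodf y).coeff i) * X ^ (i : ℕ) := by
      rw [← Finset.sum_range fun i => C ((prodf y).coeff i) * X ^ i]
      exact as_sum_range_C_mul_X_pow' _ (Nat.lt_succ_of_le (prodf_deg y))
    conv_rhs => rw [h1]
    rw [genH, Polynomial.map_sum, Polynomial.map_sum, Finset.mul_sum]
    refine Finset.sum_congr rfl fun i _ => ?_
    rw [Polynomial.map_mul, Polynomial.map_mul, map_C, map_C, Polynomial.map_pow,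
      Polynomial.map_pow, map_X, map_X, ← mul_assoc, ← C_mul, ← C_mul, ← hv i, coe_mapRingHom,
      map_C, hφ, MvPolynomial.eval₂Hom_X']
  have e4 : (genG N P Q).map (mapRingHom φ) =
      relG (P.map (algebraMap k K)) (Q.map (algebraMap k K)) := by
    have h1 : (mapRingHom φ).comp (C.comp MvPolynomial.C) = C.comp (algebraMap k K) := by
      ext x
      simp [hφ]
    rw [genG, relG, Polynomial.map_sub, Polynomial.map_mul, map_C, Polynomial.map_map,
      Polynomial.map_map, Polynomial.map_map, Polynomial.map_map, h1]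
    simp
  rw [e1, symF, ← coeff_map, e2, e3, e4, resultant_C_mul_left, h, ← C_pow, coeff_C_mul, coeff_C_mul]

end Pool.Agent.Lib.P62c
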